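import Pool.Agent.TypeIV.Full
import Pool.Agent.OddRank.RankTwo

/-!
# The irreducible case
-/

set_option autoImplicit false
set_option linter.unusedSectionVars false

namespace Pool.Agent.TypeIV

open Pool.Agent.OddRank (quad_mem0 deg_one_mem deg_neg_mem trace_nondeg)

section Map

variable {K A A' : Type*} [Field K] [CharZero K] [Ring A] [Algebra K A] [Ring A'] [Algebra K A']
variable {g : Submodule K A} {c f P Q R : A}

theorem Tri.map (B : Tri g c f P Q R) (ρ : A →ₐ[K] A') :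
    Tri (g.map ρ.toLinearMap) (ρ c) (ρ f) (ρ P) (ρ Q) (ρ R) := by
  refine ⟨?_, ⟨c, B.cg, rfl⟩, ⟨f, B.fg, rfl⟩, ?_, ?_, ?_, ?_, ?_, ?_, ?_, ?_⟩
  · rintro _ ⟨a, ha, rfl⟩ _ ⟨b, hb, rfl⟩
    refine ⟨_, B.lie a ha b hb, ?_⟩
    simp only [AlgHom.toLinearMap_apply, map_sub, map_mul]
  · rw [← map_mul, B.cc, map_zero]
  · rw [← map_mul, B.ff, map_zero]
  · rw [← map_mul, ← map_mul, B.cfc]
  · rw [← map_mul, ← map_mul, B.fcf]
  · rw [← map_mul, B.cf]
  · rw [← map_mul, B.fc]
  · rw [← map_one ρ, ← map_sub, ← map_sub, ← B.hR]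
  · rintro _ ⟨a, ha, rfl⟩
    obtain ⟨t, ht⟩ := B.ext a ha
    refine ⟨t, ?_⟩
    simp only [AlgHom.toLinearMap_apply]
    rw [← map_mul, ← map_mul, ht, map_smul]

theorem Tri.up_lift (B : Tri g c f P Q R) (ρ : A →ₐ[K] A') {z : A'}
    (hz : Up (g.map ρ.toLinearMap) (ρ P) (ρ Q) (ρ R) z) :
    ∃ x, Up g P Q R x ∧ ρ x = z := by
  obtain ⟨⟨x, hx, hxz⟩, hz2⟩ := hz
  refine ⟨_, B.up_up hx, ?_⟩
  rw [AlgHom.toLinearMap_apply] at hxz
  simp only [map_add, map_mul]
  rw [hxz]
  exact hz2.symm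

/-- an extremal pair of degree one -/
theorem exists_tri (hlie : ∀ a ∈ g, ∀ b ∈ g, a * b - b * a ∈ g) (hc : c ∈ g)
    (hext : ∀ x ∈ g, ∃ t : K, c * x * c = t • c) {E d : A} (hEE : E * E = E)
    (hEg : ∀ x ∈ g, E * x - x * E ∈ g) (hd : d = E * c * (1 - E))
    (hy : ∃ y ∈ g, d * y * d ≠ 0) : ∃ f, Tri g d f (d * f) (f * d) (1 - d * f - f * d) := by
  have hE1 : (1 - E) * E = 0 := by rw [sub_mul, one_mul, hEE, sub_self]
  have h1E : E * (1 - E) = 0 := by rw [mul_sub, mul_one, hEE, sub_self]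
  have h11 : (1 - E) * (1 - E) = 1 - E := by
    rw [mul_sub, mul_one, hE1, sub_zero]
  have hdg : d ∈ g := by
    rw [hd]
    exact deg_one_mem hEE hEg hc
  have hEd : E * d = d := by rw [hd, ← mul_assoc, ← mul_assoc, hEE]
  have hdE : d * E = 0 := by rw [hd, mul_assoc, hE1, mul_zero]
  have hd1 : d * (1 - E) = d := by rw [mul_sub, mul_one, hdE, sub_zero]
  have hdd : d * d = 0 := by
    calc d * d = d * (E * d) := by rw [hEd]
      _ = (d * E) * d := (mul_assoc _ _ _).symm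
      _ = 0 := by rw [hdE, zero_mul]
  have hdext : ∀ x ∈ g, ∃ t : K, d * x * d = t • d := by
    intro x hx
    obtain ⟨t, ht⟩ := hext _ (deg_neg_mem hEE hEg hx)
    refine ⟨t, ?_⟩
    have h2 : d * x * d = E * (c * ((1 - E) * x * E) * c) * (1 - E) := by
      rw [hd]
      simp only [← mul_assoc]
    rw [h2, ht, hd, mul_smul_comm, smul_mul_assoc]
  obtain ⟨y₀, hy₀, hy0⟩ := hy
  obtain ⟨t, ht⟩ := hdext y₀ hy₀
  have ht0 : t ≠ 0 := by
    rintro rfl
    rw [zero_smul] at ht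
    exact hy0 ht
  obtain ⟨y, hyd⟩ : ∃ y, y = t⁻¹ • ((1 - E) * y₀ * E) := ⟨_, rfl⟩
  have hyg : y ∈ g := by
    rw [hyd]
    exact g.smul_mem _ (deg_neg_mem hEE hEg hy₀)
  have hdyd : d * y * d = d := by
    have h1 : d * ((1 - E) * y₀ * E) * d = d * y₀ * d := by
      calc d * ((1 - E) * y₀ * E) * d = (d * (1 - E)) * y₀ * (E * d) := by
            simp only [mul_assoc]
        _ = _ := by rw [hd1, hEd]
    rw [hyd, mul_smul_comm, smul_mul_assoc, h1, ht, smul_smul, inv_mul_cancel₀ ht0, one_smul]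
  have hEy : E * y = 0 := by
    rw [hyd, mul_smul_comm, ← mul_assoc, ← mul_assoc, h1E, zero_mul, zero_mul, smul_zero]
  have hyE : y * E = y := by
    rw [hyd, smul_mul_assoc, mul_assoc ((1 - E) * y₀) E E, hEE]
  have hyy : y * y = 0 := by
    calc y * y = (y * E) * y := by rw [hyE]
      _ = y * (E * y) := mul_assoc _ _ _
      _ = 0 := by rw [hEy, mul_zero]
  refine ⟨y * d * y, ⟨hlie, hdg, quad_mem0 hlie hyg hyy hdg, hdd, ?_, ?_, ?_, rfl, rfl, rfl,
    hdext⟩⟩
  · have : y * d * y * (y * d * y) = y * d * (y * y) * d * y := by simp only [← mul_assoc]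
    rw [this, hyy, mul_zero, zero_mul, zero_mul]
  · have : d * (y * d * y) * d = (d * y * d) * y * d := by simp only [← mul_assoc]
    rw [this, hdyd, hdyd]
  · have : y * d * y * d * (y * d * y) = y * ((d * y * d) * y * d) * y := by
      simp only [← mul_assoc]
    rw [this, hdyd, hdyd]

end Map

section RankOne

variable {K V : Type*} [Field K] [AddCommGroup V] [Module K V]

/-- rank at most one -/
def RankLE (c : Module.End K V) : Prop :=
  ∃ (α : Module.Dual K V) (a : V), c = α.smulRight a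

theorem RankLE.mul_mul {c : Module.End K V} (h : RankLE c) (x y : Module.End K V) :
    RankLE (x * c * y) := by
  obtain ⟨α, a, rfl⟩ := h
  refine ⟨α.comp y, x a, ?_⟩
  ext w
  simp [Module.End.mul_apply]

theorem rankLE_of_finrank [FiniteDimensional K V] {c : Module.End K V}
    (h : Module.finrank K (LinearMap.range c) = 1) : RankLE c := by
  obtain ⟨⟨a, ha⟩, ha0, h1⟩ := finrank_eq_one_iff'.1 h
  obtain ⟨k, hk⟩ : ∃ k : LinearMap.range c →ₗ[K] K, ∀ w, k w • (⟨a, ha⟩ : LinearMap.range c) = w := by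
    let e := LinearEquiv.toSpanNonzeroSingleton K (LinearMap.range c) ⟨a, ha⟩ ha0
    have htop : ∀ w, w ∈ K ∙ (⟨a, ha⟩ : LinearMap.range c) := by
      intro w
      obtain ⟨t, ht⟩ := h1 w
      exact Submodule.mem_span_singleton.2 ⟨t, ht⟩
    refine ⟨e.symm.toLinearMap ∘ₗ (LinearMap.codRestrict _ LinearMap.id htop), fun w => ?_⟩
    have h2 := e.apply_symm_apply ⟨w, htop w⟩
    have h3 := congrArg Subtype.val h2
    exact h3
  refine ⟨k.comp c.rangeRestrict, a, ?_⟩
  ext w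
  have h2 := congrArg Subtype.val (hk (c.rangeRestrict w))
  rw [LinearMap.smulRight_apply, LinearMap.comp_apply]
  exact h2.symm

theorem RankLE.ext {c : Module.End K V} (h : RankLE c) (x : Module.End K V) :
    ∃ t : K, c * x * c = t • c := by
  obtain ⟨α, a, rfl⟩ := h
  refine ⟨α (x a), ?_⟩
  ext w
  simp [Module.End.mul_apply, smul_smul, mul_comm]

theorem RankLE.trace [FiniteDimensional K V] {c : Module.End K V} (h : RankLE c)
    (x : Module.End K V) : c * x * c = (LinearMap.trace K V (c * x)) • c := by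
  obtain ⟨α, a, rfl⟩ := h
  have h2 : (α.smulRight a * x : Module.End K V) = (α.comp x).smulRight a := by
    ext w
    simp
  rw [h2, LinearMap.trace_smulRight]
  ext w
  simp [Module.End.mul_apply, smul_smul, mul_comm]

variable {g : Submodule K (Module.End K V)} {c f P Q R : Module.End K V}

theorem line_P [CharZero K] (B : Tri g c f P Q R) (h : RankLE c) (hc : c ≠ 0) : Line P := by
  obtain ⟨α, a, rfl⟩ := h
  have hP : P = (α.comp f).smulRight a := by
    rw [← B.cf]
    ext w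
    simp [Module.End.mul_apply]
  refine ⟨a, α.comp f, ?_, hP⟩
  have ha : a ≠ 0 := by
    rintro rfl
    exact hc (LinearMap.smulRight_zero _)
  obtain ⟨w, hw⟩ : ∃ w, α w ≠ 0 := by
    by_contra hcon
    push Not at hcon
    apply hc
    ext w
    rw [LinearMap.smulRight_apply, hcon, zero_smul, LinearMap.zero_apply]
  have h1 := LinearMap.congr_fun B.Pc w
  rw [Module.End.mul_apply, LinearMap.smulRight_apply, map_smul, hP, LinearMap.smulRight_apply,
    smul_smul] at h1
  have h2 : (α w * (α.comp f) a - α w) • a = 0 := by rw [sub_smul, h1, sub_self]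
  rcases smul_eq_zero.1 h2 with h3 | h3
  · have h4 : α w * ((α.comp f) a - 1) = 0 := by linear_combination h3
    rcases mul_eq_zero.1 h4 with h5 | h5
    · exact absurd h5 hw
    · exact sub_eq_zero.1 h5
  · exact absurd h3 ha

end RankOne

section Irr

variable {K : Type*} [Field K] [CharZero K] {V : Type*} [AddCommGroup V] [Module K V]
  [FiniteDimensional K V] {g : Submodule K (Module.End K V)} {c f P Q R : Module.End K V}

/-- there is an element of weight one whose square is not zero if there is no form -/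
theorem exists_sq (B : Tri g c f P Q R) (hL : Line P)
    (hirr : ∀ U : Submodule K V, (∀ D ∈ g, ∀ w ∈ U, D w ∈ U) → U = ⊥ ∨ U = ⊤)
    (hnf : ¬ ∃ (φ : V →ₗ[K] V →ₗ[K] K) (μ : Module.End K V → K),
      (∀ x, (∀ y, φ x y = 0) → x = 0) ∧
      ∀ D ∈ g, ∀ u v, φ (D u) v + φ u (D v) = μ D * φ u v) :
    ∃ x, Up g P Q R x ∧ x * x ≠ 0 := by
  by_contra hcon
  push Not at hcon
  apply hnf
  let ρ : Module.End K V →ₐ[K] Module.End K V × Module.End K V :=
    (AlgHom.id K _).prod (AlgHom.id K _)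
  have hρ : ∀ x, ρ x = (x, x) := fun _ => rfl
  obtain ⟨φ, μ, h1, _, h3⟩ := dual_pairing (B.map ρ) (line_Q B hL) hL
    (by
      intro z hz
      obtain ⟨x, hx, rfl⟩ := B.up_lift ρ hz
      refine ⟨0, ?_, ?_⟩
      · rw [zero_smul, neg_zero]
        exact hcon x hx
      · rw [zero_smul]
        exact hcon x hx)
    (by
      intro U hU
      exact hirr U fun D hD w hw => hU (ρ D) ⟨D, hD, rfl⟩ w hw)
    (by
      intro U hU
      exact hirr U fun D hD w hw => hU (ρ D) ⟨D, hD, rfl⟩ w hw)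
  exact ⟨φ, fun D => μ (ρ D), h1, fun D hD u v => h3 (ρ D) ⟨D, hD, rfl⟩ u v⟩

/-- an ideal that contains `c` contains all operators of trace zero if there is no form -/
theorem ideal_full (B : Tri g c f P Q R) (hL : Line P)
    (hirr : ∀ U : Submodule K V, (∀ D ∈ g, ∀ w ∈ U, D w ∈ U) → U = ⊥ ∨ U = ⊤)
    (hnf : ¬ ∃ (φ : V →ₗ[K] V →ₗ[K] K) (μ : Module.End K V → K),
      (∀ x, (∀ y, φ x y = 0) → x = 0) ∧
      ∀ D ∈ g, ∀ u v, φ (D u) v + φ u (D v) = μ D * φ u v)
    {I : Submodule K (Module.End K V)} (hI : ∀ D ∈ g, ∀ x ∈ I, D * x - x * D ∈ I) (hc : c ∈ I)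
    {Z : Module.End K V} (hZ : LinearMap.trace K V Z = 0) : Z ∈ I := by
  obtain ⟨x, hx, hxx⟩ := exists_sq B hL hirr hnf
  have h1 : ∀ D ∈ g, P * D * R ∈ g := by
    intro D hD
    have h := cubic_all B hL hx hxx (B.up_up hD)
    convert h using 1
    simp only [mul_add, mul_assoc, B.PPa, B.PRa, add_zero]
  have h2 : ∀ D ∈ g, R * D * Q ∈ g := by
    intro D hD
    have h := g.sub_mem (B.up_mem hD) (h1 D hD)
    rwa [add_sub_cancel_left] at h
  refine full_ideal B hL (fun Z => ?_) (fun Z => ?_) hI hc hZ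
  · obtain ⟨D, hD, h⟩ := row_full B hL hirr Z
    rw [h]
    exact h1 D hD
  · obtain ⟨D, hD, h⟩ := col_full B (line_Q B hL) hirr Z
    rw [h]
    exact h2 D hD

variable [IsAlgClosed K]

/-- an operator of square zero does not commute with all generators -/
theorem exists_noncomm {G : Set (Module.End K V)}
    (hirr : ∀ U : Submodule K V, (∀ e ∈ G, ∀ w ∈ U, e w ∈ U) → U = ⊥ ∨ U = ⊤)
    {c : Module.End K V} (hcc : c * c = 0) (hc0 : c ≠ 0) : ∃ e ∈ G, e * c ≠ c * e := by
  by_contra hcon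
  push Not at hcon
  rcases hirr (LinearMap.ker c) (fun e he w hw => by
    rw [LinearMap.mem_ker] at hw ⊢
    rw [← Module.End.mul_apply, ← hcon e he, Module.End.mul_apply, hw, map_zero]) with h | h
  · apply hc0
    rw [LinearMap.ker_eq_bot] at h
    ext w
    apply h
    rw [← Module.End.mul_apply, hcc]
    simp
  · exact hc0 (LinearMap.ker_eq_top.1 h)

theorem comp_ne {A : Type*} [Ring A] {e c : A} (hec : e * c ≠ c * e) :
    e * c * (1 - e) ≠ 0 ∨ (1 - e) * c * (1 - (1 - e)) ≠ 0 := by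
  by_contra hcon
  push Not at hcon
  obtain ⟨h, h'⟩ := hcon
  apply hec
  have h1 : e * c = e * c * e := by
    rw [mul_sub, mul_one, sub_eq_zero] at h
    exact h
  have h2 : c * e = e * c * e := by
    rw [sub_sub_cancel, sub_mul, sub_mul, one_mul, sub_eq_zero] at h'
    exact h'
  rw [h1, ← h2]

/-- the irreducible case -/
theorem sl_mem (hlie : ∀ a ∈ g, ∀ b ∈ g, a * b - b * a ∈ g) {G : Set (Module.End K V)}
    (hG : ∀ e ∈ G, e ∈ g) (hGe : ∀ e ∈ G, e * e = e) (hns : ∀ e ∈ G, e ≠ 0 ∧ e ≠ 1)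
    (hirr : ∀ U : Submodule K V, (∀ e ∈ G, ∀ w ∈ U, e w ∈ U) → U = ⊥ ∨ U = ⊤)
    (hnsd : ∀ φ : V →ₗ[K] V →ₗ[K] K, (∀ x, (∀ y, φ x y = 0) → x = 0) →
      ∃ e ∈ G, ∃ u v, φ (e u) v + φ u (e v) ≠ φ u v)
    {N : Module.End K V} (hN : N ∈ g) (hNN : N * N = 0)
    (hrk : Module.finrank K (LinearMap.range N) = 1) {Z : Module.End K V}
    (hZ : LinearMap.trace K V Z = 0) : Z ∈ g := by
  have hN1 := rankLE_of_finrank hrk
  have hN0 : N ≠ 0 := by
    rintro rfl
    rw [LinearMap.range_zero, finrank_bot] at hrk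
    exact zero_ne_one hrk
  have hnt : Nontrivial V := by
    by_contra h
    rw [not_nontrivial_iff_subsingleton] at h
    exact hN0 (LinearMap.ext fun w => Subsingleton.elim _ _)
  have hirr' : ∀ U : Submodule K V, (∀ D ∈ g, ∀ w ∈ U, D w ∈ U) → U = ⊥ ∨ U = ⊤ :=
    fun U hU => hirr U fun e he => hU e (hG e he)
  have htr := trace_nondeg g hlie hirr'
  obtain ⟨e, he, hec⟩ := exists_noncomm hirr hNN hN0
  obtain ⟨E, hEE, hEg, hE⟩ : ∃ E : Module.End K V, E * E = E ∧
      (∀ x ∈ g, E * x - x * E ∈ g) ∧ E * N * (1 - E) ≠ 0 := by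
    rcases comp_ne hec with h | h
    · exact ⟨e, hGe e he, fun x hx => hlie _ (hG e he) _ hx, h⟩
    · refine ⟨1 - e, ?_, ?_, h⟩
      · rw [mul_sub, sub_mul, sub_mul, mul_one, one_mul, hGe e he, mul_one, sub_self, sub_zero]
      · intro x hx
        have := g.neg_mem (hlie _ (hG e he) _ hx)
        convert this using 1
        rw [sub_mul, mul_sub, one_mul, mul_one]
        abel
  have hd1 : RankLE (E * N * (1 - E)) := hN1.mul_mul E (1 - E)
  have hdg : E * N * (1 - E) ∈ g := deg_one_mem hEE hEg hN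
  obtain ⟨f, B⟩ := exists_tri hlie hN (fun x _ => hN1.ext x) hEE hEg rfl (by
    by_contra hcon
    push Not at hcon
    apply hE
    apply htr _ hdg
    intro y hy
    have h1 := hd1.trace y
    rw [hcon y hy] at h1
    rcases smul_eq_zero.1 h1.symm with h2 | h2
    · exact h2
    · exact absurd h2 hE)
  have hL := line_P B hd1 hE
  refine ideal_full B hL hirr' ?_ hlie hdg hZ
  rintro ⟨φ, μ, h1, h2⟩
  obtain ⟨e', he', u, v, huv⟩ := hnsd φ h1
  apply huv
  have h3 := mult_one h1 (hGe e' he') (hGe e' he') (hns e' he').1 (hns e' he').2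
    (h2 e' (hG e' he'))
  rw [h2 e' (hG e' he'), h3, one_mul]

end Irr

end Pool.Agent.TypeIV
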