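import Pool.Agent.TypeIV.Prod
import Pool.Agent.OddRank.MainOT

/-!
# Several components of different types

Every component is a line, a symplectic space on which `g` induces all symplectic operators, or a
space which is not self-dual, on which `g` induces all operators of trace zero.
-/

set_option autoImplicit false
set_option linter.unusedSectionVars false

namespace Pool.Agent.TypeIV.MX

open Pool.Agent.OddRank (deg_one_mem deg_neg_mem trace_nondeg exists_min mm mm_apply mm_mem
  skew_mem)
open Pool.Agent.TypeIV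

variable {K : Type*} [Field K] [CharZero K] [IsAlgClosed K] {ι : Type*} [Finite ι]
  {W : ι → Type*} [∀ i, AddCommGroup (W i)] [∀ i, Module K (W i)]
  [∀ i, FiniteDimensional K (W i)]

/-- the component has an alternating form and all symplectic operators are induced -/
def SpFull (g : Submodule K (∀ i, Module.End K (W i))) (G : Set (∀ i, Module.End K (W i)))
    (i : ι) : Prop :=
  ∃ φ : W i →ₗ[K] W i →ₗ[K] K, (∀ x, φ x x = 0) ∧ (∀ x, (∀ y, φ x y = 0) → x = 0) ∧
    (∀ e ∈ G, ∀ x y, φ (e i x) y + φ x (e i y) = φ x y) ∧ ∀ u v, ∃ x ∈ g, x i = mm φ u v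

/-- the component is not self-dual, no generator is scalar on it, and all operators of trace zero
are induced -/
def SlFull (g : Submodule K (∀ i, Module.End K (W i))) (G : Set (∀ i, Module.End K (W i)))
    (i : ι) : Prop :=
  (∀ e ∈ G, e i ≠ 0 ∧ e i ≠ 1) ∧
  (∀ φ : W i →ₗ[K] W i →ₗ[K] K, (∀ x, (∀ y, φ x y = 0) → x = 0) →
    ∃ e ∈ G, ∃ u v, φ (e i u) v + φ u (e i v) ≠ φ u v) ∧
  ∀ Z : Module.End K (W i), LinearMap.trace K (W i) Z = 0 → ∃ x ∈ g, x i = Z

/-- the structural assumptions for a Lie algebra acting on several spaces -/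
structure Data (g : Submodule K (∀ i, Module.End K (W i)))
    (G : Set (∀ i, Module.End K (W i))) : Prop where
  hnt : ∀ i, Nontrivial (W i)
  hlie : ∀ a ∈ g, ∀ b ∈ g, a * b - b * a ∈ g
  hG : ∀ e ∈ G, e ∈ g
  hGe : ∀ e ∈ G, e * e = e
  hirr : ∀ i, ∀ U : Submodule K (W i), (∀ e ∈ G, ∀ w ∈ U, e i w ∈ U) → U = ⊥ ∨ U = ⊤
  hniso : ∀ i j, i ≠ j → ∀ φ : W i ≃ₗ[K] W j, ∃ e ∈ G, ∃ u, φ (e i u) ≠ e j (φ u)
  hkind : ∀ i, Module.finrank K (W i) = 1 ∨ SpFull g G i ∨ SlFull g G i
  hgen : ∀ i j φ, Pairing G i j φ → ∀ D ∈ g, ∃ μ : K, ∀ u v,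
    φ (D i u) v + φ u (D j v) = μ * φ u v

variable {g : Submodule K (∀ i, Module.End K (W i))} {G : Set (∀ i, Module.End K (W i))}

/-- an alternating form with zero left kernel has zero right kernel -/
theorem alt_right {V : Type*} [AddCommGroup V] [Module K V] {φ : V →ₗ[K] V →ₗ[K] K}
    (halt : ∀ x, φ x x = 0) (hnd : ∀ x, (∀ y, φ x y = 0) → x = 0) :
    (∀ x y, φ x y = -φ y x) ∧ ∀ y, (∀ x, φ x y = 0) → y = 0 := by
  have hs : ∀ x y, φ x y = -φ y x := by
    intro x y
    have := halt (x + y)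
    simp only [map_add, LinearMap.add_apply, halt, zero_add, add_zero] at this
    linear_combination this
  exact ⟨hs, fun y hy => hnd y fun x => by rw [hs, hy, neg_zero]⟩

/-- an operator of square zero on a line is zero -/
theorem eq_zero_of_line {V : Type*} [AddCommGroup V] [Module K V] [FiniteDimensional K V]
    (h : Module.finrank K V = 1) {c : Module.End K V} (hcc : c * c = 0) : c = 0 := by
  obtain ⟨v, hv, hv1⟩ := finrank_eq_one_iff'.1 h
  obtain ⟨t, ht⟩ := hv1 (c v)
  have h1 : c (c v) = 0 := LinearMap.congr_fun hcc v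
  rw [← ht, map_smul, ← ht, smul_smul] at h1
  have h2 : t = 0 := by
    rcases smul_eq_zero.1 h1 with h2 | h2
    · exact mul_self_eq_zero.1 h2
    · exact absurd h2 hv
  ext w
  obtain ⟨s, rfl⟩ := hv1 w
  rw [map_smul, ← ht, h2, zero_smul, smul_zero, LinearMap.zero_apply]

namespace Data

variable (H : Data g G)
include H

theorem proj_lie (i : ι) : ∀ a ∈ g.map (ev K W i).toLinearMap, ∀ b ∈ g.map (ev K W i).toLinearMap,
    a * b - b * a ∈ g.map (ev K W i).toLinearMap := by
  rintro _ ⟨a, ha, rfl⟩ _ ⟨b, hb, rfl⟩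
  exact ⟨_, H.hlie a ha b hb, rfl⟩

theorem proj_irr (i : ι) : ∀ U : Submodule K (W i),
    (∀ D ∈ g.map (ev K W i).toLinearMap, ∀ w ∈ U, D w ∈ U) → U = ⊥ ∨ U = ⊤ :=
  fun U hU => H.hirr i U fun e he => hU _ ⟨e, H.hG e he, rfl⟩

/-- no generator is scalar on a component which is not a line -/
theorem nsc {i : ι} (hi : Module.finrank K (W i) ≠ 1) : ∀ e ∈ G, e i ≠ 0 ∧ e i ≠ 1 := by
  rcases H.hkind i with h | ⟨φ, halt, hnd, hφ, _⟩ | h
  · exact absurd h hi
  · intro e he
    have := H.hnt i
    obtain ⟨w, hw⟩ := exists_ne (0 : W i)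
    obtain ⟨y, hy⟩ : ∃ y, φ w y ≠ 0 := by
      by_contra hcon
      push Not at hcon
      exact hw (hnd w hcon)
    have h1 := hφ e he w y
    refine ⟨fun h => hy ?_, fun h => hy ?_⟩
    · rw [h, LinearMap.zero_apply, LinearMap.zero_apply, map_zero, map_zero,
        LinearMap.zero_apply, add_zero] at h1
      exact h1.symm
    · rw [h, Module.End.one_apply, Module.End.one_apply] at h1
      linear_combination h1
  · exact h.1

theorem tr_nd (i : ι) : ∀ x ∈ g, (∀ y ∈ g, LinearMap.trace K (W i) (x i * y i) = 0) → x i = 0 := by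
  have := H.hnt i
  have h := trace_nondeg (g.map (ev K W i).toLinearMap) (H.proj_lie i) (H.proj_irr i)
  intro x hx hxy
  refine h (x i) ⟨x, hx, rfl⟩ ?_
  rintro _ ⟨y, hy, rfl⟩
  exact hxy y hy

/-- elements of square zero are skew for all pairings -/
theorem skew_of_sq {i j : ι} {φ : W i →ₗ[K] W j →ₗ[K] K} (hφ : Pairing G i j φ)
    {x : ∀ i, Module.End K (W i)} (hx : x ∈ g) (hxx : x * x = 0) (a : W i) (b : W j) :
    φ (x i a) b + φ a (x j b) = 0 := by
  obtain ⟨κ, hκ⟩ := H.hgen i j φ hφ x hx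
  have h0 : ∀ k w, x k (x k w) = 0 := by
    intro k w
    exact LinearMap.congr_fun (congrFun hxx k) w
  by_cases hκ1 : κ = 0
  · rw [hκ, hκ1, zero_mul]
  · exfalso
    have := H.hnt i
    obtain ⟨w, hw⟩ := exists_ne (0 : W i)
    obtain ⟨y, hy⟩ : ∃ y, φ w y ≠ 0 := by
      by_contra hcon
      push Not at hcon
      exact hw (hφ.1 w hcon)
    have e1 : κ * φ (x i w) (x j y) = 0 := by
      rw [← hκ (x i w) (x j y), h0, h0, map_zero, map_zero, LinearMap.zero_apply, add_zero]
    have e2 : κ * φ (x i w) y = φ (x i w) (x j y) := by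
      rw [← hκ (x i w) y, h0, map_zero, LinearMap.zero_apply, zero_add]
    have e3 : κ * φ w (x j y) = φ (x i w) (x j y) := by
      rw [← hκ w (x j y), h0, map_zero, add_zero]
    have e4 : κ * (κ * φ w y) = 2 * φ (x i w) (x j y) := by
      rw [← hκ w y, mul_add, e2, e3, two_mul]
    have e5 : φ (x i w) (x j y) = 0 := by
      rcases mul_eq_zero.1 e1 with h | h
      · exact absurd h hκ1
      · exact h
    rw [e5, mul_zero] at e4
    rcases mul_eq_zero.1 e4 with h | h
    · exact hκ1 h
    · rcases mul_eq_zero.1 h with h | h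
      · exact hκ1 h
      · exact hy h

/-- there are elements of square zero -/
theorem exists_nil {i : ι} (hi : Module.finrank K (W i) ≠ 1) :
    ∃ N ∈ g, N * N = 0 ∧ N i ≠ 0 := by
  have := H.hnt i
  -- there is a generator
  obtain ⟨e, he⟩ : G.Nonempty := by
    by_contra hcon
    rw [Set.not_nonempty_iff_eq_empty] at hcon
    obtain ⟨b, hb⟩ := exists_ne (0 : W i)
    rcases H.hirr i (K ∙ b) (fun e he => by rw [hcon] at he; exact absurd he (Set.notMem_empty e))
      with h | h
    · rw [Submodule.span_singleton_eq_bot] at h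
      exact hb h
    · apply hi
      rw [← finrank_top K (W i), ← h, finrank_span_singleton hb]
  obtain ⟨h0, h1⟩ := H.nsc hi e he
  have hee : e i * e i = e i := congrFun (H.hGe e he) i
  obtain ⟨x, hx, hxe⟩ : ∃ x ∈ g, e i * x i ≠ x i * e i := by
    by_contra hcon
    push Not at hcon
    rcases H.hirr i (LinearMap.ker (e i)) (fun e' he' w hw => by
      rw [LinearMap.mem_ker] at hw ⊢
      rw [← Module.End.mul_apply, hcon e' (H.hG e' he'), Module.End.mul_apply, hw, map_zero])
      with h | h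
    · apply h1
      rw [LinearMap.ker_eq_bot] at h
      ext w
      apply h
      rw [← Module.End.mul_apply, hee, Module.End.one_apply]
    · exact h0 (LinearMap.ker_eq_top.1 h)
  have hsq : ∀ E y : ∀ i, Module.End K (W i), E * E = E → (E * y * (1 - E)) * (E * y * (1 - E)) = 0 := by
    intro E y hE
    have : (1 - E) * E = 0 := by rw [sub_mul, one_mul, hE, sub_self]
    calc (E * y * (1 - E)) * (E * y * (1 - E)) = E * y * ((1 - E) * E) * (y * (1 - E)) := by
          simp only [mul_assoc]
      _ = 0 := by rw [this, mul_zero, zero_mul]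
  rcases comp_ne hxe with h | h
  · exact ⟨e * x * (1 - e), deg_one_mem (H.hGe e he) (fun y hy => H.hlie _ (H.hG e he) _ hy) hx,
      hsq e x (H.hGe e he), h⟩
  · have hEE : (1 - e) * (1 - e) = 1 - e := by
      rw [mul_sub, sub_mul, sub_mul, mul_one, one_mul, H.hGe e he, mul_one, sub_self, sub_zero]
    refine ⟨(1 - e) * x * (1 - (1 - e)), deg_one_mem hEE ?_ hx, hsq _ x hEE, h⟩
    intro y hy
    have := g.neg_mem (H.hlie _ (H.hG e he) _ hy)
    convert this using 1
    rw [sub_mul, mul_sub, one_mul, mul_one]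
    abel

/-- a suitable operator of rank one is induced -/
theorem exists_test {c : ∀ i, Module.End K (W i)} (hc : c ∈ g) (hcc : c * c = 0) {j : ι}
    (hcj : c j ≠ 0) : ∃ (u₀ : W j) (v₀ : Module.Dual K (W j)), v₀ (c j u₀) ≠ 0 ∧
      ∃ x ∈ g, x j = v₀.smulRight u₀ := by
  have hccj : c j * c j = 0 := congrFun hcc j
  rcases H.hkind j with h | ⟨φ, halt, hnd, hφ, hfull⟩ | h
  · exact absurd (eq_zero_of_line h hccj) hcj
  · obtain ⟨hs, hnd'⟩ := alt_right halt hnd
    have hsk := H.skew_of_sq (i := j) (j := j) (φ := φ) ⟨hnd, hnd', hφ⟩ hc hcc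
    have hsymm : ∀ u v, φ u (c j v) = φ v (c j u) := by
      intro u v
      have h1 := hsk u v
      have h2 := hs (c j u) v
      linear_combination h1 - h2
    obtain ⟨u, hu⟩ : ∃ u, φ u (c j u) ≠ 0 := by
      by_contra hcon
      push Not at hcon
      apply hcj
      ext v
      apply hnd'
      intro u
      have h1 := hcon (u + v)
      simp only [map_add, LinearMap.add_apply, hcon, zero_add, add_zero] at h1
      rw [hsymm v u] at h1
      have h2 : (2 : K) * φ u (c j v) = 0 := by linear_combination h1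
      rcases mul_eq_zero.1 h2 with h3 | h3
      · exact absurd h3 two_ne_zero
      · exact h3
    obtain ⟨x, hx, hxj⟩ := hfull u u
    refine ⟨u, (2 : K) • φ u, ?_, x, hx, ?_⟩
    · rw [LinearMap.smul_apply, smul_eq_mul]
      exact mul_ne_zero two_ne_zero hu
    · rw [hxj]
      ext w
      rw [mm_apply, LinearMap.smulRight_apply, LinearMap.smul_apply, smul_eq_mul, ← add_smul,
        two_mul]
  · have hcc' : ∀ w, c j (c j w) = 0 := fun w => LinearMap.congr_fun hccj w
    obtain ⟨u₀, hu₀⟩ : ∃ u, c j u ≠ 0 := by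
      by_contra h
      push Not at h
      exact hcj (LinearMap.ext h)
    have hnmem : c j u₀ ∉ K ∙ u₀ := by
      intro h
      obtain ⟨t, ht⟩ := Submodule.mem_span_singleton.1 h
      have h1 := hcc' u₀
      rw [← ht, map_smul, ← ht, smul_smul] at h1
      rcases smul_eq_zero.1 h1 with h2 | h2
      · have h3 : t = 0 := mul_self_eq_zero.1 h2
        rw [h3, zero_smul] at ht
        exact hu₀ ht.symm
      · rw [h2, map_zero] at hu₀
        exact hu₀ rfl
    obtain ⟨v₀, hv₀, hv₁⟩ : ∃ v₀ : Module.Dual K (W j), v₀ u₀ = 0 ∧ v₀ (c j u₀) ≠ 0 := by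
      by_contra hcon
      push Not at hcon
      apply hnmem
      rw [← Subspace.dualAnnihilator_dualCoannihilator_eq (W := K ∙ u₀),
        Submodule.mem_dualCoannihilator]
      intro φ hφ
      rw [Submodule.mem_dualAnnihilator] at hφ
      exact hcon φ (hφ u₀ (Submodule.mem_span_singleton_self u₀))
    exact ⟨u₀, v₀, hv₁, h.2.2 _ (by rw [LinearMap.trace_smulRight, hv₀])⟩

/-- an extremal element whose components have rank at most one -/
theorem exists_ext {i : ι} (hi : Module.finrank K (W i) ≠ 1) :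
    ∃ c ∈ g, c * c = 0 ∧ c i ≠ 0 ∧ (∀ j, RankLE (c j)) ∧
    ∀ x ∈ g, ∃ t : K, c * x * c = t • c := by
  have := Fintype.ofFinite ι
  obtain ⟨N, hN, hNN, hNi⟩ := H.exists_nil hi
  obtain ⟨c, hc, hcc, hci, hfit⟩ := exists_min H.hlie i hN hNN hNi
  have hrank : ∀ j, RankLE (c j) := by
    intro j
    by_cases hcj : c j = 0
    · refine ⟨0, 0, ?_⟩
      rw [hcj, LinearMap.smulRight_zero]
    have hcc' : ∀ w, c j (c j w) = 0 := fun w => LinearMap.congr_fun (congrFun hcc j) w
    obtain ⟨u₀, v₀, hv₁, x, hx, hxj⟩ := H.exists_test hc hcc hcj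
    have hu₀ : c j u₀ ≠ 0 := by
      intro h
      rw [h, map_zero] at hv₁
      exact hv₁ rfl
    obtain ⟨t, k, htk⟩ := hfit x hx
    have hop : ∀ w, (c j * x j - t • (1 : Module.End K (W j))) w =
        v₀ w • c j u₀ - t • w := by
      intro w
      rw [LinearMap.sub_apply, Module.End.mul_apply, hxj, LinearMap.smulRight_apply, map_smul,
        LinearMap.smul_apply, Module.End.one_apply]
    have hpow : ∀ w (s : K), v₀ w • c j u₀ - t • w = s • w → ∀ n : ℕ,
        ((c j * x j - t • (1 : Module.End K (W j))) ^ n) w = s ^ n • w := by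
      intro w s hw n
      induction n with
      | zero => simp
      | succ n ih =>
        rw [pow_succ, Module.End.mul_apply, hop, hw, map_smul, ih, smul_smul, pow_succ, mul_comm]
    have hzero : ∀ z, ((c j * x j - t • (1 : Module.End K (W j))) ^ k) (c j z) = 0 := by
      intro z
      exact LinearMap.congr_fun (congrFun htk j) z
    have ht : t = v₀ (c j u₀) := by
      have h1 := hpow (c j u₀) (v₀ (c j u₀) - t) (sub_smul _ _ _).symm k
      rw [hzero] at h1
      rcases smul_eq_zero.1 h1.symm with h2 | h2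
      · by_contra h3
        exact pow_ne_zero k (sub_ne_zero.2 (Ne.symm h3)) h2
      · exact absurd h2 hu₀
    have ht0 : t ≠ 0 := by
      rw [ht]
      exact hv₁
    have hker : ∀ z, v₀ (c j z) = 0 → c j z = 0 := by
      intro z hz
      have h1 := hpow (c j z) (-t) (by rw [hz, zero_smul, zero_sub, neg_smul]) k
      rw [hzero] at h1
      rcases smul_eq_zero.1 h1.symm with h2 | h2
      · exact absurd h2 (pow_ne_zero k (neg_ne_zero.2 ht0))
      · exact h2
    refine ⟨t⁻¹ • v₀.comp (c j), c j u₀, ?_⟩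
    ext z
    have h1 := hker (z - (t⁻¹ * v₀ (c j z)) • u₀) (by
      rw [map_sub, map_smul, map_sub, map_smul, ← ht, smul_eq_mul]
      field_simp
      ring)
    rw [map_sub, map_smul, sub_eq_zero] at h1
    rw [h1]
    rfl
  refine ⟨c, hc, hcc, hci, hrank, ?_⟩
  intro x hx
  obtain ⟨t, k, htk⟩ := hfit x hx
  refine ⟨t, ?_⟩
  funext j
  change c j * x j * c j = t • c j
  by_cases hcj : c j = 0
  · rw [hcj, mul_zero, smul_zero]
  · obtain ⟨s, hs⟩ := (hrank j).ext (x j)
    have h2 : ∀ n : ℕ, (c j * x j - t • 1) ^ n * c j = (s - t) ^ n • c j := by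
      intro n
      induction n with
      | zero => simp
      | succ n ih =>
        rw [pow_succ, mul_assoc, sub_mul, hs, smul_mul_assoc, one_mul, ← sub_smul,
          mul_smul_comm, ih, smul_smul, pow_succ, mul_comm]
    have h3 : (c j * x j - t • 1) ^ k * c j = 0 := congrFun htk j
    rw [h2] at h3
    rcases smul_eq_zero.1 h3 with h4 | h4
    · have h5 : s = t := by
        by_contra h6
        exact pow_ne_zero k (sub_ne_zero.2 h6) h4
      rw [hs, h5]
    · exact absurd h4 hcj

/-- an extremal pair whose components have rank at most one -/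
theorem exists_pair {i : ι} (hi : Module.finrank K (W i) ≠ 1) :
    ∃ c f P Q R, Tri g c f P Q R ∧ c i ≠ 0 ∧ ∀ j, RankLE (c j) := by
  obtain ⟨c, hc, hcc, hci, hrank, hext⟩ := H.exists_ext hi
  obtain ⟨_, ⟨e, he, rfl⟩, hec⟩ := exists_noncomm
    (G := (fun e : ∀ i, Module.End K (W i) => e i) '' G)
    (fun U hU => H.hirr i U fun e he => hU _ ⟨e, he, rfl⟩)
    (congrFun hcc i : c i * c i = 0) hci
  obtain ⟨E, hEE, hEg, hE⟩ : ∃ E : ∀ i, Module.End K (W i), E * E = E ∧
      (∀ x ∈ g, E * x - x * E ∈ g) ∧ (E * c * (1 - E)) i ≠ 0 := by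
    rcases comp_ne hec with h | h
    · exact ⟨e, H.hGe e he, fun x hx => H.hlie _ (H.hG e he) _ hx, h⟩
    · refine ⟨1 - e, ?_, ?_, h⟩
      · rw [mul_sub, sub_mul, sub_mul, mul_one, one_mul, H.hGe e he, mul_one, sub_self, sub_zero]
      · intro x hx
        have := g.neg_mem (H.hlie _ (H.hG e he) _ hx)
        convert this using 1
        rw [sub_mul, mul_sub, one_mul, mul_one]
        abel
  obtain ⟨d, hd⟩ : ∃ d, d = E * c * (1 - E) := ⟨_, rfl⟩
  have hdg : d ∈ g := by
    rw [hd]
    exact deg_one_mem hEE hEg hc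
  have hdr : ∀ j, RankLE (d j) := by
    intro j
    rw [hd]
    exact (hrank j).mul_mul (E j) (1 - E j)
  rw [← hd] at hE
  obtain ⟨f, B⟩ := exists_tri H.hlie hc hext hEE hEg hd (by
    by_contra hcon
    push Not at hcon
    apply hE
    apply H.tr_nd i _ hdg
    intro y hy
    have h1 := (hdr i).trace (y i)
    have h0 : d i * y i * d i = 0 := congrFun (hcon y hy) i
    rw [h0] at h1
    rcases smul_eq_zero.1 h1.symm with h2 | h2
    · exact h2
    · exact absurd h2 hE)
  exact ⟨d, f, _, _, _, B, hE, hdr⟩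

/-- two components of the support of an extremal element are dual -/
theorem pair_dual {c f P Q R : ∀ i, Module.End K (W i)} (B : Tri g c f P Q R)
    (hr : ∀ j, RankLE (c j)) {i j : ι} (hij : i ≠ j) (hi : c i ≠ 0) (hj : c j ≠ 0) :
    ∃ φ, Pairing G i j φ := by
  have hni : Module.finrank K (W i) ≠ 1 := fun h => hi (eq_zero_of_line h (congrFun B.cc i))
  have hnj : Module.finrank K (W j) ≠ 1 := fun h => hj (eq_zero_of_line h (congrFun B.cc j))
  have hnsi := H.nsc hni
  have hnsj := H.nsc hnj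
  have Bi := B.map (ev K W i)
  have Bj := B.map (ev K W j)
  have hLi : Line (P i) := line_P Bi (hr i) hi
  have hLj : Line (P j) := line_P Bj (hr j) hj
  -- products of two elements of weight one
  have hmul : ∀ x y, Up g P Q R x → Up g P Q R y →
      ∃ α β : K, x i * y i = α • c i ∧ x j * y j = β • c j := by
    intro x y hx hy
    have h := B.up_mul hx hy
    obtain ⟨α, hα⟩ := line_two Bi hLi (x i * y i)
    obtain ⟨β, hβ⟩ := line_two Bj hLj (x j * y j)
    exact ⟨α, β, (congrFun h i).trans hα, (congrFun h j).trans hβ⟩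
  have huniq : ∀ k, c k ≠ 0 → ∀ α β : K, α • c k = β • c k → α = β := by
    intro k hk α β h
    have h1 : (α - β) • c k = 0 := by rw [sub_smul, h, sub_self]
    rcases smul_eq_zero.1 h1 with h2 | h2
    · exact sub_eq_zero.1 h2
    · exact absurd h2 hk
  -- the squares
  have hsq : ∀ x, Up g P Q R x → ∀ α β : K, x i * x i = α • c i → x j * x j = β • c j →
      α ^ 2 = β ^ 2 := by
    intro x hx α β h1 h2
    obtain ⟨κ, hκ⟩ := B.up_quartic hx
    have e1 : x i * x i * f i * (x i * x i) = κ • c i := congrFun hκ i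
    have e2 : x j * x j * f j * (x j * x j) = κ • c j := congrFun hκ j
    have hc1 : c i * f i * c i = c i := congrFun B.cfc i
    have hc2 : c j * f j * c j = c j := congrFun B.cfc j
    rw [h1, smul_mul_assoc, smul_mul_smul_comm, hc1] at e1
    rw [h2, smul_mul_assoc, smul_mul_smul_comm, hc2] at e2
    rw [pow_two, pow_two, huniq i hi _ _ e1, huniq j hj _ _ e2]
  let ρ : (∀ i, Module.End K (W i)) →ₐ[K] Module.End K (W i) × Module.End K (W j) :=
    (ev K W i).prod (ev K W j)
  have hρ : ∀ x, ρ x = (x i, x j) := fun _ => rfl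
  have Bρ := B.map ρ
  have hirr₁ : ∀ U : Submodule K (W i), (∀ D ∈ g.map ρ.toLinearMap, ∀ w ∈ U, D.1 w ∈ U) →
      U = ⊥ ∨ U = ⊤ := fun U hU => H.hirr i U fun e he => hU (ρ e) ⟨e, H.hG e he, rfl⟩
  have hirr₂ : ∀ U : Submodule K (W j), (∀ D ∈ g.map ρ.toLinearMap, ∀ w ∈ U, D.2 w ∈ U) →
      U = ⊥ ∨ U = ⊤ := fun U hU => H.hirr j U fun e he => hU (ρ e) ⟨e, H.hG e he, rfl⟩
  have hee : ∀ e ∈ G, ∀ k, e k * e k = e k := fun e he k => congrFun (H.hGe e he) k
  by_cases hA : ∀ x, Up g P Q R x → ∃ τ : K, x i * x i = τ • c i ∧ x j * x j = τ • c j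
  · exfalso
    obtain ⟨φ, χ, hφ⟩ := twist_iso Bρ hLi hLj (by
      intro z hz
      obtain ⟨x, hx, rfl⟩ := B.up_lift ρ hz
      obtain ⟨τ, h1, h2⟩ := hA x hx
      exact ⟨τ, Prod.ext h1 h2⟩) hirr₁ hirr₂
    obtain ⟨e, he, u, hu⟩ := H.hniso i j hij φ
    apply hu
    have h1 : ∀ u, φ (e i u) = e j (φ u) + χ (ρ e) • φ u :=
      fun u => hφ (ρ e) ⟨e, H.hG e he, rfl⟩ u
    rw [h1, char_zero φ (hee e he i) (hee e he j) (hnsj e he).1 (hnsj e he).2 h1,
      zero_smul, add_zero]
  · push Not at hA
    obtain ⟨x, hx, hxA⟩ := hA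
    obtain ⟨φ, μ, h1, h2, h3⟩ := dual_pairing Bρ (line_Q Bi hLi) hLj (by
      intro z hz
      obtain ⟨y, hy, rfl⟩ := B.up_lift ρ hz
      obtain ⟨α₀, β₀, hα₀, hβ₀⟩ := hmul x x hx hx
      obtain ⟨α₁, β₁, hα₁, hβ₁⟩ := hmul x y hx hy
      obtain ⟨α₁', β₁', hα₁', hβ₁'⟩ := hmul y x hy hx
      obtain ⟨α₂, β₂, hα₂, hβ₂⟩ := hmul y y hy hy
      have h5 := five (a₀ := α₀) (a₁ := α₁ + α₁') (a₂ := α₂) (b₀ := β₀) (b₁ := β₁ + β₁')
        (b₂ := β₂) (fun s => by
          refine hsq _ (up_add_smul hx hy s) _ _ ?_ ?_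
          · change (x i + s • y i) * (x i + s • y i) = _
            simp only [mul_add, add_mul, mul_smul_comm, smul_mul_assoc, hα₀, hα₁, hα₁', hα₂]
            module
          · change (x j + s • y j) * (x j + s • y j) = _
            simp only [mul_add, add_mul, mul_smul_comm, smul_mul_assoc, hβ₀, hβ₁, hβ₁', hβ₂]
            module)
        (by
          rintro rfl
          exact hxA _ hα₀ hβ₀)
      refine ⟨β₂, ?_, hβ₂⟩
      change y i * y i = -(β₂ • c i)
      rw [hα₂, h5, neg_smul]) hirr₁ hirr₂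
    refine ⟨φ, h1, h2, fun e he u v => ?_⟩
    have h4 : ∀ u v, φ (e i u) v + φ u (e j v) = μ (ρ e) * φ u v :=
      fun u v => h3 (ρ e) ⟨e, H.hG e he, rfl⟩ u v
    rw [h4, mult_one h1 (hee e he i) (hee e he j) (hnsi e he).1 (hnsi e he).2 h4, one_mul]

/-- a symplectic component is only paired with itself -/
theorem pair_self {i j : ι} (hsp : SpFull g G i) {φ : W i →ₗ[K] W j →ₗ[K] K}
    (hφ : Pairing G i j φ) : i = j := by
  obtain ⟨η, halt, hnd, hη, -⟩ := hsp
  obtain ⟨hs, hnd'⟩ := alt_right halt hnd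
  by_contra hij
  obtain ⟨h1, h2, h3⟩ := hφ
  have hinj : Function.Injective φ := by
    rw [injective_iff_map_eq_zero]
    exact fun x hx => h1 x fun y => by rw [hx, LinearMap.zero_apply]
  have hinj' : Function.Injective φ.flip := by
    rw [injective_iff_map_eq_zero]
    exact fun y hy => h2 y fun x => by
      rw [← LinearMap.flip_apply, hy, LinearMap.zero_apply]
  have hinje : Function.Injective η := by
    rw [injective_iff_map_eq_zero]
    exact fun x hx => hnd x fun y => by rw [hx, LinearMap.zero_apply]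
  have hrk : Module.finrank K (W j) = Module.finrank K (Module.Dual K (W i)) := by
    apply le_antisymm
    · exact LinearMap.finrank_le_finrank_of_injective hinj'
    · rw [Subspace.dual_finrank_eq]
      have := LinearMap.finrank_le_finrank_of_injective hinj
      rwa [Subspace.dual_finrank_eq] at this
  let Jj : W j ≃ₗ[K] Module.Dual K (W i) := LinearMap.linearEquivOfInjective φ.flip hinj' hrk
  let Ji : W i ≃ₗ[K] Module.Dual K (W i) :=
    LinearMap.linearEquivOfInjective η hinje Subspace.dual_finrank_eq.symm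
  have hJj : ∀ (z : W j) (x : W i), Jj z x = φ x z := fun z x => rfl
  have hJi : ∀ z x : W i, Ji z x = η z x := fun z x => rfl
  obtain ⟨e, he, u, hu⟩ := H.hniso i j hij (Ji.trans Jj.symm)
  apply hu
  have hT : ∀ z x, φ x ((Ji.trans Jj.symm) z) = η z x := by
    intro z x
    rw [← hJj, LinearEquiv.trans_apply, LinearEquiv.apply_symm_apply, hJi]
  rw [← sub_eq_zero]
  apply h2
  intro x
  rw [map_sub, hT]
  have e1 := h3 e he x ((Ji.trans Jj.symm) u)
  have e2 := hη e he u x
  rw [hT, hT] at e1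
  linear_combination e2 - e1

/-- the span of the commutators -/
theorem comm_le : Submodule.span K {z | ∃ a ∈ g, ∃ b ∈ g, z = a * b - b * a} ≤ g := by
  rw [Submodule.span_le]
  rintro _ ⟨a, ha, b, hb, rfl⟩
  exact H.hlie a ha b hb

/-- every admissible operator is the component of an element which is zero at all components
which are not dual -/
theorem single_mem (i : ι) {Z : Module.End K (W i)} (hZ : LinearMap.trace K (W i) Z = 0)
    (hZφ : ∀ φ, Pairing G i i φ → ∀ u v, φ (Z u) v + φ u (Z v) = 0) :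
    ∃ x ∈ Submodule.span K {z | ∃ a ∈ g, ∃ b ∈ g, z = a * b - b * a}, x i = Z ∧
      ∀ j, x j ≠ 0 → j = i ∨ ∃ φ, Pairing G i j φ := by
  by_cases hi1 : Module.finrank K (W i) = 1
  · -- lines
    obtain ⟨v, hv, hv1⟩ := finrank_eq_one_iff'.1 hi1
    obtain ⟨t, ht⟩ := hv1 (Z v)
    have hZt : Z = t • LinearMap.id := by
      ext w
      obtain ⟨s, rfl⟩ := hv1 w
      rw [map_smul, ← ht, LinearMap.smul_apply, LinearMap.id_apply, smul_comm]
    rw [hZt, map_smul, LinearMap.trace_id, hi1, Nat.cast_one, smul_eq_mul, mul_one] at hZ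
    refine ⟨0, Submodule.zero_mem _, ?_, fun j hj => absurd rfl hj⟩
    rw [hZt, hZ, zero_smul]
    rfl
  obtain ⟨c, f, P, Q, R, B, hi, hr⟩ := H.exists_pair hi1
  have Bi := B.map (ev K W i)
  have hLi : Line (P i) := line_P Bi (hr i) hi
  let X : Submodule K (∀ i, Module.End K (W i)) :=
    { carrier := {x | x ∈ Submodule.span K {z | ∃ a ∈ g, ∃ b ∈ g, z = a * b - b * a} ∧
        ∀ j, ¬ (j = i ∨ ∃ φ, Pairing G i j φ) → x j = 0}
      add_mem' := fun {a b} ha hb => ⟨add_mem ha.1 hb.1, fun j hj => by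
        rw [Pi.add_apply, ha.2 j hj, hb.2 j hj, add_zero]⟩
      zero_mem' := ⟨zero_mem _, fun j _ => rfl⟩
      smul_mem' := fun t a ha => ⟨Submodule.smul_mem _ _ ha.1, fun j hj => by
        rw [Pi.smul_apply, ha.2 j hj, smul_zero]⟩ }
  have hcX : c ∈ X := by
    refine ⟨?_, fun j hj => ?_⟩
    · have h1 : c = (2⁻¹ : K) • ((P - Q) * c - c * (P - Q)) := by
        rw [sub_mul, mul_sub, B.Pc, B.Qc, B.cP, B.cQ, eq_inv_smul_iff₀ (two_ne_zero), two_smul]
        abel
      rw [h1]
      exact Submodule.smul_mem _ _ (Submodule.subset_span ⟨_, B.hmem, _, B.cg, rfl⟩)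
    · by_contra hcj
      apply hj
      by_cases hji : j = i
      · exact Or.inl hji
      · exact Or.inr (H.pair_dual B hr (Ne.symm hji) hi hcj)
  have hXI : ∀ D ∈ g.map (ev K W i).toLinearMap, ∀ x ∈ X.map (ev K W i).toLinearMap,
      D * x - x * D ∈ X.map (ev K W i).toLinearMap := by
    rintro _ ⟨D, hD, rfl⟩ _ ⟨x, hx, rfl⟩
    refine ⟨D * x - x * D, ⟨Submodule.subset_span ⟨D, hD, x, H.comm_le hx.1, rfl⟩, ?_⟩, rfl⟩
    intro j hj
    change D j * x j - x j * D j = 0
    rw [hx.2 j hj, mul_zero, zero_mul, sub_zero]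
  have hXle : ∀ x ∈ X.map (ev K W i).toLinearMap, x ∈ g.map (ev K W i).toLinearMap := by
    rintro _ ⟨x, hx, rfl⟩
    exact ⟨x, H.comm_le hx.1, rfl⟩
  have hZX : Z ∈ X.map (ev K W i).toLinearMap := by
    rcases H.hkind i with h | hsp | hsl
    · exact absurd h hi1
    · -- the symplectic case
      obtain ⟨η, halt, hnd, hη, -⟩ := hsp
      obtain ⟨hs, hnd'⟩ := alt_right halt hnd
      have hP : Pairing G i i η := ⟨hnd, hnd', hη⟩
      -- `c` is a multiple of `mm b b`
      have hcc' : ∀ w, c i (c i w) = 0 := fun w => LinearMap.congr_fun (congrFun B.cc i) w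
      have hsk := H.skew_of_sq hP B.cg B.cc
      obtain ⟨α, a, hαa⟩ := hr i
      obtain ⟨w₀, hw₀⟩ : ∃ w, α w ≠ 0 := by
        by_contra hcon
        push Not at hcon
        apply hi
        rw [hαa]
        ext w
        rw [LinearMap.smulRight_apply, hcon, zero_smul, LinearMap.zero_apply]
      have ha0 : a ≠ 0 := by
        rintro rfl
        apply hi
        rw [hαa, LinearMap.smulRight_zero]
      -- `α w η a v + α v η w a = 0`
      have hsk' : ∀ w v, α w * η a v + α v * η w a = 0 := by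
        intro w v
        have h1 := hsk w v
        rw [hαa, LinearMap.smulRight_apply, LinearMap.smulRight_apply, map_smul, map_smul,
          LinearMap.smul_apply, smul_eq_mul, smul_eq_mul] at h1
        exact h1
      have hη0 : η w₀ a ≠ 0 := by
        intro h
        apply ha0
        apply hnd
        intro v
        have h1 := hsk' w₀ v
        rw [h, mul_zero, add_zero] at h1
        rcases mul_eq_zero.1 h1 with h2 | h2
        · exact absurd h2 hw₀
        · exact h2
      have hmm : mm η a a = (2 * (η a w₀ * (α w₀)⁻¹)) • c i := by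
        ext v
        rw [mm_apply, LinearMap.smul_apply, hαa, LinearMap.smulRight_apply, smul_smul, ← add_smul]
        congr 1
        have h1 := hsk' w₀ v
        have h2 := hs a w₀
        have h3 : α w₀ * η a v = α v * η a w₀ := by rw [h2]; linear_combination h1
        have h4 : η a v = α v * η a w₀ * (α w₀)⁻¹ := by
          rw [← h3]
          field_simp
        rw [h4]
        ring
      refine skew_mem (ψ := η) halt hnd (fun u v => ?_) (hZφ η hP)
      refine mm_mem (ψ := η) (G := (fun e : ∀ i, Module.End K (W i) => e i) '' G) halt hnd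
        ?_ ?_ ?_ ?_ ?_ ha0 ?_ u v
      · intro x hx y hy
        exact hXI x (hXle x hx) y hy
      · rintro _ ⟨e, he, rfl⟩ b hb
        exact hXI _ ⟨e, H.hG e he, rfl⟩ b hb
      · rintro _ ⟨e, he, rfl⟩
        exact congrFun (H.hGe e he) i
      · rintro _ ⟨e, he, rfl⟩
        exact hη e he
      · intro U hU
        exact H.hirr i U fun e he => hU _ ⟨e, he, rfl⟩
      · rw [hmm]
        exact Submodule.smul_mem _ _ ⟨c, hcX, rfl⟩
    · -- not self-dual
      refine ideal_full Bi hLi (H.proj_irr i) ?_ hXI ⟨c, hcX, rfl⟩ hZ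
      rintro ⟨φ, μ, h1, h2⟩
      obtain ⟨e, he, u, v, huv⟩ := hsl.2.1 φ h1
      apply huv
      have hee : e i * e i = e i := congrFun (H.hGe e he) i
      have h4 := h2 (e i) ⟨e, H.hG e he, rfl⟩
      have h3 := mult_one h1 hee hee (hsl.1 e he).1 (hsl.1 e he).2 h4
      rw [h4, h3, one_mul]
  obtain ⟨x, hx, hxZ⟩ := hZX
  refine ⟨x, hx.1, hxZ, fun j hj => ?_⟩
  by_contra h
  exact hj (hx.2 j h)

/-- commutators have trace zero and are skew for all pairings -/
theorem comm_props (x : ∀ i, Module.End K (W i))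
    (hx : x ∈ Submodule.span K {z | ∃ a ∈ g, ∃ b ∈ g, z = a * b - b * a}) :
    (∀ i, LinearMap.trace K (W i) (x i) = 0) ∧
    ∀ i j φ, Pairing G i j φ → ∀ u v, φ (x i u) v + φ u (x j v) = 0 := by
  induction hx using Submodule.span_induction with
  | mem z hz =>
    obtain ⟨a, ha, b, hb, rfl⟩ := hz
    refine ⟨fun i => ?_, fun i j φ hφ u v => ?_⟩
    · change LinearMap.trace K (W i) (a i * b i - b i * a i) = 0
      rw [map_sub, LinearMap.trace_mul_comm, sub_self]
    · obtain ⟨μ, hμ⟩ := H.hgen i j φ hφ a ha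
      obtain ⟨ν, hν⟩ := H.hgen i j φ hφ b hb
      change φ ((a i * b i - b i * a i) u) v + φ u ((a j * b j - b j * a j) v) = 0
      simp only [LinearMap.sub_apply, Module.End.mul_apply, map_sub]
      linear_combination hμ (b i u) v + hμ u (b j v) - hν (a i u) v - hν u (a j v) -
        ν * hμ u v + μ * hν u v
  | zero =>
    refine ⟨fun i => ?_, fun i j φ hφ u v => ?_⟩
    · rw [Pi.zero_apply, map_zero]
    · rw [Pi.zero_apply, Pi.zero_apply, LinearMap.zero_apply, LinearMap.zero_apply, map_zero,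
        map_zero, LinearMap.zero_apply, add_zero]
  | add x y _ _ hx hy =>
    refine ⟨fun i => ?_, fun i j φ hφ u v => ?_⟩
    · rw [Pi.add_apply, map_add, hx.1, hy.1, add_zero]
    · have h1 := hx.2 i j φ hφ u v
      have h2 := hy.2 i j φ hφ u v
      simp only [Pi.add_apply, LinearMap.add_apply, map_add]
      linear_combination h1 + h2
  | smul t x _ hx =>
    refine ⟨fun i => ?_, fun i j φ hφ u v => ?_⟩
    · rw [Pi.smul_apply, map_smul, hx.1, smul_zero]
    · have h1 := hx.2 i j φ hφ u v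
      simp only [Pi.smul_apply, LinearMap.smul_apply, map_smul, smul_eq_mul]
      linear_combination t * h1

/-- the full derived algebra -/
theorem full (D : ∀ i, Module.End K (W i)) :
    D ∈ Submodule.span K {z | ∃ a ∈ g, ∃ b ∈ g, z = a * b - b * a} ↔
      (∀ i, LinearMap.trace K (W i) (D i) = 0) ∧
        ∀ i j φ, Pairing G i j φ → ∀ u v, φ (D i u) v + φ u (D j v) = 0 := by
  classical
  have := Fintype.ofFinite ι
  refine ⟨H.comm_props D, ?_⟩
  obtain ⟨n, hn⟩ : ∃ n, (Finset.univ.filter fun i => D i ≠ 0).card = n := ⟨_, rfl⟩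
  induction n using Nat.strong_induction_on generalizing D with
  | _ n ih =>
    rintro ⟨h1, h2⟩
    by_cases h0 : ∀ i, D i = 0
    · have : D = 0 := funext h0
      rw [this]
      exact Submodule.zero_mem _
    · push Not at h0
      obtain ⟨i, hi⟩ := h0
      obtain ⟨x, hx, hxi, hxj⟩ := H.single_mem i (h1 i) (h2 i i)
      obtain ⟨h3, h4⟩ := H.comm_props x hx
      have h5 : ∀ j, (D - x) j = D j ∨ (D - x) j = 0 := by
        intro j
        by_cases hj : x j = 0
        · left
          rw [Pi.sub_apply, hj, sub_zero]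
        · right
          rcases hxj j hj with h | ⟨φ, hφ⟩
          · rw [h, Pi.sub_apply, hxi, sub_self]
          · ext v
            apply hφ.2.1
            intro u
            have e1 := h2 i j φ hφ u v
            have e2 := h4 i j φ hφ u v
            rw [hxi] at e2
            rw [Pi.sub_apply, LinearMap.sub_apply, map_sub]
            linear_combination e1 - e2
      have h6 : (Finset.univ.filter fun j => (D - x) j ≠ 0).card <
          (Finset.univ.filter fun j => D j ≠ 0).card := by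
        refine Finset.card_lt_card ⟨?_, ?_⟩
        · intro j hj
          rw [Finset.mem_filter] at hj ⊢
          refine ⟨Finset.mem_univ j, ?_⟩
          rcases h5 j with h | h
          · rw [← h]
            exact hj.2
          · exact absurd h hj.2
        · intro h
          have h7 : i ∈ Finset.univ.filter fun j => (D - x) j ≠ 0 :=
            h (Finset.mem_filter.2 ⟨Finset.mem_univ i, hi⟩)
          apply (Finset.mem_filter.1 h7).2
          rw [Pi.sub_apply, hxi, sub_self]
      rw [hn] at h6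
      have h7 := ih _ h6 (D - x) rfl ⟨fun k => by
        rw [Pi.sub_apply, map_sub, h1, h3, sub_self], fun k l φ hφ u v => by
        have e1 := h2 k l φ hφ u v
        have e2 := h4 k l φ hφ u v
        simp only [Pi.sub_apply, LinearMap.sub_apply, map_sub]
        linear_combination e1 - e2⟩
      have h8 := Submodule.add_mem _ h7 hx
      rwa [sub_add_cancel] at h8

end Data

end Pool.Agent.TypeIV.MX
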