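import Pool.Agent.TypeIV.Comm
import Pool.Agent.TypeIV.Mixed

/-!
# The irreducible subspaces
-/

set_option autoImplicit false
set_option linter.unusedSectionVars false

namespace Pool.Agent.TypeIV.MX

open Pool.Agent.OddRank (Stable Irreducible Semisimple Equiv Iso exists_proj exists_family schur
  lieSpan subset_lieSpan lieSpan_lie lieSpan_le stable_span comm_span simil_span stable_of_comm
  comm_of_equiv mm mm_apply irred irred_two)
open Pool.Agent.TypeIV

variable {K V : Type*} [Field K] [CharZero K] [IsAlgClosed K] [AddCommGroup V] [Module K V]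
  [FiniteDimensional K V]

/-- the structural assumptions for a Lie algebra acting irreducibly -/
structure IrrData (g : Submodule K (Module.End K V)) (G : Set (Module.End K V)) : Prop where
  hlie : ∀ a ∈ g, ∀ b ∈ g, a * b - b * a ∈ g
  hG : ∀ e ∈ G, e ∈ g
  hGe : ∀ e ∈ G, e * e = e
  hirr : ∀ U : Submodule K V, (∀ e ∈ G, ∀ w ∈ U, e w ∈ U) → U = ⊥ ∨ U = ⊤
  hgen : ∀ φ : V →ₗ[K] V →ₗ[K] K, (∀ e ∈ G, ∀ u v, φ (e u) v + φ u (e v) = φ u v) →
    ∀ D ∈ g, ∃ μ : K, ∀ u v, φ (D u) v + φ u (D v) = μ * φ u v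

/-- A skew endomorphism with respect to a symmetric form has even rank. -/
theorem even_of_symm {φ : V →ₗ[K] V →ₗ[K] K} (hnd : ∀ x, (∀ y, φ x y = 0) → x = 0)
    (hsymm : ∀ x y, φ x y = φ y x) {N : Module.End K V}
    (hN : ∀ x y, φ (N x) y + φ x (N y) = 0) : Even (Module.finrank K (LinearMap.range N)) := by
  classical
  obtain ⟨C, hC⟩ := Submodule.exists_isCompl (LinearMap.ker N)
  have hfin : Module.finrank K C = Module.finrank K (LinearMap.range N) := by
    have h1 := LinearMap.finrank_range_add_finrank_ker N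
    have h2 := Submodule.finrank_add_eq_of_isCompl hC
    omega
  rw [← hfin]
  by_contra hodd
  rw [Nat.not_even_iff_odd] at hodd
  set b := Module.finBasis K C with hb
  set M : Matrix (Fin (Module.finrank K C)) (Fin (Module.finrank K C)) K :=
    Matrix.of fun i j => φ (N (b i : V)) (b j : V) with hM
  have hMa : ∀ i j, M i j = φ (N (b i : V)) (b j : V) := fun i j => rfl
  have hskew : M.transpose = -M := by
    ext i j
    rw [Matrix.transpose_apply, Matrix.neg_apply, hMa, hMa]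
    have h1 := hN (b j : V) (b i : V)
    have h2 := hsymm (b j : V) (N (b i : V))
    linear_combination h1 - h2
  have hdet : M.det = 0 := by
    have h1 := Matrix.det_transpose M
    rw [hskew, Matrix.det_neg, Fintype.card_fin, hodd.neg_one_pow] at h1
    linear_combination (-(1 / 2) : K) * h1
  obtain ⟨v, hv0, hv⟩ := Matrix.exists_vecMul_eq_zero_iff.2 hdet
  set x : C := ∑ i, v i • b i with hx
  have hx0 : x ≠ 0 := by
    intro h
    apply hv0
    funext i
    have h2 := Fintype.linearIndependent_iff.1 b.linearIndependent v (by rw [← hx, h]) i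
    rw [h2, Pi.zero_apply]
  have hxC : ∀ c : C, φ (N (x : V)) (c : V) = 0 := by
    intro c
    have h1 : ∀ j, φ (N (x : V)) (b j : V) = 0 := by
      intro j
      have h2 := congrFun hv j
      rw [Matrix.vecMul, Pi.zero_apply] at h2
      rw [← h2, dotProduct, hx]
      simp only [Submodule.coe_sum, Submodule.coe_smul, map_sum, map_smul,
        LinearMap.sum_apply, LinearMap.smul_apply, smul_eq_mul, hMa]
    have h3 : (φ (N (x : V))) ∘ₗ C.subtype = 0 := by
      apply b.ext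
      intro j
      exact h1 j
    exact LinearMap.congr_fun h3 c
  have hNx : N (x : V) = 0 := by
    apply hnd
    intro y
    have h1 : y ∈ LinearMap.ker N ⊔ C := by rw [hC.sup_eq_top]; exact Submodule.mem_top
    obtain ⟨k, hk, c, hc, hkc⟩ := Submodule.mem_sup.1 h1
    rw [← hkc, map_add, hxC ⟨c, hc⟩, add_zero]
    have h3 := hN (x : V) k
    rw [LinearMap.mem_ker] at hk
    rw [hk, map_zero, add_zero] at h3
    exact h3
  have h4 : (x : V) ∈ LinearMap.ker N ⊓ C := ⟨LinearMap.mem_ker.2 hNx, x.2⟩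
  rw [hC.inf_eq_bot, Submodule.mem_bot] at h4
  exact hx0 (Subtype.ext h4)

namespace IrrData

variable {g : Submodule K (Module.End K V)} {G : Set (Module.End K V)} (H : IrrData g G)
include H

/-- elements of square zero are skew -/
theorem skew_of_sq {φ : V →ₗ[K] V →ₗ[K] K}
    (hφ : ∀ e ∈ G, ∀ u v, φ (e u) v + φ u (e v) = φ u v) {x : Module.End K V} (hx : x ∈ g)
    (hxx : x * x = 0) (a b : V) : φ (x a) b + φ a (x b) = 0 := by
  obtain ⟨κ, hκ⟩ := H.hgen φ hφ x hx
  have h0 : ∀ w, x (x w) = 0 := fun w => LinearMap.congr_fun hxx w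
  by_cases hκ1 : κ = 0
  · rw [hκ, hκ1, zero_mul]
  have h1 : ∀ w y, φ w y = 0 := by
    intro w y
    have e1 : κ * φ (x w) (x y) = 0 := by
      rw [← hκ (x w) (x y), h0, h0, map_zero, map_zero, LinearMap.zero_apply, add_zero]
    have e2 : κ * φ (x w) y = φ (x w) (x y) := by
      rw [← hκ (x w) y, h0, map_zero, LinearMap.zero_apply, zero_add]
    have e3 : κ * φ w (x y) = φ (x w) (x y) := by
      rw [← hκ w (x y), h0, map_zero, add_zero]
    have e4 : κ * (κ * φ w y) = 2 * φ (x w) (x y) := by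
      rw [← hκ w y, mul_add, e2, e3, two_mul]
    have e5 : φ (x w) (x y) = 0 := by
      rcases mul_eq_zero.1 e1 with h | h
      · exact absurd h hκ1
      · exact h
    rw [e5, mul_zero] at e4
    rcases mul_eq_zero.1 e4 with h | h
    · exact absurd h hκ1
    · rcases mul_eq_zero.1 h with h | h
      · exact absurd h hκ1
      · exact h
  rw [h1, h1, add_zero]

/-- a form of multiplier one is alternating if there is an element of odd rank -/
theorem alt_of_odd {φ : V →ₗ[K] V →ₗ[K] K} (hnd : ∀ x, (∀ y, φ x y = 0) → x = 0)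
    (hφ : ∀ e ∈ G, ∀ u v, φ (e u) v + φ u (e v) = φ u v) {N : Module.End K V} (hN : N ∈ g)
    (hNN : N * N = 0) (hodd : Odd (Module.finrank K (LinearMap.range N))) (x : V) :
    φ x x = 0 := by
  have hnt : Nontrivial V := by
    by_contra h
    rw [not_nontrivial_iff_subsingleton] at h
    have : Module.finrank K (LinearMap.range N) = 0 := Module.finrank_zero_of_subsingleton
    rw [this] at hodd
    exact absurd hodd (by decide)
  have hinj : Function.Injective φ := by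
    rw [injective_iff_map_eq_zero]
    exact fun x hx => hnd x fun y => by rw [hx, LinearMap.zero_apply]
  let J : V ≃ₗ[K] Module.Dual K V :=
    LinearMap.linearEquivOfInjective φ hinj Subspace.dual_finrank_eq.symm
  have hJ : ∀ v, J v = φ v := fun v => rfl
  let A : Module.End K V := J.symm.toLinearMap ∘ₗ φ.flip
  have hA : ∀ x y, φ (A x) y = φ y x := by
    intro x y
    rw [← hJ]
    change J (J.symm (φ.flip x)) y = _
    rw [LinearEquiv.apply_symm_apply, LinearMap.flip_apply]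
  obtain ⟨c, hc⟩ := Module.End.exists_eigenvalue A
  obtain ⟨v, hv⟩ := hc.exists_hasEigenvector
  have hst : ∀ e ∈ G, ∀ w ∈ LinearMap.ker (A - c • LinearMap.id), e w ∈
      LinearMap.ker (A - c • LinearMap.id) := by
    intro e he w hw
    rw [LinearMap.mem_ker, LinearMap.sub_apply, LinearMap.smul_apply, LinearMap.id_apply,
      sub_eq_zero] at hw ⊢
    rw [← sub_eq_zero]
    apply hnd
    intro y
    rw [map_sub, LinearMap.sub_apply, hA, map_smul, LinearMap.smul_apply, smul_eq_mul]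
    have e1 := hφ e he y w
    have e2 := hφ e he w y
    have e3 : φ y w = c * φ w y := by
      rw [← hA, hw, map_smul, LinearMap.smul_apply, smul_eq_mul]
    have e4 : φ (e y) w = c * φ w (e y) := by
      rw [← hA, hw, map_smul, LinearMap.smul_apply, smul_eq_mul]
    linear_combination e1 - e4 + e3 - c * e2
  have hAc : ∀ x y, φ y x = c * φ x y := by
    intro x y
    rcases H.hirr _ hst with h | h
    · exfalso
      apply hv.2
      have h1 : v ∈ LinearMap.ker (A - c • LinearMap.id) := by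
        rw [LinearMap.mem_ker, LinearMap.sub_apply, LinearMap.smul_apply, LinearMap.id_apply,
          sub_eq_zero]
        exact hv.apply_eq_smul
      rwa [h, Submodule.mem_bot] at h1
    · have h1 : x ∈ LinearMap.ker (A - c • LinearMap.id) := h ▸ Submodule.mem_top
      rw [LinearMap.mem_ker, LinearMap.sub_apply, LinearMap.smul_apply, LinearMap.id_apply,
        sub_eq_zero] at h1
      rw [← hA, h1, map_smul, LinearMap.smul_apply, smul_eq_mul]
  obtain ⟨w, hw⟩ := exists_ne (0 : V)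
  obtain ⟨z, hwz⟩ : ∃ z, φ w z ≠ 0 := by
    by_contra hcon
    push Not at hcon
    exact hw (hnd w hcon)
  have hc1 : c = 1 ∨ c = -1 := by
    have h1 := hAc w z
    have h2 := hAc z w
    have h3 : (c - 1) * ((c + 1) * φ w z) = 0 := by linear_combination -h2 - c * h1
    rcases mul_eq_zero.1 h3 with h | h
    · left
      linear_combination h
    · rcases mul_eq_zero.1 h with h | h
      · right
        linear_combination h
      · exact absurd h hwz
  rcases hc1 with rfl | rfl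
  · exfalso
    have heven := even_of_symm hnd (fun x y => by rw [hAc y x, one_mul])
      (H.skew_of_sq hφ hN hNN)
    exact (Nat.not_even_iff_odd.2 hodd) heven
  · have h1 := hAc x x
    linear_combination (1 / 2 : K) * h1

theorem mm_of_odd {φ : V →ₗ[K] V →ₗ[K] K} (hnd : ∀ x, (∀ y, φ x y = 0) → x = 0)
    (hφ : ∀ e ∈ G, ∀ u v, φ (e u) v + φ u (e v) = φ u v) {N : Module.End K V} (hN : N ∈ g)
    (hNN : N * N = 0) (hodd : Odd (Module.finrank K (LinearMap.range N))) (u v : V) :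
    mm φ u v ∈ g :=
  irred (H.alt_of_odd hnd hφ hN hNN hodd) hnd H.hlie (H.hgen φ hφ) H.hG H.hGe hφ H.hirr hN hNN
    hodd u v

theorem mm_of_two {φ : V →ₗ[K] V →ₗ[K] K} (halt : ∀ x, φ x x = 0)
    (hnd : ∀ x, (∀ y, φ x y = 0) → x = 0)
    (hφ : ∀ e ∈ G, ∀ u v, φ (e u) v + φ u (e v) = φ u v) {N : Module.End K V} (hN : N ∈ g)
    (hNN : N * N = 0) (htwo : Module.finrank K (LinearMap.range N) = 2) (u v : V) :
    mm φ u v ∈ g :=
  irred_two halt hnd H.hlie (H.hgen φ hφ) H.hG H.hGe hφ H.hirr hN hNN htwo u v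

theorem sl_of_one (hns : ∀ e ∈ G, e ≠ 0 ∧ e ≠ 1)
    (hnsd : ∀ φ : V →ₗ[K] V →ₗ[K] K, (∀ x, (∀ y, φ x y = 0) → x = 0) →
      ∃ e ∈ G, ∃ u v, φ (e u) v + φ u (e v) ≠ φ u v) {N : Module.End K V} (hN : N ∈ g)
    (hNN : N * N = 0) (hone : Module.finrank K (LinearMap.range N) = 1) {Z : Module.End K V}
    (hZ : LinearMap.trace K V Z = 0) : Z ∈ g :=
  sl_mem H.hlie H.hG H.hGe hns H.hirr hnsd hN hNN hone hZ

end IrrData

/-- the restriction of operators to `W` -/
def rst {W : Submodule K V} (p : V →ₗ[K] W) : Module.End K V →ₗ[K] Module.End K W where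
  toFun x := p ∘ₗ x ∘ₗ W.subtype
  map_add' x y := by
    ext w
    simp
  map_smul' c x := by
    ext w
    simp

theorem rst_apply {W : Submodule K V} {p : V →ₗ[K] W} (hp : ∀ w : W, p w = w)
    {x : Module.End K V} (hx : ∀ w ∈ W, x w ∈ W) (w : W) : (rst p x w : V) = x w := by
  change (p (x w) : V) = x w
  rw [hp ⟨x w, hx w w.2⟩]

theorem rst_mul {W : Submodule K V} {p : V →ₗ[K] W} (hp : ∀ w : W, p w = w)
    {x y : Module.End K V} (hx : ∀ w ∈ W, x w ∈ W) (hy : ∀ w ∈ W, y w ∈ W) :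
    rst p (x * y) = rst p x * rst p y := by
  ext w
  have hxy : ∀ w ∈ W, (x * y) w ∈ W := fun w hw => hx (y w) (hy w hw)
  rw [rst_apply hp hxy w]
  change x (y w) = (rst p x (rst p y w) : V)
  rw [rst_apply hp hx, rst_apply hp hy]

/-- the restriction to an irreducible subspace -/
theorem irrData {G : Set (Module.End K V)} (hGe : ∀ e ∈ G, e * e = e)
    {W : Submodule K V} (hW : Irreducible G W) {p : V →ₗ[K] W}
    (hp : ∀ w : W, p w = w) : IrrData ((lieSpan G).map (rst p)) (rst p '' G) := by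
  have hGst : ∀ e ∈ G, ∀ w ∈ W, e w ∈ W := fun e he => hW.1 e he
  have hgst : ∀ x ∈ lieSpan G, ∀ w ∈ W, x w ∈ W := fun x hx => stable_span hW.1 x hx
  refine ⟨?_, ?_, ?_, ?_, ?_⟩
  · rintro _ ⟨x, hx, rfl⟩ _ ⟨y, hy, rfl⟩
    refine ⟨x * y - y * x, lieSpan_lie x hx y hy, ?_⟩
    rw [map_sub, rst_mul hp (hgst x hx) (hgst y hy), rst_mul hp (hgst y hy) (hgst x hx)]
  · rintro _ ⟨e, he, rfl⟩
    exact ⟨e, subset_lieSpan e he, rfl⟩
  · rintro _ ⟨e, he, rfl⟩
    rw [← rst_mul hp (hGst e he) (hGst e he), hGe e he]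
  · intro U hU
    have h1 : Stable G (U.map W.subtype) := by
      rintro e he _ ⟨w, hw, rfl⟩
      refine ⟨rst p e w, hU _ ⟨e, he, rfl⟩ w hw, ?_⟩
      exact rst_apply hp (hGst e he) w
    rcases hW.2.2 _ h1 (Submodule.map_subtype_le _ _) with h | h
    · left
      rw [eq_bot_iff]
      intro u hu
      have h2 : (u : V) ∈ U.map W.subtype := ⟨u, hu, rfl⟩
      rw [h, Submodule.mem_bot] at h2
      exact (Submodule.mem_bot K).2 (Subtype.ext h2)
    · right
      rw [eq_top_iff]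
      intro u _
      have h2 : (u : V) ∈ U.map W.subtype := by rw [h]; exact u.2
      obtain ⟨u', hu', h3⟩ := h2
      have h4 : u' = u := Subtype.ext h3
      rwa [h4] at hu'
  · rintro φ hφ _ ⟨x, hx, rfl⟩
    let g' : Submodule K (Module.End K V) :=
      { carrier := {x | (∀ w ∈ W, x w ∈ W) ∧ ∃ κ : K, ∀ u v,
          φ (rst p x u) v + φ u (rst p x v) = κ * φ u v}
        add_mem' := by
          rintro x y ⟨hx, κ, hκ⟩ ⟨hy, κ', hκ'⟩
          refine ⟨fun w hw => W.add_mem (hx w hw) (hy w hw), κ + κ', fun u v => ?_⟩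
          simp only [map_add, LinearMap.add_apply]
          linear_combination hκ u v + hκ' u v
        zero_mem' := ⟨fun w _ => W.zero_mem, 0, fun u v => by simp⟩
        smul_mem' := by
          rintro c x ⟨hx, κ, hκ⟩
          refine ⟨fun w hw => W.smul_mem c (hx w hw), c * κ, fun u v => ?_⟩
          simp only [map_smul, LinearMap.smul_apply, smul_eq_mul]
          linear_combination c * hκ u v }
    refine ((lieSpan_le (g := g') ?_ ?_) hx).2
    · intro e he
      exact ⟨hGst e he, 1, fun u v => by rw [hφ _ ⟨e, he, rfl⟩ u v, one_mul]⟩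
    · rintro x ⟨hx, κ, hκ⟩ y ⟨hy, κ', hκ'⟩
      refine ⟨fun w hw => W.sub_mem (hx _ (hy w hw)) (hy _ (hx w hw)), 0, fun u v => ?_⟩
      rw [map_sub, rst_mul hp hx hy, rst_mul hp hy hx]
      simp only [LinearMap.sub_apply, Module.End.mul_apply, map_sub]
      linear_combination hκ (rst p y u) v + hκ u (rst p y v) - hκ' (rst p x u) v -
        hκ' u (rst p x v) - κ' * hκ u v + κ * hκ' u v

/-- `W` has an alternating form of multiplier one and all symplectic operators are induced by the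
Lie algebra -/
def KSp (G : Set (Module.End K V)) (W : Submodule K V) : Prop :=
  ∃ φ : W →ₗ[K] W →ₗ[K] K, (∀ x, φ x x = 0) ∧ (∀ x, (∀ y, φ x y = 0) → x = 0) ∧
    (∀ e ∈ G, ∀ u u₂ v v₂ : W, (u₂ : V) = e u → (v₂ : V) = e v → φ u₂ v + φ u v₂ = φ u v) ∧
    ∀ u v, ∃ x ∈ lieSpan G, ∀ w : W, (mm φ u v w : V) = x w

/-- `W` is not self-dual, no generator is scalar on `W`, and all operators of trace zero are
induced by the Lie algebra -/
def KSl (G : Set (Module.End K V)) (W : Submodule K V) : Prop :=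
  (∀ e ∈ G, (∃ w ∈ W, e w ≠ 0) ∧ ∃ w ∈ W, e w ≠ w) ∧ ¬ SelfDual G W ∧
    ∀ Z : Module.End K W, LinearMap.trace K W Z = 0 → ∃ x ∈ lieSpan G, ∀ w : W, (Z w : V) = x w

theorem finrank_range_rst {W : Submodule K V} {p : V →ₗ[K] W} (hp : ∀ w : W, p w = w)
    {N : Module.End K V} (hN : ∀ w ∈ W, N w ∈ W) :
    Module.finrank K (LinearMap.range (rst p N)) = Module.finrank K (W.map N) := by
  have h1 : (LinearMap.range (rst p N)).map W.subtype = W.map N := by
    ext v
    constructor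
    · rintro ⟨_, ⟨w, rfl⟩, rfl⟩
      exact ⟨w, w.2, (rst_apply hp hN w).symm⟩
    · rintro ⟨w, hw, rfl⟩
      exact ⟨rst p N ⟨w, hw⟩, ⟨_, rfl⟩, rst_apply hp hN ⟨w, hw⟩⟩
  have h2 : Module.finrank K ((LinearMap.range (rst p N)).map W.subtype) =
      Module.finrank K (LinearMap.range (rst p N)) :=
    Submodule.finrank_map_subtype_eq _ _
  rw [← h2, h1]

section Kinds

variable {G : Set (Module.End K V)} (hGe : ∀ e ∈ G, e * e = e) (hss : Semisimple G)
  {W : Submodule K V} (hW : Irreducible G W)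
include hGe hss hW

theorem ksp_of_mm {φ : W →ₗ[K] W →ₗ[K] K} (halt : ∀ x, φ x x = 0)
    (hnd : ∀ x, (∀ y, φ x y = 0) → x = 0)
    (hφ : ∀ e ∈ G, ∀ u u₂ v v₂ : W, (u₂ : V) = e u → (v₂ : V) = e v → φ u₂ v + φ u v₂ = φ u v)
    {p : V →ₗ[K] W} (hp : ∀ w : W, p w = w)
    (hm : ∀ u v, mm φ u v ∈ (lieSpan G).map (rst p)) : KSp G W := by
  refine ⟨φ, halt, hnd, hφ, fun u v => ?_⟩
  obtain ⟨x, hx, hxm⟩ := hm u v
  refine ⟨x, hx, fun w => ?_⟩
  rw [← hxm, rst_apply hp fun w hw => stable_span hW.1 x hx w hw]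

/-- odd rank, self-dual -/
theorem ksp_of_odd (hsd : SelfDual G W) {N : Module.End K V} (hN : N ∈ lieSpan G)
    (hNN : N * N = 0) (hodd : Odd (Module.finrank K (W.map N))) : KSp G W := by
  obtain ⟨p, hp, hpe⟩ := exists_proj hss hW.1
  have H := irrData hGe hW hp
  obtain ⟨φ, hnd, hφ⟩ := hsd
  have hgst : ∀ x ∈ lieSpan G, ∀ w ∈ W, x w ∈ W := fun x hx => stable_span hW.1 x hx
  have hGst : ∀ e ∈ G, ∀ w ∈ W, e w ∈ W := fun e he => hW.1 e he
  have hnd' : ∀ x : W, (∀ y : W, (φ.compl₁₂ W.subtype W.subtype) x y = 0) → x = 0 :=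
    fun x hx => Subtype.ext (hnd x x.2 fun y hy => hx ⟨y, hy⟩)
  have hφ' : ∀ e ∈ rst p '' G, ∀ u v, (φ.compl₁₂ W.subtype W.subtype) (e u) v +
      (φ.compl₁₂ W.subtype W.subtype) u (e v) = (φ.compl₁₂ W.subtype W.subtype) u v := by
    rintro _ ⟨e, he, rfl⟩ u v
    have h1 := hφ e he u u.2 v v.2
    rw [← rst_apply hp (hGst e he), ← rst_apply hp (hGst e he)] at h1
    exact h1
  have hNN' : rst p N * rst p N = 0 := by
    rw [← rst_mul hp (hgst N hN) (hgst N hN), hNN, map_zero]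
  have hodd' : Odd (Module.finrank K (LinearMap.range (rst p N))) := by
    rw [finrank_range_rst hp (hgst N hN)]
    exact hodd
  refine ksp_of_mm hGe hss hW (H.alt_of_odd hnd' hφ' ⟨N, hN, rfl⟩ hNN' hodd') hnd' ?_ hp
    (H.mm_of_odd hnd' hφ' ⟨N, hN, rfl⟩ hNN' hodd')
  intro e he u u₂ v v₂ hu hv
  have h1 := hφ e he u u.2 v v.2
  rw [← hu, ← hv] at h1
  exact h1

/-- rank two, symplectic -/
theorem ksp_of_two {φ : V →ₗ[K] V →ₗ[K] K} (halt : ∀ x ∈ W, φ x x = 0)
    (hnd : ∀ x ∈ W, (∀ y ∈ W, φ x y = 0) → x = 0)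
    (hφ : ∀ e ∈ G, ∀ x ∈ W, ∀ y ∈ W, φ (e x) y + φ x (e y) = φ x y)
    {N : Module.End K V} (hN : N ∈ lieSpan G)
    (hNN : N * N = 0) (htwo : Module.finrank K (W.map N) = 2) : KSp G W := by
  obtain ⟨p, hp, hpe⟩ := exists_proj hss hW.1
  have H := irrData hGe hW hp
  have hgst : ∀ x ∈ lieSpan G, ∀ w ∈ W, x w ∈ W := fun x hx => stable_span hW.1 x hx
  have hGst : ∀ e ∈ G, ∀ w ∈ W, e w ∈ W := fun e he => hW.1 e he
  have hnd' : ∀ x : W, (∀ y : W, (φ.compl₁₂ W.subtype W.subtype) x y = 0) → x = 0 :=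
    fun x hx => Subtype.ext (hnd x x.2 fun y hy => hx ⟨y, hy⟩)
  have hφ' : ∀ e ∈ rst p '' G, ∀ u v, (φ.compl₁₂ W.subtype W.subtype) (e u) v +
      (φ.compl₁₂ W.subtype W.subtype) u (e v) = (φ.compl₁₂ W.subtype W.subtype) u v := by
    rintro _ ⟨e, he, rfl⟩ u v
    have h1 := hφ e he u u.2 v v.2
    rw [← rst_apply hp (hGst e he), ← rst_apply hp (hGst e he)] at h1
    exact h1
  have hNN' : rst p N * rst p N = 0 := by
    rw [← rst_mul hp (hgst N hN) (hgst N hN), hNN, map_zero]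
  have htwo' : Module.finrank K (LinearMap.range (rst p N)) = 2 := by
    rw [finrank_range_rst hp (hgst N hN)]
    exact htwo
  have halt' : ∀ x : W, (φ.compl₁₂ W.subtype W.subtype) x x = 0 := fun x => halt x x.2
  refine ksp_of_mm hGe hss hW halt' hnd' ?_ hp
    (H.mm_of_two halt' hnd' hφ' ⟨N, hN, rfl⟩ hNN' htwo')
  intro e he u u₂ v v₂ hu hv
  have h1 := hφ e he u u.2 v v.2
  rw [← hu, ← hv] at h1
  exact h1

/-- properties of the restricted generators -/
theorem restr_ns (hns : ∀ e ∈ G, (∃ w ∈ W, e w ≠ 0) ∧ ∃ w ∈ W, e w ≠ w) {p : V →ₗ[K] W}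
    (hp : ∀ w : W, p w = w) : ∀ e ∈ rst p '' G, e ≠ 0 ∧ e ≠ 1 := by
  have hGst : ∀ e ∈ G, ∀ w ∈ W, e w ∈ W := fun e he => hW.1 e he
  rintro _ ⟨e, he, rfl⟩
  obtain ⟨⟨w, hw, hw0⟩, ⟨w', hw', hw1⟩⟩ := hns e he
  refine ⟨fun h => hw0 ?_, fun h => hw1 ?_⟩
  · rw [← rst_apply hp (hGst e he) ⟨w, hw⟩, h]
    rfl
  · have h1 := rst_apply hp (hGst e he) ⟨w', hw'⟩
    rw [h] at h1
    exact h1.symm

theorem restr_nsd (hnsd : ¬ SelfDual G W) {p : V →ₗ[K] W}
    (hp : ∀ w : W, p w = w) : ∀ φ : W →ₗ[K] W →ₗ[K] K, (∀ x, (∀ y, φ x y = 0) → x = 0) →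
      ∃ e ∈ rst p '' G, ∃ u v, φ (e u) v + φ u (e v) ≠ φ u v := by
  have hGst : ∀ e ∈ G, ∀ w ∈ W, e w ∈ W := fun e he => hW.1 e he
  intro φ hφ
  by_contra hcon
  push Not at hcon
  apply hnsd
  refine ⟨φ.compl₁₂ p p, ?_, ?_⟩
  · intro x hx hxy
    have h1 : (⟨x, hx⟩ : W) = 0 := by
      apply hφ
      intro y
      have h2 := hxy y y.2
      have e1 : p x = ⟨x, hx⟩ := hp ⟨x, hx⟩
      rw [LinearMap.compl₁₂_apply, hp y, e1] at h2
      exact h2
    exact congrArg Subtype.val h1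
  · intro e he x hx y hy
    have h1 := hcon _ ⟨e, he, rfl⟩ ⟨x, hx⟩ ⟨y, hy⟩
    have e1 : p x = ⟨x, hx⟩ := hp ⟨x, hx⟩
    have e2 : p y = ⟨y, hy⟩ := hp ⟨y, hy⟩
    rw [LinearMap.compl₁₂_apply, LinearMap.compl₁₂_apply, LinearMap.compl₁₂_apply, e1, e2]
    exact h1

/-- rank one, not self-dual -/
theorem ksl_of_one (hns : ∀ e ∈ G, (∃ w ∈ W, e w ≠ 0) ∧ ∃ w ∈ W, e w ≠ w)
    (hnsd : ¬ SelfDual G W) {N : Module.End K V} (hN : N ∈ lieSpan G)
    (hNN : N * N = 0) (hone : Module.finrank K (W.map N) = 1) : KSl G W := by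
  obtain ⟨p, hp, hpe⟩ := exists_proj hss hW.1
  have H := irrData hGe hW hp
  have hgst : ∀ x ∈ lieSpan G, ∀ w ∈ W, x w ∈ W := fun x hx => stable_span hW.1 x hx
  refine ⟨hns, hnsd, fun Z hZ => ?_⟩
  have hNN' : rst p N * rst p N = 0 := by
    rw [← rst_mul hp (hgst N hN) (hgst N hN), hNN, map_zero]
  have hone' : Module.finrank K (LinearMap.range (rst p N)) = 1 := by
    rw [finrank_range_rst hp (hgst N hN)]
    exact hone
  obtain ⟨x, hx, hxZ⟩ := H.sl_of_one (restr_ns hGe hss hW hns hp) (restr_nsd hGe hss hW hnsd hp)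
    ⟨N, hN, rfl⟩ hNN' hone' hZ
  refine ⟨x, hx, fun w => ?_⟩
  rw [← hxZ, rst_apply hp (hgst x hx)]

end Kinds

end Pool.Agent.TypeIV.MX
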