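import Pool.Agent.TypeIV.Kinds
import Pool.Agent.PrimePow.Coprime

/-!
# Irreducible subspaces with a generator of rank prime to the dimension
-/

set_option autoImplicit false
set_option linter.unusedSectionVars false

namespace Pool.Agent.TypeIV.MX

open Pool.Agent.OddRank (Stable Irreducible Semisimple Equiv Iso exists_proj exists_family schur
  lieSpan subset_lieSpan lieSpan_lie lieSpan_le stable_span comm_span simil_span stable_of_comm
  comm_of_equiv mm mm_apply irred irred_two)
open Pool.Agent.TypeIV Pool.Agent.PrimePow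

variable {K V : Type*} [Field K] [CharZero K] [IsAlgClosed K] [AddCommGroup V] [Module K V]
  [FiniteDimensional K V] {G : Set (Module.End K V)} (hGe : ∀ e ∈ G, e * e = e)
  (hss : Semisimple G) {W : Submodule K V} (hW : Irreducible G W)
include hGe hss hW

/-- all operators are induced -/
theorem kind_of_full (hns : ∀ e ∈ G, (∃ w ∈ W, e w ≠ 0) ∧ ∃ w ∈ W, e w ≠ w)
    (h2 : Module.finrank K W ≠ 1) {p : V →ₗ[K] W} (hp : ∀ w : W, p w = w)
    (hfull : ∀ Z : Module.End K W, Z ∈ (lieSpan G).map (rst p)) : KSp G W ∨ KSl G W := by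
  have H := irrData hGe hW hp
  have hgst : ∀ x ∈ lieSpan G, ∀ w ∈ W, x w ∈ W := fun x hx => stable_span hW.1 x hx
  have hGst : ∀ e ∈ G, ∀ w ∈ W, e w ∈ W := fun e he => hW.1 e he
  by_cases hsd : SelfDual G W
  · left
    obtain ⟨φ, hnd, hφ⟩ := hsd
    have hnd' : ∀ x : W, (∀ y : W, (φ.compl₁₂ W.subtype W.subtype) x y = 0) → x = 0 :=
      fun x hx => Subtype.ext (hnd x x.2 fun y hy => hx ⟨y, hy⟩)
    have hφ' : ∀ e ∈ rst p '' G, ∀ u v, (φ.compl₁₂ W.subtype W.subtype) (e u) v +
        (φ.compl₁₂ W.subtype W.subtype) u (e v) = (φ.compl₁₂ W.subtype W.subtype) u v := by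
      rintro _ ⟨e, he, rfl⟩ u v
      have h1 := hφ e he u u.2 v v.2
      rw [← rst_apply hp (hGst e he), ← rst_apply hp (hGst e he)] at h1
      exact h1
    -- a nilpotent element of rank one
    have hpos : 0 < Module.finrank K W := by
      rw [Nat.pos_iff_ne_zero]
      intro h0
      exact hW.2.1 (Submodule.finrank_eq_zero.1 h0)
    obtain ⟨n, hn⟩ : ∃ n, Module.finrank K W = n + 2 := ⟨Module.finrank K W - 2, by omega⟩
    let v : Module.Basis (Fin (n + 2)) K W := (Module.finBasis K W).reindex (finCongr hn)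
    have hN : mu v 0 1 * mu v 0 1 = 0 := by
      rw [mu_mul, if_neg (by simp)]
    have hodd : Odd (Module.finrank K (LinearMap.range (mu v 0 1))) := by
      have h1 : LinearMap.range (mu v 0 1) = Submodule.span K {v 0} := by
        apply le_antisymm
        · rintro _ ⟨w, rfl⟩
          rw [mu_apply]
          exact Submodule.smul_mem _ _ (Submodule.mem_span_singleton_self _)
        · rw [Submodule.span_singleton_le_iff_mem]
          refine ⟨v 1, ?_⟩
          rw [mu_apply, Module.Basis.repr_self, Finsupp.single_eq_same, one_smul]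
      rw [h1, finrank_span_singleton (v.ne_zero 0)]
      exact odd_one
    refine ksp_of_mm hGe hss hW (H.alt_of_odd hnd' hφ' (hfull _) hN hodd) hnd' ?_ hp
      (fun u v => hfull _)
    intro e he u u₂ v v₂ hu hv
    have h1 := hφ e he u u.2 v v.2
    rw [← hu, ← hv] at h1
    exact h1
  · right
    refine ⟨hns, hsd, fun Z _ => ?_⟩
    obtain ⟨x, hx, hxZ⟩ := hfull Z
    exact ⟨x, hx, fun w => by rw [← hxZ, rst_apply hp (hgst x hx)]⟩

/-- the rank of a generator is prime to the dimension -/
theorem kind_of_coprime (hns : ∀ e ∈ G, (∃ w ∈ W, e w ≠ 0) ∧ ∃ w ∈ W, e w ≠ w)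
    (h2 : Module.finrank K W ≠ 1) {e : Module.End K V} (he : e ∈ G)
    (hcop : Nat.Coprime (Module.finrank K (W.map e)) (Module.finrank K W)) :
    KSp G W ∨ KSl G W := by
  obtain ⟨p, hp, hpe⟩ := exists_proj hss hW.1
  have H := irrData hGe hW hp
  refine kind_of_full hGe hss hW hns h2 hp fun Z => ?_
  refine full_of_coprime H (e := rst p e) ⟨e, he, rfl⟩ ?_ ?_ Z
  · rw [finrank_range_rst hp fun w hw => hW.1 e he w hw]
    intro h0
    obtain ⟨w, hw, hw0⟩ := (hns e he).1
    apply hw0
    have h1 : e w ∈ W.map e := ⟨w, hw, rfl⟩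
    rw [Submodule.finrank_eq_zero.1 h0, Submodule.mem_bot] at h1
    exact h1
  · rw [finrank_range_rst hp fun w hw => hW.1 e he w hw]
    exact hcop

end Pool.Agent.TypeIV.MX
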