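import Pool.Agent.TypeIV.CommMixed

/-!
# The Lie algebra is determined by its commutant and the ranks of the generators
-/

set_option autoImplicit false
set_option linter.unusedSectionVars false

namespace Pool.Agent.TypeIV.MX

open Pool.Agent.OddRank (Stable Irreducible Semisimple Equiv Iso exists_proj exists_family schur
  lieSpan subset_lieSpan lieSpan_lie lieSpan_le stable_span comm_span simil_span stable_of_comm
  comm_of_equiv mm mm_apply)
open Pool.Agent.TypeIV

variable {K V : Type*} [Field K] [CharZero K] [IsAlgClosed K] [AddCommGroup V] [Module K V]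
  [FiniteDimensional K V]

/-- the generators and the derived algebra span the Lie algebra -/
theorem lieSpan_eq (G : Set (Module.End K V)) :
    lieSpan G = Submodule.span K G ⊔ derivedSpan G := by
  apply le_antisymm
  · refine lieSpan_le (fun e he => Submodule.mem_sup_left (Submodule.subset_span he)) ?_
    intro a ha b hb
    have hle : Submodule.span K G ⊔ derivedSpan G ≤ lieSpan G :=
      sup_le (Submodule.span_le.2 fun e he => subset_lieSpan e he) derived_le
    exact Submodule.mem_sup_right (Submodule.subset_span ⟨a, hle ha, b, hle hb, rfl⟩)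
  · exact sup_le (Submodule.span_le.2 fun e he => subset_lieSpan e he) derived_le

theorem mem_lieSpan_iff {G : Set (Module.End K V)} {D : Module.End K V} :
    D ∈ lieSpan G ↔ ∃ z ∈ Submodule.span K G, D - z ∈ derivedSpan G := by
  rw [lieSpan_eq, Submodule.mem_sup]
  constructor
  · rintro ⟨z, hz, d, hd, rfl⟩
    exact ⟨z, hz, by rwa [add_sub_cancel_left]⟩
  · rintro ⟨z, hz, hd⟩
    exact ⟨z, hz, D - z, hd, add_sub_cancel z D⟩

end Pool.Agent.TypeIV.MX
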