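import Pool.Agent.TypeIV.Kinds

/-!
# The commutant form of the theorem for irreducible subspaces of different types
-/

set_option autoImplicit false
set_option linter.unusedSectionVars false

namespace Pool.Agent.TypeIV.MX

open Pool.Agent.OddRank (Stable Irreducible Semisimple Equiv Iso exists_proj exists_family schur
  lieSpan subset_lieSpan lieSpan_lie lieSpan_le stable_span comm_span simil_span stable_of_comm
  comm_of_equiv mm mm_apply)
open Pool.Agent.TypeIV

variable {K V : Type*} [Field K] [CharZero K] [IsAlgClosed K] [AddCommGroup V] [Module K V]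
  [FiniteDimensional K V]

/-- the easy inclusion -/
theorem derived_props {ψ : V →ₗ[K] V →ₗ[K] K}
    {G : Set (Module.End K V)}
    (hGψ : ∀ e ∈ G, ∀ x y, ψ (e x) y + ψ x (e y) = ψ x y) (hss : Semisimple G)
    {D : Module.End K V} (hD : D ∈ derivedSpan G) :
    (∀ x y, ψ (D x) y + ψ x (D y) = 0) ∧
      (∀ T : Module.End K V, (∀ e ∈ G, e * T = T * e) → D * T = T * D) ∧
      ∀ W, Stable G W → ∀ A : Module.End K W, (∀ w, (A w : V) = D w) →
        LinearMap.trace K W A = 0 := by
  refine ⟨?_, fun T hT => comm_span hT D (derived_le hD), ?_⟩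
  · have hsim : ∀ a ∈ lieSpan G, ∃ κ : K, ∀ x y, ψ (a x) y + ψ x (a y) = κ * ψ x y := by
      intro a ha
      obtain ⟨κ, hκ⟩ := simil_span (α := Unit) (U := fun _ => ⊤) (φ := fun _ => ψ)
        (fun _ e _ u _ => Submodule.mem_top) (fun e he _ u _ v _ => hGψ e he u v) a ha
      exact ⟨κ, fun x y => hκ () x Submodule.mem_top y Submodule.mem_top⟩
    induction hD using Submodule.span_induction with
    | mem z hz =>
      obtain ⟨a, ha, b, hb, rfl⟩ := hz
      obtain ⟨μ, hμ⟩ := hsim a ha
      obtain ⟨ν, hν⟩ := hsim b hb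
      intro x y
      simp only [LinearMap.sub_apply, Module.End.mul_apply, map_sub]
      linear_combination hμ (b x) y + hμ x (b y) - hν (a x) y - hν x (a y) -
        ν * hμ x y + μ * hν x y
    | zero =>
      intro x y
      rw [LinearMap.zero_apply, LinearMap.zero_apply, map_zero, map_zero, LinearMap.zero_apply,
        add_zero]
    | add x y _ _ hx hy =>
      intro u v
      simp only [LinearMap.add_apply, map_add]
      linear_combination hx u v + hy u v
    | smul t x _ hx =>
      intro u v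
      simp only [LinearMap.smul_apply, map_smul, smul_eq_mul]
      linear_combination t * hx u v
  · intro W hW A hA
    obtain ⟨p, hp, hpe⟩ := exists_proj hss hW
    have hA' : A = rst p D := by
      ext w
      change (A w : V) = p (D w)
      rw [← hA w, hp]
    rw [hA']
    clear hA' hA A
    have hst : ∀ x ∈ lieSpan G, ∀ w ∈ W, x w ∈ W := fun x hx => stable_span hW x hx
    induction hD using Submodule.span_induction with
    | mem z hz =>
      obtain ⟨a, ha, b, hb, rfl⟩ := hz
      rw [map_sub, rst_mul hp (hst a ha) (hst b hb), rst_mul hp (hst b hb) (hst a ha), map_sub,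
        LinearMap.trace_mul_comm, sub_self]
    | zero =>
      rw [map_zero, map_zero]
    | add x y _ _ hx hy =>
      rw [map_add, map_add, hx, hy, add_zero]
    | smul t x _ hx =>
      rw [map_smul, map_smul, hx, smul_zero]

/-- The theorem in commutant form. -/
theorem commutant_mixed {ψ : V →ₗ[K] V →ₗ[K] K} (hnd : ∀ x, (∀ y, ψ x y = 0) → x = 0)
    {G : Set (Module.End K V)} (hGe : ∀ e ∈ G, e * e = e)
    (hGψ : ∀ e ∈ G, ∀ x y, ψ (e x) y + ψ x (e y) = ψ x y) (hss : Semisimple G)
    (hkind : ∀ W, Irreducible G W → Module.finrank K W = 1 ∨ KSp G W ∨ KSl G W)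
    (D : Module.End K V) :
    D ∈ derivedSpan G ↔ (∀ x y, ψ (D x) y + ψ x (D y) = 0) ∧
      (∀ T : Module.End K V, (∀ e ∈ G, e * T = T * e) → D * T = T * D) ∧
      ∀ W, Irreducible G W → ∀ A : Module.End K W, (∀ w, (A w : V) = D w) →
        LinearMap.trace K W A = 0 := by
  constructor
  · intro hD
    obtain ⟨h1, h2, h3⟩ := derived_props hGψ hss hD
    exact ⟨h1, h2, fun W hW => h3 W hW.1⟩
  rintro ⟨hκ, hcomm, htr⟩
  obtain ⟨t, ht, hsup⟩ := exists_family hss
  -- representatives
  let r : Setoid {W : Submodule K V // W ∈ t} :=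
    { r := fun W W' => Iso G W.1 W'.1
      iseqv := ⟨fun W => Iso.refl W.1, fun {W _} h => Iso.symm (ht W.1 W.2).1 h,
        fun {_ _ _} h h' => Iso.trans h h'⟩ }
  let WW : Quotient r → Submodule K V := fun i => i.out.1
  have hWW : ∀ i, Irreducible G (WW i) := fun i => ht _ i.out.2
  have hWWn : ∀ i j, i ≠ j → ¬ Iso G (WW i) (WW j) := by
    intro i j hij h
    apply hij
    rw [← Quotient.out_eq i, ← Quotient.out_eq j]
    exact Quotient.sound h
  have hrep : ∀ U ∈ t, ∃ i, Iso G (WW i) U := by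
    intro U hU
    refine ⟨Quotient.mk r ⟨U, hU⟩, ?_⟩
    exact Quotient.mk_out (⟨U, hU⟩ : {W : Submodule K V // W ∈ t})
  have hfin : Finite (Quotient r) := Quotient.finite r
  choose p hp hpe using fun i => exists_proj hss (hWW i).1
  -- restriction
  let R : Module.End K V →ₗ[K] ∀ i, Module.End K (WW i) :=
    LinearMap.pi fun i => rst (p i)
  have hRi : ∀ x i, R x i = rst (p i) x := fun x i => rfl
  have hR : ∀ x : Module.End K V, ∀ i, (∀ w ∈ WW i, x w ∈ WW i) → ∀ w : WW i,
      (R x i w : V) = x w := fun x i hx w => rst_apply (hp i) hx w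
  have hRmul : ∀ x y : Module.End K V, (∀ i, ∀ w ∈ WW i, x w ∈ WW i) →
      (∀ i, ∀ w ∈ WW i, y w ∈ WW i) → R (x * y) = R x * R y := by
    intro x y hx hy
    funext i
    exact rst_mul (hp i) (hx i) (hy i)
  have hGst : ∀ e ∈ G, ∀ i, ∀ w ∈ WW i, e w ∈ WW i := fun e he i => (hWW i).1 e he
  have hgst : ∀ x ∈ lieSpan G, ∀ i, ∀ w ∈ WW i, x w ∈ WW i :=
    fun x hx i => stable_span (hWW i).1 x hx
  have hDst : ∀ U, Stable G U → ∀ w ∈ U, D w ∈ U := fun U hU => stable_of_comm hss hcomm hU
  have hI : ∀ i, IrrData ((lieSpan G).map (rst (p i))) (rst (p i) '' G) :=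
    fun i => irrData hGe (hWW i) (hp i)
  have H : Data ((lieSpan G).map R) (R '' G) := by
    refine ⟨?_, ?_, ?_, ?_, ?_, ?_, ?_, ?_⟩
    · exact fun i => Submodule.nontrivial_iff_ne_bot.2 (hWW i).2.1
    · rintro _ ⟨x, hx, rfl⟩ _ ⟨y, hy, rfl⟩
      refine ⟨x * y - y * x, lieSpan_lie x hx y hy, ?_⟩
      rw [map_sub, hRmul x y (hgst x hx) (hgst y hy), hRmul y x (hgst y hy) (hgst x hx)]
    · rintro _ ⟨e, he, rfl⟩
      exact ⟨e, subset_lieSpan e he, rfl⟩
    · rintro _ ⟨e, he, rfl⟩
      rw [← hRmul e e (hGst e he) (hGst e he), hGe e he]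
    · intro i U hU
      refine (hI i).hirr U ?_
      rintro _ ⟨e, he, rfl⟩
      exact hU _ ⟨e, he, rfl⟩
    · intro i j hij f
      by_contra hcon
      push Not at hcon
      apply hWWn i j hij
      refine ⟨f.toLinearMap, ?_, f.bijective⟩
      intro e he u v huv
      have h1 := hcon _ ⟨e, he, rfl⟩ u
      have h2 : R e i u = v := Subtype.ext ((hR e i (hGst e he i) u).trans huv.symm)
      rw [h2] at h1
      change (f v : V) = e (f u)
      rw [h1]
      exact hR e j (hGst e he j) (f u)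
    · intro i
      rcases hkind (WW i) (hWW i) with h | ⟨φ, halt, hnd, hφ, hm⟩ | ⟨hns, hnsd, hsl⟩
      · exact Or.inl h
      · right
        left
        refine ⟨φ, halt, hnd, ?_, ?_⟩
        · rintro _ ⟨e, he, rfl⟩ x y
          exact hφ e he x (R e i x) y (R e i y) (hR e i (hGst e he i) x)
            (hR e i (hGst e he i) y)
        · intro u v
          obtain ⟨x, hx, hxm⟩ := hm u v
          refine ⟨R x, ⟨x, hx, rfl⟩, ?_⟩
          ext w
          rw [hR x i (hgst x hx i), hxm]
      · right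
        right
        refine ⟨?_, ?_, ?_⟩
        · rintro _ ⟨e, he, rfl⟩
          exact restr_ns hGe hss (hWW i) hns (hp i) _ ⟨e, he, rfl⟩
        · intro φ hφ
          obtain ⟨_, ⟨e, he, rfl⟩, h⟩ := restr_nsd hGe hss (hWW i) hnsd (hp i) φ hφ
          exact ⟨R e, ⟨e, he, rfl⟩, h⟩
        · intro Z hZ
          obtain ⟨x, hx, hxZ⟩ := hsl Z hZ
          refine ⟨R x, ⟨x, hx, rfl⟩, ?_⟩
          ext w
          rw [hR x i (hgst x hx i), hxZ]
    · rintro i j φ hφ _ ⟨x, hx, rfl⟩
      let g' : Submodule K (Module.End K V) :=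
        { carrier := {x | (∀ k, ∀ w ∈ WW k, x w ∈ WW k) ∧ ∃ κ : K, ∀ u v,
            φ (R x i u) v + φ u (R x j v) = κ * φ u v}
          add_mem' := by
            rintro x y ⟨hx, κ, hκ⟩ ⟨hy, κ', hκ'⟩
            refine ⟨fun k w hw => (WW k).add_mem (hx k w hw) (hy k w hw), κ + κ',
              fun u v => ?_⟩
            simp only [map_add, Pi.add_apply, LinearMap.add_apply]
            linear_combination hκ u v + hκ' u v
          zero_mem' := ⟨fun k w _ => (WW k).zero_mem, 0, fun u v => by simp⟩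
          smul_mem' := by
            rintro c x ⟨hx, κ, hκ⟩
            refine ⟨fun k w hw => (WW k).smul_mem c (hx k w hw), c * κ, fun u v => ?_⟩
            simp only [map_smul, Pi.smul_apply, LinearMap.smul_apply, smul_eq_mul]
            linear_combination c * hκ u v }
      refine ((lieSpan_le (g := g') ?_ ?_) hx).2
      · intro e he
        exact ⟨hGst e he, 1, fun u v => by rw [hφ.2.2 _ ⟨e, he, rfl⟩ u v, one_mul]⟩
      · rintro x ⟨hx, κ, hκ⟩ y ⟨hy, κ', hκ'⟩
        refine ⟨fun k w hw => (WW k).sub_mem (hx k _ (hy k w hw)) (hy k _ (hx k w hw)), 0,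
          fun u v => ?_⟩
        rw [map_sub, hRmul x y hx hy, hRmul y x hy hx]
        simp only [Pi.sub_apply, Pi.mul_apply, LinearMap.sub_apply, Module.End.mul_apply, map_sub]
        linear_combination hκ (R y i u) v + hκ u (R y j v) - hκ' (R x i u) v - hκ' u (R x j v) -
          κ' * hκ u v + κ * hκ' u v
  -- the restriction of `D` belongs to the image
  have hRD : R D ∈ (derivedSpan G).map R := by
    have h1 : R D ∈ Submodule.span K {z | ∃ a ∈ (lieSpan G).map R, ∃ b ∈ (lieSpan G).map R,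
        z = a * b - b * a} := by
      rw [H.full]
      refine ⟨fun i => htr _ (hWW i) _ fun w => hR D i (hDst _ (hWW i).1) w, ?_⟩
      intro i j φ hφ u v
      refine pair_irr hss hnd hGψ hκ hcomm ht hsup (hWW i) (hWW j) hφ.1 hφ.2.1 ?_ u (R D i u) v
        (R D j v) (hR D i (hDst _ (hWW i).1) u) (hR D j (hDst _ (hWW j).1) v)
      intro e he u u₂ v v₂ hu hv
      have h2 : R e i u = u₂ := Subtype.ext ((hR e i (hGst e he i) u).trans hu.symm)
      have h3 : R e j v = v₂ := Subtype.ext ((hR e j (hGst e he j) v).trans hv.symm)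
      rw [← h2, ← h3]
      exact hφ.2.2 _ ⟨e, he, rfl⟩ u v
    refine (Submodule.span_le.2 ?_ : _ ≤ (derivedSpan G).map R) h1
    rintro _ ⟨_, ⟨a, ha, rfl⟩, _, ⟨b, hb, rfl⟩, rfl⟩
    refine ⟨a * b - b * a, Submodule.subset_span ⟨a, ha, b, hb, rfl⟩, ?_⟩
    rw [map_sub, hRmul a b (hgst a ha) (hgst b hb), hRmul b a (hgst b hb) (hgst a ha)]
  obtain ⟨x, hx, hxD⟩ := hRD
  have hxl := derived_le hx
  have hxcomm : ∀ T : Module.End K V, (∀ e ∈ G, e * T = T * e) → x * T = T * x :=
    fun T hT => comm_span hT x hxl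
  have hDx : ∀ i, ∀ w : WW i, D w = x w := by
    intro i w
    rw [← hR D i (hDst _ (hWW i).1), ← hR x i (hgst x hxl i), hxD]
  suffices h : D = x by rw [h]; exact hx
  have hle : t.sup id ≤ LinearMap.ker (D - x) := by
    refine Finset.sup_le fun U hU u hu => ?_
    obtain ⟨i, f, hf, hfb⟩ := hrep U hU
    obtain ⟨w, hw⟩ := hfb.2 ⟨u, hu⟩
    have h1 := comm_of_equiv hss hcomm (hWW i).1 hf w ⟨D w, hDst _ (hWW i).1 w w.2⟩ rfl
    have h2 := comm_of_equiv hss hxcomm (hWW i).1 hf w ⟨D w, hDst _ (hWW i).1 w w.2⟩ (hDx i w)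
    rw [hw] at h1 h2
    rw [LinearMap.mem_ker, LinearMap.sub_apply, sub_eq_zero]
    change D u = x u
    rw [← h1, h2]
  rw [hsup] at hle
  ext v
  have h3 : v ∈ LinearMap.ker (D - x) := hle Submodule.mem_top
  rw [LinearMap.mem_ker, LinearMap.sub_apply, sub_eq_zero] at h3
  exact h3

end Pool.Agent.TypeIV.MX
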