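import Pool.Agent.TypeIV.Prod
import Pool.Agent.OddRank.Commutant

/-!
# The commutant form of the theorem
-/

set_option autoImplicit false
set_option linter.unusedSectionVars false

namespace Pool.Agent.TypeIV

open Pool.Agent.OddRank (Stable Irreducible Semisimple Equiv Iso exists_proj exists_family schur
  lieSpan subset_lieSpan lieSpan_lie lieSpan_le stable_span comm_span simil_span stable_of_comm
  comm_of_equiv)

variable {K V : Type*} [Field K] [CharZero K] [IsAlgClosed K] [AddCommGroup V] [Module K V]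
  [FiniteDimensional K V]

/-- the span of the commutators of the elements of the Lie algebra generated by `G` -/
def derivedSpan {K V : Type*} [Field K] [AddCommGroup V] [Module K V]
    (G : Set (Module.End K V)) : Submodule K (Module.End K V) :=
  Submodule.span K {z | ∃ a ∈ lieSpan G, ∃ b ∈ lieSpan G, z = a * b - b * a}

/-- a form on `W` with zero left kernel and multiplier one for the generators -/
def SelfDual (G : Set (Module.End K V)) (W : Submodule K V) : Prop :=
  ∃ φ : V →ₗ[K] V →ₗ[K] K, (∀ x ∈ W, (∀ y ∈ W, φ x y = 0) → x = 0) ∧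
    ∀ e ∈ G, ∀ x ∈ W, ∀ y ∈ W, φ (e x) y + φ x (e y) = φ x y

theorem derived_le {G : Set (Module.End K V)} : derivedSpan G ≤ lieSpan G := by
  rw [derivedSpan, Submodule.span_le]
  rintro _ ⟨a, ha, b, hb, rfl⟩
  exact lieSpan_lie a ha b hb

/-- dual irreducible subspaces -/
theorem pair_irr {G : Set (Module.End K V)} (hss : Semisimple G) {ψ : V →ₗ[K] V →ₗ[K] K}
    (hnd : ∀ x, (∀ y, ψ x y = 0) → x = 0)
    (hGψ : ∀ e ∈ G, ∀ x y, ψ (e x) y + ψ x (e y) = ψ x y) {D : Module.End K V}
    (hκ : ∀ x y, ψ (D x) y + ψ x (D y) = 0)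
    (hD : ∀ T : Module.End K V, (∀ e ∈ G, e * T = T * e) → D * T = T * D)
    {t : Finset (Submodule K V)} (ht : ∀ W ∈ t, Irreducible G W) (hsup : t.sup id = ⊤)
    {W W' : Submodule K V} (hW : Irreducible G W) (hW' : Irreducible G W')
    {φ : W →ₗ[K] W' →ₗ[K] K} (h1 : ∀ x, (∀ y, φ x y = 0) → x = 0)
    (h2 : ∀ y, (∀ x, φ x y = 0) → y = 0)
    (h3 : ∀ e ∈ G, ∀ (u u₂ : W) (v v₂ : W'), (u₂ : V) = e u → (v₂ : V) = e v →
      φ u₂ v + φ u v₂ = φ u v) (u u₂ : W) (v v₂ : W') (hu : (u₂ : V) = D u)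
    (hv : (v₂ : V) = D v) : φ u₂ v + φ u v₂ = 0 := by
  obtain ⟨w, hw, hw0⟩ := (Submodule.ne_bot_iff W).1 hW.2.1
  -- an irreducible subspace that pairs with `W`
  obtain ⟨U, hUt, y₀, hy₀, hy₀0⟩ : ∃ U ∈ t, ∃ y ∈ U, ψ w y ≠ 0 := by
    by_contra hcon
    push Not at hcon
    apply hw0
    apply hnd
    have h1 : t.sup id ≤ LinearMap.ker (ψ w) :=
      Finset.sup_le fun U hU y hy => hcon U hU y hy
    rw [hsup] at h1
    exact fun y => h1 Submodule.mem_top
  have hU := ht U hUt
  -- the duality of `W` and `W'`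
  have hinj : Function.Injective φ := by
    rw [injective_iff_map_eq_zero]
    exact fun x hx => h1 x fun y => by rw [hx, LinearMap.zero_apply]
  have hinj' : Function.Injective φ.flip := by
    rw [injective_iff_map_eq_zero]
    exact fun y hy => h2 y fun x => by
      rw [← LinearMap.flip_apply, hy, LinearMap.zero_apply]
  have hrk : Module.finrank K W' = Module.finrank K (Module.Dual K W) := by
    apply le_antisymm
    · exact LinearMap.finrank_le_finrank_of_injective hinj'
    · rw [Subspace.dual_finrank_eq]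
      have := LinearMap.finrank_le_finrank_of_injective hinj
      rwa [Subspace.dual_finrank_eq] at this
  let Je : W' ≃ₗ[K] Module.Dual K W := LinearMap.linearEquivOfInjective φ.flip hinj' hrk
  have hJe : ∀ (z : W') (x : W), Je z x = φ x z := fun z x => rfl
  let T : U →ₗ[K] W' := Je.symm.toLinearMap ∘ₗ (ψ.compl₁₂ W.subtype U.subtype).flip
  have hT : ∀ (x : W) (y : U), φ x (T y) = ψ x y := by
    intro x y
    rw [← hJe]
    change Je (Je.symm ((ψ.compl₁₂ W.subtype U.subtype).flip y)) x = _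
    rw [LinearEquiv.apply_symm_apply]
    rfl
  have hTe : Equiv G T := by
    intro e he y y' hyy
    have h4 : T y' - ⟨e (T y), hW'.1 e he _ (T y).2⟩ = 0 := by
      apply h2
      intro x
      rw [map_sub, hT, hyy]
      have h5 := h3 e he x ⟨e x, hW.1 e he x x.2⟩ (T y) ⟨e (T y), hW'.1 e he _ (T y).2⟩ rfl rfl
      have h6 := hT ⟨e x, hW.1 e he x x.2⟩ y
      have h7 := hT x y
      have h8 := hGψ e he x y
      simp only at h6
      linear_combination h8 - h5 + h6 - h7
    exact congrArg Subtype.val (sub_eq_zero.1 h4)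
  have hT0 : T ≠ 0 := by
    intro h
    have h4 := hT ⟨w, hw⟩ ⟨y₀, hy₀⟩
    rw [h, LinearMap.zero_apply, map_zero] at h4
    exact hy₀0 h4.symm
  have hbij := schur hU hW' hTe hT0
  obtain ⟨y, rfl⟩ := hbij.2 v
  have hDy := stable_of_comm hss hD hU.1 y y.2
  have h4 := comm_of_equiv hss hD hU.1 hTe y ⟨D y, hDy⟩ rfl
  have h5 : v₂ = T ⟨D y, hDy⟩ := Subtype.ext (hv.trans h4.symm)
  rw [h5, hT, hT, hu]
  exact hκ u y

/-- The theorem in commutant form. -/
theorem commutant_full {ψ : V →ₗ[K] V →ₗ[K] K} (hnd : ∀ x, (∀ y, ψ x y = 0) → x = 0)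
    {G : Set (Module.End K V)} (hGe : ∀ e ∈ G, e * e = e)
    (hGψ : ∀ e ∈ G, ∀ x y, ψ (e x) y + ψ x (e y) = ψ x y) (hss : Semisimple G)
    (hns : ∀ W, Irreducible G W → ∀ e ∈ G, (∃ w ∈ W, e w ≠ 0) ∧ ∃ w ∈ W, e w ≠ w)
    (hnsd : ∀ W, Irreducible G W → ¬ SelfDual G W)
    (hN : ∀ W, Irreducible G W → ∃ N ∈ lieSpan G, N * N = 0 ∧
      Module.finrank K (W.map N) = 1) (D : Module.End K V) :
    D ∈ derivedSpan G ↔ (∀ x y, ψ (D x) y + ψ x (D y) = 0) ∧
      (∀ T : Module.End K V, (∀ e ∈ G, e * T = T * e) → D * T = T * D) ∧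
      ∀ W, Irreducible G W → ∀ A : Module.End K W, (∀ w, (A w : V) = D w) →
        LinearMap.trace K W A = 0 := by
  constructor
  · intro hD
    refine ⟨?_, fun T hT => comm_span hT D (derived_le hD), ?_⟩
    · have hsim : ∀ a ∈ lieSpan G, ∃ κ : K, ∀ x y, ψ (a x) y + ψ x (a y) = κ * ψ x y := by
        intro a ha
        obtain ⟨κ, hκ⟩ := simil_span (α := Unit) (U := fun _ => ⊤) (φ := fun _ => ψ)
          (fun _ e _ u _ => Submodule.mem_top) (fun e he _ u _ v _ => hGψ e he u v) a ha
        exact ⟨κ, fun x y => hκ () x Submodule.mem_top y Submodule.mem_top⟩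
      induction hD using Submodule.span_induction with
      | mem z hz =>
        obtain ⟨a, ha, b, hb, rfl⟩ := hz
        obtain ⟨μ, hμ⟩ := hsim a ha
        obtain ⟨ν, hν⟩ := hsim b hb
        intro x y
        simp only [LinearMap.sub_apply, Module.End.mul_apply, map_sub]
        linear_combination hμ (b x) y + hμ x (b y) - hν (a x) y - hν x (a y) -
          ν * hμ x y + μ * hν x y
      | zero =>
        intro x y
        rw [LinearMap.zero_apply, LinearMap.zero_apply, map_zero, map_zero, LinearMap.zero_apply,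
          add_zero]
      | add x y _ _ hx hy =>
        intro u v
        simp only [LinearMap.add_apply, map_add]
        linear_combination hx u v + hy u v
      | smul t x _ hx =>
        intro u v
        simp only [LinearMap.smul_apply, map_smul, smul_eq_mul]
        linear_combination t * hx u v
    · intro W hW A hA
      obtain ⟨p, hp, hpe⟩ := exists_proj hss hW.1
      have hA' : A = p ∘ₗ D ∘ₗ W.subtype := by
        ext w
        change (A w : V) = p (D w)
        rw [← hA w, hp]
      rw [hA']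
      clear hA' hA A
      have hst : ∀ x ∈ lieSpan G, ∀ w ∈ W, x w ∈ W := fun x hx => stable_span hW.1 x hx
      have hmul : ∀ a ∈ lieSpan G, ∀ b ∈ lieSpan G,
          p ∘ₗ (a * b) ∘ₗ W.subtype = (p ∘ₗ a ∘ₗ W.subtype) * (p ∘ₗ b ∘ₗ W.subtype) := by
        intro a ha b hb
        ext w
        change (p (a (b w)) : V) = p (a (p (b w)))
        rw [hp ⟨b w, hst b hb w w.2⟩]
      induction hD using Submodule.span_induction with
      | mem z hz =>
        obtain ⟨a, ha, b, hb, rfl⟩ := hz
        have h1 : p ∘ₗ (a * b - b * a) ∘ₗ W.subtype =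
            p ∘ₗ (a * b) ∘ₗ W.subtype - p ∘ₗ (b * a) ∘ₗ W.subtype := by
          ext w
          simp
        rw [h1, hmul a ha b hb, hmul b hb a ha, map_sub, LinearMap.trace_mul_comm, sub_self]
      | zero =>
        rw [LinearMap.zero_comp, LinearMap.comp_zero, map_zero]
      | add x y _ _ hx hy =>
        rw [LinearMap.add_comp, LinearMap.comp_add, map_add, hx, hy, add_zero]
      | smul t x _ hx =>
        rw [LinearMap.smul_comp, LinearMap.comp_smul, map_smul, hx, smul_zero]
  rintro ⟨hκ, hcomm, htr⟩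
  obtain ⟨t, ht, hsup⟩ := exists_family hss
  -- representatives
  let r : Setoid {W : Submodule K V // W ∈ t} :=
    { r := fun W W' => Iso G W.1 W'.1
      iseqv := ⟨fun W => Iso.refl W.1, fun {W _} h => Iso.symm (ht W.1 W.2).1 h,
        fun {_ _ _} h h' => Iso.trans h h'⟩ }
  let WW : Quotient r → Submodule K V := fun i => i.out.1
  have hWW : ∀ i, Irreducible G (WW i) := fun i => ht _ i.out.2
  have hWWn : ∀ i j, i ≠ j → ¬ Iso G (WW i) (WW j) := by
    intro i j hij h
    apply hij
    rw [← Quotient.out_eq i, ← Quotient.out_eq j]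
    exact Quotient.sound h
  have hrep : ∀ U ∈ t, ∃ i, Iso G (WW i) U := by
    intro U hU
    refine ⟨Quotient.mk r ⟨U, hU⟩, ?_⟩
    exact Quotient.mk_out (⟨U, hU⟩ : {W : Submodule K V // W ∈ t})
  have hfin : Finite (Quotient r) := Quotient.finite r
  choose p hp hpe using fun i => exists_proj hss (hWW i).1
  -- restriction
  let R : Module.End K V →ₗ[K] ∀ i, Module.End K (WW i) :=
    { toFun := fun x i => (p i) ∘ₗ x ∘ₗ (WW i).subtype
      map_add' := fun x y => by
        funext i
        ext w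
        simp
      map_smul' := fun c x => by
        funext i
        ext w
        simp }
  have hR : ∀ x : Module.End K V, ∀ i, (∀ w ∈ WW i, x w ∈ WW i) → ∀ w : WW i,
      (R x i w : V) = x w := by
    intro x i hx w
    change (p i (x w) : V) = x w
    rw [hp i ⟨x w, hx w w.2⟩]
  have hRmul : ∀ x y : Module.End K V, (∀ i, ∀ w ∈ WW i, x w ∈ WW i) →
      (∀ i, ∀ w ∈ WW i, y w ∈ WW i) → R (x * y) = R x * R y := by
    intro x y hx hy
    funext i
    ext w
    rw [hR (x * y) i (fun w hw => hx i _ (hy i w hw)) w]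
    change x (y w) = (R x i (R y i w) : V)
    rw [hR x i (hx i), hR y i (hy i)]
  have hGst : ∀ e ∈ G, ∀ i, ∀ w ∈ WW i, e w ∈ WW i := fun e he i => (hWW i).1 e he
  have hgst : ∀ x ∈ lieSpan G, ∀ i, ∀ w ∈ WW i, x w ∈ WW i :=
    fun x hx i => stable_span (hWW i).1 x hx
  have hDst : ∀ U, Stable G U → ∀ w ∈ U, D w ∈ U := fun U hU => stable_of_comm hss hcomm hU
  have H : Data ((lieSpan G).map R) (R '' G) := by
    refine ⟨?_, ?_, ?_, ?_, ?_, ?_, ?_, ?_, ?_⟩
    · rintro _ ⟨x, hx, rfl⟩ _ ⟨y, hy, rfl⟩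
      refine ⟨x * y - y * x, lieSpan_lie x hx y hy, ?_⟩
      rw [map_sub, hRmul x y (hgst x hx) (hgst y hy), hRmul y x (hgst y hy) (hgst x hx)]
    · rintro _ ⟨e, he, rfl⟩
      exact ⟨e, subset_lieSpan e he, rfl⟩
    · rintro _ ⟨e, he, rfl⟩
      rw [← hRmul e e (hGst e he) (hGst e he), hGe e he]
    · rintro _ ⟨e, he, rfl⟩ i
      obtain ⟨⟨w, hw, hw0⟩, ⟨w', hw', hw1⟩⟩ := hns _ (hWW i) e he
      refine ⟨fun h => hw0 ?_, fun h => hw1 ?_⟩
      · rw [← hR e i (hGst e he i) ⟨w, hw⟩, h]
        rfl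
      · have h1 := hR e i (hGst e he i) ⟨w', hw'⟩
        rw [h] at h1
        exact h1.symm
    · intro i U hU
      have h1 : Stable G (U.map (WW i).subtype) := by
        rintro e he _ ⟨w, hw, rfl⟩
        refine ⟨R e i w, hU _ ⟨e, he, rfl⟩ w hw, ?_⟩
        exact hR e i (hGst e he i) w
      rcases (hWW i).2.2 _ h1 (Submodule.map_subtype_le _ _) with h | h
      · left
        rw [eq_bot_iff]
        intro u hu
        have h2 : (u : V) ∈ U.map (WW i).subtype := ⟨u, hu, rfl⟩
        rw [h, Submodule.mem_bot] at h2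
        exact (Submodule.mem_bot K).2 (Subtype.ext h2)
      · right
        rw [eq_top_iff]
        intro u _
        have h2 : (u : V) ∈ U.map (WW i).subtype := by rw [h]; exact u.2
        obtain ⟨u', hu', h3⟩ := h2
        have h4 : u' = u := Subtype.ext h3
        rwa [h4] at hu'
    · intro i j hij f
      by_contra hcon
      push Not at hcon
      apply hWWn i j hij
      refine ⟨f.toLinearMap, ?_, f.bijective⟩
      intro e he u v huv
      have h1 := hcon _ ⟨e, he, rfl⟩ u
      have h2 : R e i u = v := Subtype.ext ((hR e i (hGst e he i) u).trans huv.symm)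
      rw [h2] at h1
      change (f v : V) = e (f u)
      rw [h1]
      exact hR e j (hGst e he j) (f u)
    · intro i φ hφ
      by_contra hcon
      push Not at hcon
      apply hnsd _ (hWW i)
      refine ⟨φ.compl₁₂ (p i) (p i), ?_, ?_⟩
      · intro x hx hxy
        have h1 : (⟨x, hx⟩ : WW i) = 0 := by
          apply hφ
          intro y
          have h2 := hxy y y.2
          have e1 : p i x = ⟨x, hx⟩ := hp i ⟨x, hx⟩
          rw [LinearMap.compl₁₂_apply, hp i y, e1] at h2
          exact h2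
        exact congrArg Subtype.val h1
      · intro e he x hx y hy
        have h1 := hcon _ ⟨e, he, rfl⟩ ⟨x, hx⟩ ⟨y, hy⟩
        have e1 : p i x = ⟨x, hx⟩ := hp i ⟨x, hx⟩
        have e2 : p i y = ⟨y, hy⟩ := hp i ⟨y, hy⟩
        rw [LinearMap.compl₁₂_apply, LinearMap.compl₁₂_apply, LinearMap.compl₁₂_apply, e1, e2]
        exact h1
    · intro i
      obtain ⟨N, hN, hNN, hNo⟩ := hN (WW i) (hWW i)
      refine ⟨R N, ⟨N, hN, rfl⟩, ?_, ?_⟩
      · rw [← hRmul N N (hgst N hN) (hgst N hN), hNN, map_zero]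
      · have h1 : (LinearMap.range (R N i)).map (WW i).subtype = (WW i).map N := by
          ext v
          constructor
          · rintro ⟨_, ⟨w, rfl⟩, rfl⟩
            exact ⟨w, w.2, (hR N i (hgst N hN i) w).symm⟩
          · rintro ⟨w, hw, rfl⟩
            exact ⟨R N i ⟨w, hw⟩, ⟨_, rfl⟩, hR N i (hgst N hN i) ⟨w, hw⟩⟩
        have h2 : Module.finrank K ((LinearMap.range (R N i)).map (WW i).subtype) =
            Module.finrank K (LinearMap.range (R N i)) :=
          Submodule.finrank_map_subtype_eq _ _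
        rw [← h2, h1]
        exact hNo
    · rintro i j φ hφ _ ⟨x, hx, rfl⟩
      let g' : Submodule K (Module.End K V) :=
        { carrier := {x | (∀ k, ∀ w ∈ WW k, x w ∈ WW k) ∧ ∃ κ : K, ∀ u v,
            φ (R x i u) v + φ u (R x j v) = κ * φ u v}
          add_mem' := by
            rintro x y ⟨hx, κ, hκ⟩ ⟨hy, κ', hκ'⟩
            refine ⟨fun k w hw => (WW k).add_mem (hx k w hw) (hy k w hw), κ + κ',
              fun u v => ?_⟩
            simp only [map_add, Pi.add_apply, LinearMap.add_apply]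
            linear_combination hκ u v + hκ' u v
          zero_mem' := ⟨fun k w _ => (WW k).zero_mem, 0, fun u v => by simp⟩
          smul_mem' := by
            rintro c x ⟨hx, κ, hκ⟩
            refine ⟨fun k w hw => (WW k).smul_mem c (hx k w hw), c * κ, fun u v => ?_⟩
            simp only [map_smul, Pi.smul_apply, LinearMap.smul_apply, smul_eq_mul]
            linear_combination c * hκ u v }
      refine ((lieSpan_le (g := g') ?_ ?_) hx).2
      · intro e he
        exact ⟨hGst e he, 1, fun u v => by rw [hφ.2.2 _ ⟨e, he, rfl⟩ u v, one_mul]⟩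
      · rintro x ⟨hx, κ, hκ⟩ y ⟨hy, κ', hκ'⟩
        refine ⟨fun k w hw => (WW k).sub_mem (hx k _ (hy k w hw)) (hy k _ (hx k w hw)), 0,
          fun u v => ?_⟩
        rw [map_sub, hRmul x y hx hy, hRmul y x hy hx]
        simp only [Pi.sub_apply, Pi.mul_apply, LinearMap.sub_apply, Module.End.mul_apply, map_sub]
        linear_combination hκ (R y i u) v + hκ u (R y j v) - hκ' (R x i u) v - hκ' u (R x j v) -
          κ' * hκ u v + κ * hκ' u v
  -- the restriction of `D` belongs to the image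
  have hRD : R D ∈ (derivedSpan G).map R := by
    have h1 : R D ∈ Submodule.span K {z | ∃ a ∈ (lieSpan G).map R, ∃ b ∈ (lieSpan G).map R,
        z = a * b - b * a} := by
      rw [H.full]
      refine ⟨fun i => htr _ (hWW i) _ fun w => hR D i (hDst _ (hWW i).1) w, ?_⟩
      intro i j φ hφ u v
      refine pair_irr hss hnd hGψ hκ hcomm ht hsup (hWW i) (hWW j) hφ.1 hφ.2.1 ?_ u (R D i u) v
        (R D j v) (hR D i (hDst _ (hWW i).1) u) (hR D j (hDst _ (hWW j).1) v)
      intro e he u u₂ v v₂ hu hv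
      have h2 : R e i u = u₂ := Subtype.ext ((hR e i (hGst e he i) u).trans hu.symm)
      have h3 : R e j v = v₂ := Subtype.ext ((hR e j (hGst e he j) v).trans hv.symm)
      rw [← h2, ← h3]
      exact hφ.2.2 _ ⟨e, he, rfl⟩ u v
    refine (Submodule.span_le.2 ?_ : _ ≤ (derivedSpan G).map R) h1
    rintro _ ⟨_, ⟨a, ha, rfl⟩, _, ⟨b, hb, rfl⟩, rfl⟩
    refine ⟨a * b - b * a, Submodule.subset_span ⟨a, ha, b, hb, rfl⟩, ?_⟩
    rw [map_sub, hRmul a b (hgst a ha) (hgst b hb), hRmul b a (hgst b hb) (hgst a ha)]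
  obtain ⟨x, hx, hxD⟩ := hRD
  have hxl := derived_le hx
  have hxcomm : ∀ T : Module.End K V, (∀ e ∈ G, e * T = T * e) → x * T = T * x :=
    fun T hT => comm_span hT x hxl
  have hDx : ∀ i, ∀ w : WW i, D w = x w := by
    intro i w
    rw [← hR D i (hDst _ (hWW i).1), ← hR x i (hgst x hxl i), hxD]
  suffices h : D = x by rw [h]; exact hx
  have hle : t.sup id ≤ LinearMap.ker (D - x) := by
    refine Finset.sup_le fun U hU u hu => ?_
    obtain ⟨i, f, hf, hfb⟩ := hrep U hU
    obtain ⟨w, hw⟩ := hfb.2 ⟨u, hu⟩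
    have h1 := comm_of_equiv hss hcomm (hWW i).1 hf w ⟨D w, hDst _ (hWW i).1 w w.2⟩ rfl
    have h2 := comm_of_equiv hss hxcomm (hWW i).1 hf w ⟨D w, hDst _ (hWW i).1 w w.2⟩ (hDx i w)
    rw [hw] at h1 h2
    rw [LinearMap.mem_ker, LinearMap.sub_apply, sub_eq_zero]
    change D u = x u
    rw [← h1, h2]
  rw [hsup] at hle
  ext v
  have h3 : v ∈ LinearMap.ker (D - x) := hle Submodule.mem_top
  rw [LinearMap.mem_ker, LinearMap.sub_apply, sub_eq_zero] at h3
  exact h3

end Pool.Agent.TypeIV
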