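import Pool.Agent.TypeIV.Iso

/-!
# Pairings between two representations
-/

set_option autoImplicit false
set_option linter.unusedSectionVars false

namespace Pool.Agent.TypeIV

section Basic

variable {K : Type*} [Field K] {V : Type*} [AddCommGroup V] [Module K V] [FiniteDimensional K V]

/-- a transposition of operators, with respect to a symmetric form -/
structure Tp (s : V →ₗ[K] V →ₗ[K] K) (t : Module.End K V →ₗ[K] Module.End K V) : Prop where
  nd : ∀ x, (∀ y, s x y = 0) → x = 0
  sym : ∀ x y, s x y = s y x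
  adj : ∀ D x y, s (D x) y = s x (t D y)

/-- there is a transposition -/
theorem exists_tp (K V : Type*) [Field K] [AddCommGroup V] [Module K V] [FiniteDimensional K V] :
    ∃ (s : V →ₗ[K] V →ₗ[K] K) (t : Module.End K V →ₗ[K] Module.End K V), Tp s t := by
  classical
  let b := Module.finBasis K V
  let s : V →ₗ[K] V →ₗ[K] K := ∑ i, (b.coord i).smulRight (b.coord i)
  have hs : ∀ x y, s x y = ∑ i, b.coord i x * b.coord i y := by
    intro x y
    simp [s, LinearMap.sum_apply]
  have hnd : ∀ x, (∀ y, s x y = 0) → x = 0 := by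
    intro x hx
    rw [← b.forall_coord_eq_zero_iff]
    intro j
    have h1 := hx (b j)
    rw [hs] at h1
    rw [Finset.sum_eq_single j] at h1
    · simpa using h1
    · intro i _ hij
      have : b.coord i (b j) = 0 := by
        rw [Module.Basis.coord_apply, Module.Basis.repr_self, Finsupp.single_apply, if_neg hij.symm]
      rw [this, mul_zero]
    · intro h
      exact absurd (Finset.mem_univ j) h
  have hsym : ∀ x y, s x y = s y x := by
    intro x y
    rw [hs, hs]
    exact Finset.sum_congr rfl fun i _ => mul_comm _ _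
  have hinj : Function.Injective s := by
    rw [injective_iff_map_eq_zero]
    intro x hx
    exact hnd x fun y => by rw [hx, LinearMap.zero_apply]
  let J : V ≃ₗ[K] Module.Dual K V :=
    LinearMap.linearEquivOfInjective s hinj Subspace.dual_finrank_eq.symm
  have hJ : ∀ v, J v = s v := fun v => rfl
  let σ : Module.End K V →ₗ[K] Module.End K V :=
    (J.symm.conj.toLinearMap).comp (Module.Dual.transpose (R := K) (M := V) (M' := V))
  refine ⟨s, σ, hnd, hsym, ?_⟩
  intro D x y
  have h2 : s (σ D y) = (s y).comp D := by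
    rw [← hJ]
    change J (J.symm.conj (Module.Dual.transpose (R := K) D) y) = _
    rw [LinearEquiv.conj_apply_apply, LinearEquiv.apply_symm_apply, LinearEquiv.symm_symm,
      hJ, Module.Dual.transpose_apply]
  rw [hsym x, h2, LinearMap.comp_apply, ← hsym]

namespace Tp

variable {s : V →ₗ[K] V →ₗ[K] K} {t : Module.End K V →ₗ[K] Module.End K V}

theorem uniq (T : Tp s t) {D D' : Module.End K V} (h : ∀ x y, s x (D y) = s x (D' y)) : D = D' := by
  ext y
  rw [← sub_eq_zero]
  apply T.nd
  intro x
  rw [T.sym, map_sub, h, sub_self]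

theorem mul (T : Tp s t) (D D' : Module.End K V) : t (D * D') = t D' * t D := by
  apply T.uniq
  intro x y
  rw [← T.adj, Module.End.mul_apply, Module.End.mul_apply, ← T.adj, ← T.adj]

theorem one (T : Tp s t) : t 1 = 1 := by
  apply T.uniq
  intro x y
  rw [← T.adj]
  rfl

theorem tt (T : Tp s t) (D : Module.End K V) : t (t D) = D := by
  apply T.uniq
  intro x y
  rw [← T.adj, T.sym, ← T.adj, T.sym]

theorem inj (T : Tp s t) {D D' : Module.End K V} (h : t D = t D') : D = D' := by
  rw [← T.tt D, h, T.tt]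

theorem irr (T : Tp s t) {S : Set (Module.End K V)}
    (hirr : ∀ U : Submodule K V, (∀ D ∈ S, ∀ w ∈ U, D w ∈ U) → U = ⊥ ∨ U = ⊤)
    (U : Submodule K V) (hU : ∀ D ∈ S, ∀ w ∈ U, t D w ∈ U) : U = ⊥ ∨ U = ⊤ := by
  -- the orthogonal subspace
  have hinj : Function.Injective s := by
    rw [injective_iff_map_eq_zero]
    intro x hx
    exact T.nd x fun y => by rw [hx, LinearMap.zero_apply]
  let W : Submodule K V := (U.map s).dualCoannihilator
  have hW : ∀ x, x ∈ W ↔ ∀ u ∈ U, s u x = 0 := by
    intro x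
    simp [W, Submodule.mem_dualCoannihilator]
  have h1 : W.dualAnnihilator = U.map s := Subspace.dualCoannihilator_dualAnnihilator_eq
  have hUmap : ∀ u, s u ∈ U.map s → u ∈ U := by
    rintro u ⟨u', hu', h⟩
    rwa [← hinj h]
  rcases hirr W (fun D hD w hw => by
    rw [hW] at hw ⊢
    intro u hu
    rw [T.sym, T.adj, T.sym]
    exact hw _ (hU D hD u hu)) with h | h
  · right
    rw [h, Submodule.dualAnnihilator_bot] at h1
    rw [eq_top_iff]
    intro u _
    exact hUmap u (h1 ▸ Submodule.mem_top)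
  · left
    rw [h, Submodule.dualAnnihilator_top] at h1
    rw [eq_bot_iff]
    intro u hu
    have h2 : s u ∈ U.map s := ⟨u, hu, rfl⟩
    rw [← h1, Submodule.mem_bot] at h2
    exact (Submodule.mem_bot K).2 (hinj (h2.trans (map_zero s).symm))

theorem line (T : Tp s t) {P : Module.End K V} (h : Line P) : Line (t P) := by
  obtain ⟨a, θ, ha, rfl⟩ := h
  have hinj : Function.Injective s := by
    rw [injective_iff_map_eq_zero]
    intro x hx
    exact T.nd x fun y => by rw [hx, LinearMap.zero_apply]
  obtain ⟨b, hb⟩ : ∃ b, s b = θ :=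
    (LinearMap.injective_iff_surjective_of_finrank_eq_finrank
      Subspace.dual_finrank_eq.symm).1 hinj θ
  refine ⟨b, s a, ?_, ?_⟩
  · rw [T.sym, hb, ha]
  · apply T.uniq
    intro x y
    rw [← T.adj, LinearMap.smulRight_apply, LinearMap.smulRight_apply, map_smul, map_smul,
      LinearMap.smul_apply, smul_eq_mul, smul_eq_mul, T.sym x b, hb, mul_comm]

end Tp

end Basic

section Pair

variable {K : Type*} [Field K] [CharZero K]
  {V₁ : Type*} [AddCommGroup V₁] [Module K V₁] [FiniteDimensional K V₁]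
  {V₂ : Type*} [AddCommGroup V₂] [Module K V₂] [FiniteDimensional K V₂]
  {g : Submodule K (Module.End K V₁ × Module.End K V₂)}
  {c f P Q R : Module.End K V₁ × Module.End K V₂}

/-- If the squares of all elements of weight one are multiples of `(-c₁, c₂)`, there is a
non-degenerate pairing of the two representations which is invariant up to a character. -/
theorem dual_pairing (B : Tri g c f P Q R) (h1 : Line Q.1) (h2 : Line P.2)
    (hsq : ∀ x, Up g P Q R x → ∃ τ : K, x.1 * x.1 = -(τ • c.1) ∧ x.2 * x.2 = τ • c.2)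
    (hirr₁ : ∀ U : Submodule K V₁, (∀ D ∈ g, ∀ w ∈ U, D.1 w ∈ U) → U = ⊥ ∨ U = ⊤)
    (hirr₂ : ∀ U : Submodule K V₂, (∀ D ∈ g, ∀ w ∈ U, D.2 w ∈ U) → U = ⊥ ∨ U = ⊤) :
    ∃ (φ : V₁ →ₗ[K] V₂ →ₗ[K] K) (μ : Module.End K V₁ × Module.End K V₂ → K),
      (∀ x, (∀ y, φ x y = 0) → x = 0) ∧ (∀ y, (∀ x, φ x y = 0) → y = 0) ∧
      ∀ D ∈ g, ∀ u v, φ (D.1 u) v + φ u (D.2 v) = μ D * φ u v := by
  obtain ⟨s, t, T⟩ := exists_tp K V₁
  let S : (Module.End K V₁ × Module.End K V₂) →ₗ[K] (Module.End K V₁ × Module.End K V₂) :=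
    { toFun := fun D => (-t D.1, D.2)
      map_add' := fun x y => Prod.ext (by
        change -t (x.1 + y.1) = -t x.1 + -t y.1
        rw [map_add, neg_add]) rfl
      map_smul' := fun r x => Prod.ext (by
        change -t (r • x.1) = r • -t x.1
        rw [map_smul, smul_neg]) rfl }
  have hS : ∀ D, S D = (-t D.1, D.2) := fun D => rfl
  have hSinj : ∀ D D', S D = S D' → D = D' := by
    intro D D' h
    have e1 := congrArg Prod.fst h
    have e2 := congrArg Prod.snd h
    rw [hS, hS] at e1
    exact Prod.ext (T.inj (neg_injective e1)) e2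
  -- the components of the identities of `B`
  have BT : Tri (g.map S) (S c) (S f) (t Q.1, P.2) (t P.1, Q.2) (t R.1, R.2) := by
    refine ⟨?_, ⟨c, B.cg, rfl⟩, ⟨f, B.fg, rfl⟩, ?_, ?_, ?_, ?_, ?_, ?_, ?_, ?_⟩
    · rintro _ ⟨D, hD, rfl⟩ _ ⟨D', hD', rfl⟩
      refine ⟨_, B.lie _ hD _ hD', ?_⟩
      refine Prod.ext ?_ rfl
      change -t (D * D' - D' * D).1 = -t D.1 * -t D'.1 - -t D'.1 * -t D.1
      rw [Prod.fst_sub, map_sub, Prod.fst_mul, Prod.fst_mul, T.mul, T.mul, neg_mul_neg,
        neg_mul_neg, neg_sub]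
    · refine Prod.ext ?_ (congrArg Prod.snd B.cc :)
      change -t c.1 * -t c.1 = 0
      rw [neg_mul_neg, ← T.mul]
      have : c.1 * c.1 = 0 := congrArg Prod.fst B.cc
      rw [this, map_zero]
    · refine Prod.ext ?_ (congrArg Prod.snd B.ff :)
      change -t f.1 * -t f.1 = 0
      rw [neg_mul_neg, ← T.mul]
      have : f.1 * f.1 = 0 := congrArg Prod.fst B.ff
      rw [this, map_zero]
    · refine Prod.ext ?_ (congrArg Prod.snd B.cfc :)
      change -t c.1 * -t f.1 * -t c.1 = -t c.1
      have : c.1 * (f.1 * c.1) = c.1 := by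
        have := congrArg Prod.fst B.cfc
        rw [← mul_assoc]
        exact this
      rw [neg_mul_neg, mul_neg, ← T.mul, ← T.mul, this]
    · refine Prod.ext ?_ (congrArg Prod.snd B.fcf :)
      change -t f.1 * -t c.1 * -t f.1 = -t f.1
      have : f.1 * (c.1 * f.1) = f.1 := by
        have := congrArg Prod.fst B.fcf
        rw [← mul_assoc]
        exact this
      rw [neg_mul_neg, mul_neg, ← T.mul, ← T.mul, this]
    · refine Prod.ext ?_ (congrArg Prod.snd B.cf :)
      change -t c.1 * -t f.1 = t Q.1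
      have : f.1 * c.1 = Q.1 := congrArg Prod.fst B.fc
      rw [neg_mul_neg, ← T.mul, this]
    · refine Prod.ext ?_ (congrArg Prod.snd B.fc :)
      change -t f.1 * -t c.1 = t P.1
      have : c.1 * f.1 = P.1 := congrArg Prod.fst B.cf
      rw [neg_mul_neg, ← T.mul, this]
    · refine Prod.ext ?_ (congrArg Prod.snd B.hR :)
      change t R.1 = 1 - t Q.1 - t P.1
      have : R.1 = 1 - P.1 - Q.1 := congrArg Prod.fst B.hR
      rw [this, map_sub, map_sub, T.one]
      abel
    · rintro _ ⟨D, hD, rfl⟩
      obtain ⟨τ, ht⟩ := B.ext D hD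
      refine ⟨τ, ?_⟩
      refine Prod.ext ?_ (congrArg Prod.snd ht :)
      change -t c.1 * -t D.1 * -t c.1 = τ • -t c.1
      have : c.1 * (D.1 * c.1) = τ • c.1 := by
        have := congrArg Prod.fst ht
        rw [← mul_assoc]
        exact this
      rw [neg_mul_neg, mul_neg, ← T.mul, ← T.mul, this, map_smul, smul_neg]
  obtain ⟨Φ, χ, hΦ⟩ := twist_iso BT (T.line h1) h2 (by
    rintro x ⟨⟨D, hD, rfl⟩, hx⟩
    have hD' : Up g P Q R D := by
      refine ⟨hD, hSinj _ _ ?_⟩
      refine Prod.ext ?_ ?_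
      · have e1 : -t D.1 = t Q.1 * -t D.1 * t R.1 + t R.1 * -t D.1 * t P.1 :=
          congrArg Prod.fst hx
        change -t D.1 = -t (P * D * R + R * D * Q).1
        have e2 : (P * D * R + R * D * Q).1 = P.1 * (D.1 * R.1) + R.1 * (D.1 * Q.1) := by
          rw [← mul_assoc, ← mul_assoc]
          rfl
        rw [e2, map_add, T.mul, T.mul, T.mul, T.mul, neg_add]
        conv_lhs => rw [e1]
        simp only [mul_neg, neg_mul]
        abel
      · exact (congrArg Prod.snd hx :)
    obtain ⟨τ, e1, e2⟩ := hsq D hD'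
    refine ⟨τ, Prod.ext ?_ e2⟩
    change -t D.1 * -t D.1 = τ • -t c.1
    rw [neg_mul_neg, ← T.mul, e1, map_neg, map_smul, smul_neg])
    (by
      intro U hU
      refine T.irr (S := {D | ∃ D' ∈ g, D = D'.1}) ?_ U ?_
      · intro W hW
        exact hirr₁ W fun D hD w hw => hW _ ⟨D, hD, rfl⟩ w hw
      · rintro _ ⟨D, hD, rfl⟩ θ hθ
        have := U.neg_mem (hU (S D) ⟨D, hD, rfl⟩ θ hθ)
        have e1 : -((S D).1 θ) = t D.1 θ := by
          change -((-t D.1) θ) = t D.1 θ
          rw [LinearMap.neg_apply, neg_neg]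
        rwa [e1] at this)
    (by
      intro U hU
      exact hirr₂ U fun D hD w hw => hU (S D) ⟨D, hD, rfl⟩ w hw)
  -- the pairing
  have hsinj : Function.Injective s := by
    rw [injective_iff_map_eq_zero]
    intro x hx
    exact T.nd x fun y => by rw [hx, LinearMap.zero_apply]
  refine ⟨(s.comp Φ.symm.toLinearMap).flip, fun D => -χ (S D), ?_, ?_, ?_⟩
  · intro x hx
    apply T.nd
    intro y
    have := hx (Φ y)
    rw [LinearMap.flip_apply, LinearMap.comp_apply, LinearEquiv.coe_coe,
      LinearEquiv.symm_apply_apply] at this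
    rw [T.sym, this]
  · intro y hy
    have h3 : Φ.symm y = 0 := by
      apply T.nd
      intro v
      exact hy v
    rw [← Φ.apply_symm_apply y, h3, map_zero]
  · intro D hD u v
    have e1 := hΦ (S D) ⟨D, hD, rfl⟩ (Φ.symm v)
    rw [LinearEquiv.apply_symm_apply] at e1
    have e2 : (S D).1 (Φ.symm v) = Φ.symm (D.2 v + χ (S D) • v) := by
      apply Φ.injective
      rw [e1, LinearEquiv.apply_symm_apply]
      rfl
    have e3 : s ((S D).1 (Φ.symm v)) u = s (Φ.symm (D.2 v + χ (S D) • v)) u := by rw [e2]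
    have e4 : s ((S D).1 (Φ.symm v)) u = -(s (Φ.symm v) (D.1 u)) := by
      change s (-(t D.1) (Φ.symm v)) u = _
      rw [map_neg, LinearMap.neg_apply, T.adj, T.tt]
    rw [e4, map_add, map_smul, map_add, map_smul, LinearMap.add_apply, LinearMap.smul_apply,
      smul_eq_mul] at e3
    simp only [LinearMap.flip_apply, LinearMap.comp_apply, LinearEquiv.coe_coe]
    linear_combination -e3

/-- For idempotents which are not scalar the multiplier is one. -/
theorem mult_one {φ : V₁ →ₗ[K] V₂ →ₗ[K] K} (hl : ∀ x, (∀ y, φ x y = 0) → x = 0)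
    {e : Module.End K V₁} {e' : Module.End K V₂}
    (hee : e * e = e) (hee' : e' * e' = e') (h0 : e ≠ 0) (h1 : e ≠ 1) {μ : K}
    (hμ : ∀ u v, φ (e u) v + φ u (e' v) = μ * φ u v) : μ = 1 := by
  by_contra hne
  have hee1 : ∀ u, e (e u) = e u := fun u => by rw [← Module.End.mul_apply, hee]
  have hee2 : ∀ u, e' (e' u) = e' u := fun u => by rw [← Module.End.mul_apply, hee']
  -- image of `e` and kernel of `e'`
  have a1 : ∀ u v, φ (e u) (v - e' v) = 0 := by
    intro u v
    have e1 := hμ (e u) (v - e' v)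
    rw [hee1, map_sub e', hee2, sub_self, map_zero, add_zero] at e1
    have e2 : (μ - 1) * φ (e u) (v - e' v) = 0 := by linear_combination -e1
    rcases mul_eq_zero.1 e2 with h | h
    · exact absurd (sub_eq_zero.1 h) hne
    · exact h
  have a2 : ∀ u v, φ (u - e u) (e' v) = 0 := by
    intro u v
    have e1 := hμ (u - e u) (e' v)
    rw [hee2, map_sub e, hee1, sub_self, map_zero, LinearMap.zero_apply, zero_add] at e1
    have e2 : (μ - 1) * φ (u - e u) (e' v) = 0 := by linear_combination -e1
    rcases mul_eq_zero.1 e2 with h | h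
    · exact absurd (sub_eq_zero.1 h) hne
    · exact h
  by_cases h2 : μ = 2
  · apply h1
    ext u
    rw [Module.End.one_apply, eq_comm, ← sub_eq_zero]
    apply hl
    intro v
    have e1 : φ (u - e u) (v - e' v) = 0 := by
      have e1 := hμ (u - e u) (v - e' v)
      rw [map_sub e, hee1, sub_self, map_sub e', hee2, sub_self, map_zero, map_zero,
        LinearMap.zero_apply, zero_add, h2] at e1
      rcases mul_eq_zero.1 e1.symm with h | h
      · exact absurd h two_ne_zero
      · exact h
    have e2 : v = (v - e' v) + e' v := by abel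
    rw [e2, map_add, e1, a2, add_zero]
  · apply h0
    ext u
    rw [LinearMap.zero_apply]
    apply hl
    intro v
    have e1 : φ (e u) (e' v) = 0 := by
      have e1 := hμ (e u) (e' v)
      rw [hee1, hee2] at e1
      have e2 : (μ - 2) * φ (e u) (e' v) = 0 := by linear_combination -e1
      rcases mul_eq_zero.1 e2 with h | h
      · exact absurd (sub_eq_zero.1 h) h2
      · exact h
    have e2 : v = (v - e' v) + e' v := by abel
    rw [e2, map_add, e1, a1, add_zero]

/-- For idempotents which are not scalar the character is zero. -/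
theorem char_zero (φ : V₁ ≃ₗ[K] V₂) {e : Module.End K V₁} {e' : Module.End K V₂}
    (hee : e * e = e) (hee' : e' * e' = e') (h0 : e' ≠ 0) (h1 : e' ≠ 1) {χ : K}
    (hχ : ∀ u, φ (e u) = e' (φ u) + χ • φ u) : χ = 0 := by
  by_contra hne
  have hee1 : ∀ u, e (e u) = e u := fun u => by rw [← Module.End.mul_apply, hee]
  have hee2 : ∀ u, e' (e' u) = e' u := fun u => by rw [← Module.End.mul_apply, hee']
  have a1 : ∀ w, (2 : K) • e' w = (1 - χ) • w := by
    intro w
    obtain ⟨u, rfl⟩ := φ.surjective w
    have e1 := hχ (e u)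
    rw [hee1, hχ u, map_add, map_smul, hee2, smul_add, smul_smul] at e1
    have e2 : χ • ((2 : K) • e' (φ u) - (1 - χ) • φ u) = 0 := by
      have e3 : χ • ((2 : K) • e' (φ u) - (1 - χ) • φ u) =
          (e' (φ u) + χ • e' (φ u) + (χ • e' (φ u) + (χ * χ) • φ u)) -
            (e' (φ u) + χ • φ u) := by module
      rw [e3, ← e1, sub_self]
    rcases smul_eq_zero.1 e2 with h | h
    · exact absurd h hne
    · exact sub_eq_zero.1 h
  have a2 : ∀ w : V₂, ((1 - χ) * (1 + χ)) • w = 0 := by
    intro w
    have e1 := a1 w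
    have e2 := a1 (e' w)
    rw [hee2] at e2
    have e3 : (1 + χ) • e' w = 0 := by
      have : (1 + χ) • e' w = (2 : K) • e' w - (1 - χ) • e' w := by module
      rw [this, e2, sub_self]
    calc ((1 - χ) * (1 + χ)) • w = (1 + χ) • ((1 - χ) • w) := by module
      _ = (2 : K) • ((1 + χ) • e' w) := by rw [← e1]; module
      _ = 0 := by rw [e3, smul_zero]
  obtain ⟨w, hw⟩ : ∃ w, e' w ≠ 0 := by
    by_contra h
    push Not at h
    exact h0 (LinearMap.ext h)
  have hw0 : w ≠ 0 := by
    rintro rfl
    exact hw (map_zero _)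
  rcases smul_eq_zero.1 (a2 w) with h | h
  · rcases mul_eq_zero.1 h with h3 | h3
    · have e1 := a1 w
      rw [h3, zero_smul] at e1
      rcases smul_eq_zero.1 e1 with h4 | h4
      · exact (two_ne_zero (α := K)) h4
      · exact hw h4
    · apply h1
      ext w'
      have e1 := a1 w'
      have e2 : (1 - χ) = (2 : K) := by linear_combination -h3
      rw [e2] at e1
      exact smul_right_injective V₂ (two_ne_zero (α := K)) e1
  · exact hw0 h

end Pair

end Pool.Agent.TypeIV
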