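import Pool.Agent.TypeIV.Dual

/-!
# An ideal that contains an extremal element of rank one contains all operators of trace zero

`g` acts irreducibly on `V`, `c` and `f` are an extremal pair of rank one, and the square of some
element of weight one is not zero.
-/

set_option autoImplicit false
set_option linter.unusedSectionVars false

namespace Pool.Agent.TypeIV

open Pool.Agent.OddRank (gen gen_self gen_stable gen_le gen_stab)

variable {K : Type*} [Field K] [CharZero K] {V : Type*} [AddCommGroup V] [Module K V]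
  [FiniteDimensional K V] {g : Submodule K (Module.End K V)} {c f P Q R : Module.End K V}

/-- the row of weight one -/
theorem row_full (B : Tri g c f P Q R) (hP : Line P)
    (hirr : ∀ U : Submodule K V, (∀ D ∈ g, ∀ w ∈ U, D w ∈ U) → U = ⊥ ∨ U = ⊤)
    (Z : Module.End K V) : ∃ D ∈ g, P * Z * R = P * D * R := by
  obtain ⟨a, θ, ha, hP⟩ := hP
  let F : Module.End K V →ₗ[K] Module.Dual K V :=
    { toFun := fun D => θ.comp (D * R)
      map_add' := fun x y => by
        ext w
        simp
      map_smul' := fun r x => by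
        ext w
        simp }
  have hF : ∀ D w, F D w = θ (D (R w)) := fun _ _ => rfl
  have hPDR : ∀ D, P * D * R = (F D).smulRight a := by
    intro D
    ext w
    rw [hP]
    rfl
  have hPa : P a = a := by rw [hP, LinearMap.smulRight_apply, ha, one_smul]
  have ha0 : a ≠ 0 := by
    rintro rfl
    rw [map_zero] at ha
    exact zero_ne_one ha
  have hPw : ∀ (D : Module.End K V) (w : V), θ (D w) = 0 → P (D w) = 0 := by
    intro D w h
    rw [hP, LinearMap.smulRight_apply, h, zero_smul]
  have key : ∀ w ∈ (g.map F).dualCoannihilator, R w = 0 := by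
    intro w hw
    rw [Submodule.mem_dualCoannihilator] at hw
    have hw' : ∀ D ∈ g, θ (D (R w)) = 0 := fun D hD => hw _ ⟨D, hD, rfl⟩
    have hst := gen_stab (N := {y | y ∈ g ∧ P * y * R = 0 ∧ R * y * Q = 0 ∧ P * y * Q = 0})
      (w := R w) (D := g) ?_ ?_
    · have hle : gen {y | y ∈ g ∧ P * y * R = 0 ∧ R * y * Q = 0 ∧ P * y * Q = 0} (R w) ≤
          LinearMap.ker P := by
        refine gen_le ?_ ?_
        · rw [LinearMap.mem_ker, ← Module.End.mul_apply, B.PR, LinearMap.zero_apply]
        · rintro y ⟨_, h1, _, h3⟩ u hu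
          rw [LinearMap.mem_ker] at hu ⊢
          have h4 : P * y = P * y * P := by
            calc P * y = P * y * (P + Q + R) := by rw [← B.one_eq, mul_one]
              _ = P * y * P := by rw [mul_add, mul_add, h1, h3, add_zero, add_zero]
          rw [← Module.End.mul_apply, h4, Module.End.mul_apply, hu, map_zero]
      rcases hirr _ hst with h | h
      · have h1 := gen_self {y | y ∈ g ∧ P * y * R = 0 ∧ R * y * Q = 0 ∧ P * y * Q = 0} (R w)
        rw [h, Submodule.mem_bot] at h1
        exact h1
      · exfalso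
        have h1 : a ∈ LinearMap.ker P := hle (h ▸ Submodule.mem_top)
        rw [LinearMap.mem_ker, hPa] at h1
        exact ha0 h1
    · intro D hD
      have hy : D - (P * D * R + R * D * Q) - P * D * Q ∈
          ({y | y ∈ g ∧ P * y * R = 0 ∧ R * y * Q = 0 ∧ P * y * Q = 0} :
            Set (Module.End K V)) := by
        refine ⟨g.sub_mem (g.sub_mem hD (B.up_mem hD)) (B.two_mem hD), ?_, ?_, ?_⟩ <;>
        simp only [mul_sub, sub_mul, mul_add, mul_assoc, B.PPa, B.RR, B.PRa, B.QR,
          B.RPa, B.RRa, B.RQ, B.QQ, mul_zero, sub_self, sub_zero, add_zero, zero_add]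
      have h1 := gen_stable _ (R w) hy (gen_self _ (R w))
      have h2 : (D - (P * D * R + R * D * Q) - P * D * Q) (R w) = D (R w) := by
        have e1 : (P * D * R) (R w) = 0 := by
          rw [mul_assoc, Module.End.mul_apply, Module.End.mul_apply, ← Module.End.mul_apply R R,
            B.RR, hPw D (R w) (hw' D hD)]
        have e2 : Q (R w) = 0 := by
          rw [← Module.End.mul_apply, B.QR, LinearMap.zero_apply]
        rw [LinearMap.sub_apply, LinearMap.sub_apply, LinearMap.add_apply, e1,
          Module.End.mul_apply (R * D), e2, Module.End.mul_apply (P * D), e2, map_zero, map_zero,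
          add_zero, sub_zero, sub_zero]
      rwa [h2] at h1
    · rintro D hD y ⟨hy, _⟩
      exact B.lie _ hD _ hy
  have hmem : F Z ∈ (g.map F).dualCoannihilator.dualAnnihilator := by
    rw [Submodule.mem_dualAnnihilator]
    intro w hw
    rw [hF, key w hw, map_zero, map_zero]
  rw [Subspace.dualCoannihilator_dualAnnihilator_eq] at hmem
  obtain ⟨D, hD, hDZ⟩ := hmem
  exact ⟨D, hD, by rw [hPDR, hPDR, hDZ]⟩

/-- the column of weight one -/
theorem col_full (B : Tri g c f P Q R) (hQ : Line Q)
    (hirr : ∀ U : Submodule K V, (∀ D ∈ g, ∀ w ∈ U, D w ∈ U) → U = ⊥ ∨ U = ⊤)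
    (Z : Module.End K V) : ∃ D ∈ g, R * Z * Q = R * D * Q := by
  obtain ⟨b, η, hb, hQ⟩ := hQ
  have hQw : ∀ w, Q w = η w • b := by
    intro w
    rw [hQ, LinearMap.smulRight_apply]
  have hQb : Q b = b := by rw [hQw, hb, one_smul]
  have hRb : R b = 0 := by rw [← hQb, ← Module.End.mul_apply, B.RQ, LinearMap.zero_apply]
  let F : Module.End K V →ₗ[K] V :=
    { toFun := fun D => R (D b)
      map_add' := fun x y => by simp
      map_smul' := fun r x => by simp }
  have hF : ∀ D, F D = R (D b) := fun _ => rfl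
  have hst : ∀ D ∈ g, ∀ w ∈ (g.map F).comap R, D w ∈ (g.map F).comap R := by
    rintro D hD w ⟨D', hD', hw⟩
    rw [hF] at hw
    rw [Submodule.mem_comap]
    have e0 : w = P w + Q w + R w := by
      rw [← LinearMap.add_apply, ← LinearMap.add_apply, ← B.one_eq, Module.End.one_apply]
    -- the component `Q w`
    have h1 : R (D (Q w)) ∈ g.map F := by
      rw [hQw, map_smul, map_smul]
      exact Submodule.smul_mem _ _ ⟨D, hD, rfl⟩
    -- the component `P w`
    have h2 : R (D (P w)) ∈ g.map F := by
      have e1 : P w = η (f w) • c b := by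
        rw [← B.cf, Module.End.mul_apply]
        have e2 : f w = Q (f w) := by rw [← Module.End.mul_apply, B.Qf]
        rw [e2, hQw, map_smul, map_smul, hb, smul_eq_mul, mul_one]
      rw [e1, map_smul, map_smul]
      refine Submodule.smul_mem _ _ ⟨_, B.lie _ (B.dn_mem hD) _ B.cg, ?_⟩
      rw [hF]
      have e3 : R * ((R * D * P + Q * D * R) * c - c * (R * D * P + Q * D * R)) = R * D * c := by
        simp only [mul_sub, mul_add, add_mul, mul_assoc, B.Pc, B.Rc, B.RRa, mul_zero, add_zero]
        simp only [← mul_assoc, B.Rc, zero_mul, add_zero, sub_zero]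
      rw [← Module.End.mul_apply, e3]
      rfl
    -- the component `R w`
    have h3 : R (D (R w)) ∈ g.map F := by
      rw [← hw]
      have hD0 : D - (P * D * R + R * D * Q) - (R * D * P + Q * D * R) - P * D * Q - Q * D * P ∈
          g := g.sub_mem (g.sub_mem (g.sub_mem (g.sub_mem hD (B.up_mem hD)) (B.dn_mem hD))
            (B.two_mem hD)) (B.mtwo_mem hD)
      obtain ⟨D₀, hD₀⟩ : ∃ D₀, D₀ = D - (P * D * R + R * D * Q) - (R * D * P + Q * D * R) -
        P * D * Q - Q * D * P := ⟨_, rfl⟩
      rw [← hD₀] at hD0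
      have hx := B.up_up hD'
      obtain ⟨x, hxd⟩ : ∃ x, x = P * D' * R + R * D' * Q := ⟨_, rfl⟩
      rw [← hxd] at hx
      have e1 : R * D₀ = R * D * R := by
        have e4 : R * D * R = R * D - R * D * P - R * D * Q := by
          calc R * D * R = R * D * (1 - P - Q) := by rw [← B.hR]
            _ = _ := by rw [mul_sub, mul_sub, mul_one]
        rw [hD₀, e4]
        simp only [mul_sub, mul_add, ← mul_assoc, B.RR, B.RP, B.RQ, zero_mul, zero_add, add_zero,
          sub_zero]
        abel
      have e2 : D₀ * Q = Q * D * Q := by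
        have e4 : R * D * Q = D * Q - P * D * Q - Q * D * Q := by
          calc R * D * Q = (1 - P - Q) * D * Q := by rw [← B.hR]
            _ = _ := by rw [sub_mul, sub_mul, sub_mul, sub_mul, one_mul]
        rw [hD₀]
        simp only [sub_mul, add_mul, mul_assoc _ R Q, mul_assoc _ Q Q, mul_assoc _ P Q, B.RQ, B.QQ,
          B.PQ, mul_zero, zero_add, add_zero, sub_zero]
        rw [e4]
        abel
      have e3 : x b = R (D' b) := by
        rw [hxd, LinearMap.add_apply, Module.End.mul_apply, hRb, map_zero, zero_add,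
          Module.End.mul_apply, hQb]
        rfl
      have e5 : R (R (D' b)) = R (D' b) := by rw [← Module.End.mul_apply, B.RR]
      have e6 : D₀ b = η (D b) • b := by
        have e7 : D₀ b = (D₀ * Q) b := by rw [Module.End.mul_apply, hQb]
        rw [e7, e2, Module.End.mul_apply, hQb, Module.End.mul_apply, hQw]
      have e8 : R (D (R (D' b))) = F (D₀ * x - x * D₀) + η (D b) • F D' := by
        rw [hF, hF, LinearMap.sub_apply, map_sub, Module.End.mul_apply, e3,
          Module.End.mul_apply x, e6, map_smul, map_smul, e3, e5, ← Module.End.mul_apply R D₀, e1]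
        simp only [Module.End.mul_apply, e5]
        abel
      rw [e8]
      exact Submodule.add_mem _ ⟨_, B.lie _ hD0 _ hx.mem, rfl⟩
        (Submodule.smul_mem _ _ ⟨_, hD', rfl⟩)
    rw [e0, map_add, map_add, map_add, map_add]
    exact Submodule.add_mem _ (Submodule.add_mem _ h2 h1) h3
  have hb0 : b ≠ 0 := by
    rintro rfl
    rw [map_zero] at hb
    exact zero_ne_one hb
  rcases hirr _ hst with h | h
  · exfalso
    have h1 : b ∈ (g.map F).comap R := by
      rw [Submodule.mem_comap, hRb]
      exact Submodule.zero_mem _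
    rw [h, Submodule.mem_bot] at h1
    exact hb0 h1
  · have h1 : Z b ∈ (g.map F).comap R := h ▸ Submodule.mem_top
    obtain ⟨D, hD, h2⟩ := h1
    refine ⟨D, hD, ?_⟩
    have h3 : R (D b) = R (Z b) := h2
    ext w
    simp only [Module.End.mul_apply, hQw, map_smul]
    rw [h3]

/-- the other idempotent -/
theorem line_Q (B : Tri g c f P Q R) (hP : Line P) : Line Q := by
  obtain ⟨a, θ, ha, hP⟩ := hP
  refine ⟨f a, θ.comp c, ?_, ?_⟩
  · have h1 : P a = a := by rw [hP, LinearMap.smulRight_apply, ha, one_smul]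
    have h2 : c (f a) = a := by rw [← Module.End.mul_apply, B.cf, h1]
    rw [LinearMap.comp_apply, h2, ha]
  · ext w
    rw [LinearMap.smulRight_apply, LinearMap.comp_apply, ← map_smul]
    have h1 : θ (c w) • a = P (c w) := by rw [hP, LinearMap.smulRight_apply]
    rw [h1, ← Module.End.mul_apply P c, B.Pc, ← Module.End.mul_apply, B.fc]

/-- the component of weight two is a multiple of `c` -/
theorem line_two (B : Tri g c f P Q R) (hP : Line P) (Z : Module.End K V) :
    ∃ κ : K, P * Z * Q = κ • c := by
  refine ⟨LinearMap.trace K V (P * (Z * f)), ?_⟩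
  have h := hP.mul_mul (Z * f)
  have h1 : P * Z * Q = P * (Z * f) * P * c := by
    simp only [mul_assoc, B.Pc, B.fc]
  rw [h1, h, smul_mul_assoc, B.Pc]

theorem sq_line (B : Tri g c f P Q R) (hP : Line P) {x : Module.End K V} (hx : Up g P Q R x) :
    ∃ τ : K, x * x = τ • c := by
  rw [B.up_mul hx hx]
  exact line_two B hP _

theorem Up.smul_add {x y : Module.End K V} (hx : Up g P Q R x) (hy : Up g P Q R y) (t : K) :
    Up g P Q R (y + t • x) := by
  refine ⟨g.add_mem hy.mem (g.smul_mem t hx.mem), ?_⟩
  have h1 := hx.eq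
  have h2 := hy.eq
  have h3 : P * (y + t • x) * R + R * (y + t • x) * Q =
      (P * y * R + R * y * Q) + t • (P * x * R + R * x * Q) := by
    simp only [mul_add, add_mul, mul_smul_comm, smul_mul_assoc]
    module
  rw [h3, ← h1, ← h2]

/-- If some square is not zero the components of weight one belong to `g`. -/
theorem cubic_all (B : Tri g c f P Q R) (hP : Line P) {x : Module.End K V}
    (hx : Up g P Q R x) (hxx : x * x ≠ 0) {y : Module.End K V} (hy : Up g P Q R y) :
    P * y ∈ g := by
  have h1 : ∀ z, Up g P Q R z → z * z ≠ 0 → P * z ∈ g := by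
    intro z hz hzz
    obtain ⟨τ, hτ⟩ := sq_line B hP hz
    have hτ0 : τ ≠ 0 := by
      rintro rfl
      rw [zero_smul] at hτ
      exact hzz hτ
    have h2 := B.up_cubic hz hτ
    have h3 := g.smul_mem τ⁻¹ h2
    rw [smul_smul, inv_mul_cancel₀ hτ0, one_smul] at h3
    have h4 := g.smul_mem (2⁻¹ : K) (g.add_mem h3 hz.mem)
    convert h4 using 1
    have h5 := B.up_eq hz
    have h6 : P * z - z * Q + z = (2 : K) • (P * z) := by
      conv_lhs => rw [h5]
      rw [two_smul]
      have e1 : P * (P * z + z * Q) = P * z := by rw [← h5]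
      have e2 : (P * z + z * Q) * Q = z * Q := by rw [← h5]
      rw [e1, e2]
      abel
    rw [h6, smul_smul, inv_mul_cancel₀ (two_ne_zero), one_smul]
  by_cases hyx : (y + (1 : K) • x) * (y + (1 : K) • x) = 0
  · have h2 : (y + (-1 : K) • x) * (y + (-1 : K) • x) ≠ 0 ∨ y * y ≠ 0 := by
      by_contra hcon
      push Not at hcon
      apply hxx
      have e1 : (2 : K) • (x * x) = (y + (1 : K) • x) * (y + (1 : K) • x) +
          (y + (-1 : K) • x) * (y + (-1 : K) • x) - (2 : K) • (y * y) := by
        simp only [mul_add, add_mul, mul_smul_comm, smul_mul_assoc]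
        module
      rw [hyx, hcon.1, hcon.2, smul_zero, sub_zero, add_zero] at e1
      rcases smul_eq_zero.1 e1 with h | h
      · exact absurd h two_ne_zero
      · exact h
    rcases h2 with h2 | h2
    · have h3 := h1 _ (hx.smul_add hy (-1)) h2
      have h4 := g.add_mem h3 (h1 x hx hxx)
      convert h4 using 1
      rw [mul_add, mul_smul_comm]
      module
    · exact h1 y hy h2
  · have h3 := h1 _ (hx.smul_add hy 1) hyx
    have h4 := g.sub_mem h3 (h1 x hx hxx)
    convert h4 using 1
    rw [mul_add, mul_smul_comm]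
    module

/-- all operators of trace zero belong to the ideal -/
theorem full_ideal (B : Tri g c f P Q R) (hL : Line P) (hP : ∀ Z, P * Z * R ∈ g)
    (hQ : ∀ Z, R * Z * Q ∈ g) {I : Submodule K (Module.End K V)}
    (hI : ∀ D ∈ g, ∀ x ∈ I, D * x - x * D ∈ I) (hc : c ∈ I) {Z : Module.End K V}
    (hZ : LinearMap.trace K V Z = 0) : Z ∈ I := by
  have hI' : ∀ D ∈ g, ∀ x ∈ I, x * D - D * x ∈ I := by
    intro D hD x hx
    rw [← neg_sub]
    exact I.neg_mem (hI D hD x hx)
  have h1 : P - Q ∈ I := by
    rw [← B.cf, ← B.fc]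
    exact hI' _ B.fg _ hc
  have h2 : f ∈ I := by
    have h := I.smul_mem (2⁻¹ : K) (hI _ B.fg _ h1)
    convert h using 1
    rw [mul_sub, sub_mul, B.fP, B.fQ, B.Pf, B.Qf, eq_inv_smul_iff₀ (two_ne_zero), two_smul]
    abel
  have h3 : ∀ Z, P * Z * R ∈ I := by
    intro Z
    have h := hI' _ (hP Z) _ h1
    convert h using 1
    simp only [mul_sub, sub_mul, mul_assoc, B.PPa, B.QPa, B.RP, B.RQ, mul_zero, sub_zero]
  have h4 : ∀ Z, R * Z * Q ∈ I := by
    intro Z
    have h := hI _ (hQ Z) _ h1
    have h' := I.neg_mem h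
    convert h' using 1
    simp only [mul_sub, sub_mul, mul_assoc, B.PRa, B.QRa, B.QP, B.QQ, mul_zero, sub_zero, zero_sub,
      neg_neg]
  have h5 : ∀ Z, R * Z * P ∈ I := by
    intro Z
    have h := hI' _ B.fg _ (h4 (Z * c))
    convert h using 1
    rw [show R * (Z * c) * Q * f = R * Z * P by
      rw [mul_assoc _ Q f, B.Qf, ← B.cf]
      simp only [mul_assoc], show f * (R * (Z * c) * Q) = 0 by
      simp only [← mul_assoc, B.fR, zero_mul], sub_zero]
  have h6 : ∀ Z, Q * Z * R ∈ I := by
    intro Z
    have h := hI _ B.fg _ (h3 (c * Z))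
    convert h using 1
    rw [show f * (P * (c * Z) * R) = Q * Z * R by
      simp only [← mul_assoc, B.fP, B.fc], show P * (c * Z) * R * f = 0 by
      rw [mul_assoc, B.Rf, mul_zero], sub_zero]
  have hPZP : ∀ Z, ∃ κ : K, P * Z * P = κ • P := fun Z => ⟨_, hL.mul_mul Z⟩
  have h7 : ∀ Z, P * Z * Q ∈ I := by
    intro Z
    obtain ⟨κ, hκ⟩ := line_two B hL Z
    rw [hκ]
    exact I.smul_mem _ hc
  have h8 : ∀ Z, Q * Z * P ∈ I := by
    intro Z
    obtain ⟨κ, hκ⟩ := hPZP (c * Z)
    have e : Q * Z * P = f * (P * (c * Z) * P) := by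
      simp only [← mul_assoc, B.fP, B.fc]
    rw [e, hκ, mul_smul_comm, B.fP]
    exact I.smul_mem _ h2
  have hQZQ : ∀ Z, ∃ κ : K, Q * Z * Q = κ • Q := by
    intro Z
    obtain ⟨κ, hκ⟩ := hPZP (c * Z * f)
    refine ⟨κ, ?_⟩
    have e : Q * Z * Q = f * (P * (c * Z * f) * P) * c := by
      simp only [mul_assoc, B.Pc]
      rw [B.fc, ← mul_assoc f P, B.fP, ← mul_assoc f c, B.fc]
    rw [e, hκ, mul_smul_comm, B.fP, smul_mul_assoc, B.fc]
  have htrP : LinearMap.trace K V P = 1 := by
    obtain ⟨a, θ, ha, rfl⟩ := hL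
    rw [LinearMap.trace_smulRight, ha]
  have htrQ : LinearMap.trace K V Q = 1 := by
    rw [← B.fc, LinearMap.trace_mul_comm, B.cf, htrP]
  -- the block `R Z R`
  let L : Module.End K V →ₗ[K] Module.End K V :=
    { toFun := fun Z => R * Z * R - LinearMap.trace K V (R * Z * R) • P
      map_add' := fun x y => by
        simp only [mul_add, add_mul, map_add]
        module
      map_smul' := fun r x => by
        simp only [mul_smul_comm, smul_mul_assoc, map_smul, smul_eq_mul, RingHom.id_apply]
        module }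
  have hL' : ∀ Z, L Z = R * Z * R - LinearMap.trace K V (R * Z * R) • P := fun _ => rfl
  have h9 : ∀ (α : Module.Dual K V) (v : V), L (α.smulRight v) ∈ I := by
    intro α v
    obtain ⟨a, θ, ha, hPa⟩ := hL
    have hPa1 : P a = a := by rw [hPa, LinearMap.smulRight_apply, ha, one_smul]
    have h := hI _ (g.smul_mem (1 : K) (hP (α.smulRight a))) _ (h5 (θ.smulRight v))
    have h' := I.neg_mem h
    convert h' using 1
    have hRR : ∀ w, R (R w) = R w := fun w => by rw [← Module.End.mul_apply, B.RR]
    have e1 : R * (α.smulRight v) * R = (α.comp R).smulRight (R v) := by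
      ext w
      simp [Module.End.mul_apply]
    have e2 : P * (α.smulRight a) * R = (α.comp R).smulRight a := by
      ext w
      simp [Module.End.mul_apply, hPa1]
    have e3 : R * (θ.smulRight v) * P = θ.smulRight (R v) := by
      ext w
      simp [Module.End.mul_apply, hPa, ha]
    rw [hL', e1, e2, e3, LinearMap.trace_smulRight, one_smul]
    ext w
    simp only [LinearMap.sub_apply, LinearMap.smul_apply, LinearMap.smulRight_apply,
      LinearMap.comp_apply, LinearMap.neg_apply, Module.End.mul_apply, map_smul, hRR, hPa, ha]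
    module
  have h10 : ∀ Z, L Z ∈ I := by
    intro Z
    let bb := Module.finBasis K V
    have e : Z = ∑ i, (bb.coord i).smulRight (Z (bb i)) := by
      ext w
      conv_lhs => rw [← bb.sum_repr w]
      rw [map_sum, LinearMap.sum_apply]
      exact Finset.sum_congr rfl fun i _ => by
        rw [map_smul, LinearMap.smulRight_apply, Module.Basis.coord_apply]
    rw [e, map_sum]
    exact Submodule.sum_mem _ fun i _ => h9 _ _
  -- conclusion
  obtain ⟨p, hp⟩ := hPZP Z
  obtain ⟨q, hq⟩ := hQZQ Z
  have e1 : Z = P * Z * P + Q * Z * Q + R * Z * R + P * Z * Q + P * Z * R + Q * Z * P +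
      Q * Z * R + R * Z * P + R * Z * Q := by
    calc Z = (P + Q + R) * Z * (P + Q + R) := by rw [← B.one_eq, one_mul, mul_one]
      _ = _ := by
        simp only [mul_add, add_mul]
        abel
  have e2 : ∀ A A' : Module.End K V, A' * A = 0 → LinearMap.trace K V (A * Z * A') = 0 := by
    intro A A' h
    rw [LinearMap.trace_mul_comm, ← mul_assoc, h, zero_mul, map_zero]
  have e3 : p + q + LinearMap.trace K V (R * Z * R) = 0 := by
    have e4 := congrArg (LinearMap.trace K V) e1
    simp only [map_add] at e4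
    rw [hZ, e2 _ _ B.QP, e2 _ _ B.RP, e2 _ _ B.PQ, e2 _ _ B.RQ, e2 _ _ B.PR, e2 _ _ B.QR, hp, hq,
      map_smul, map_smul, htrP, htrQ, smul_eq_mul, smul_eq_mul, mul_one, mul_one] at e4
    rw [e4]
    ring
  have e5 : Z = L Z - q • (P - Q) + P * Z * Q + P * Z * R + Q * Z * P +
      Q * Z * R + R * Z * P + R * Z * Q := by
    have e6 : P * Z * P + Q * Z * Q + R * Z * R = L Z - q • (P - Q) := by
      rw [hL', hp, hq]
      have e7 : p = -q - LinearMap.trace K V (R * Z * R) := by linear_combination e3
      rw [e7]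
      module
    rw [← e6]
    exact e1
  rw [e5]
  exact add_mem (add_mem (add_mem (add_mem (add_mem (add_mem (sub_mem (h10 Z)
    (I.smul_mem _ h1)) (h7 Z)) (h3 Z)) (h8 Z)) (h6 Z)) (h5 Z)) (h4 Z)

end Pool.Agent.TypeIV
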