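import Pool.Agent.TypeIV.Tri
import Pool.Agent.OddRank.Rank

/-!
# Two representations with proportional corners are isomorphic
-/

set_option autoImplicit false
set_option linter.unusedSectionVars false

namespace Pool.Agent.TypeIV

open Pool.Agent.OddRank (gen gen_self gen_stable gen_le gen_stab)

section Gen

variable {K A : Type*} [Field K] [CharZero K] [Ring A] [Algebra K A]
variable {g : Submodule K A} {c f P Q R : A}

/-- In a representation `ρ` the smallest subspace that contains a vector of `P` and is stable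
under all `y` with `P y = 0` is stable under `g` if all `P D P` are multiples of `P`. -/
theorem Tri.gen_inv (B : Tri g c f P Q R) (hsc : ∀ D ∈ g, ∃ κ : K, P * D * P = κ • P)
    {V' : Type*} [AddCommGroup V'] [Module K V']
    (ρ : A →ₐ[K] Module.End K V') {a : V'} (ha : ρ P a = a) :
    (∀ D ∈ g, ∀ u ∈ gen {z | ∃ y ∈ g, P * y = 0 ∧ z = ρ y} a,
      ρ D u ∈ gen {z | ∃ y ∈ g, P * y = 0 ∧ z = ρ y} a) ∧
    (∀ u ∈ gen {z | ∃ y ∈ g, P * y = 0 ∧ z = ρ y} a, ρ P u ∈ K ∙ a) := by
  set N : Set (Module.End K V') := {z | ∃ y ∈ g, P * y = 0 ∧ z = ρ y} with hN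
  constructor
  · have hst := gen_stab (N := N) (w := a) (D := {z | ∃ D ∈ g, z = ρ D}) ?_ ?_
    · intro D hD u hu
      exact hst _ ⟨D, hD, rfl⟩ u hu
    · rintro _ ⟨D, hD, rfl⟩
      obtain ⟨κ, h⟩ := hsc D hD
      obtain ⟨κ', h'⟩ := B.mtwo hD
      have h1 : ρ D a = κ • a + ρ (R * D * P + Q * D * R) a + κ' • ρ f a := by
        have h2 : ρ R a = 0 := by
          rw [← ha, ← Module.End.mul_apply, ← map_mul, B.RP, map_zero, LinearMap.zero_apply]
        have h3 : ρ D a = ρ (P * D * P + R * D * P + Q * D * P) a := by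
          calc ρ D a = ρ ((P + Q + R) * D * P) a := by
                rw [← B.one_eq, one_mul, map_mul, Module.End.mul_apply, ha]
            _ = _ := by
                congr 2
                simp only [add_mul]
                abel
        rw [h3, h, h']
        simp only [map_add, map_smul, LinearMap.add_apply, LinearMap.smul_apply, ha]
        rw [map_mul ρ (Q * D) R, Module.End.mul_apply, h2, map_zero, add_zero]
      rw [h1]
      refine add_mem (add_mem (Submodule.smul_mem _ _ (gen_self N a)) ?_)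
        (Submodule.smul_mem _ _ ?_)
      · refine gen_stable N a ⟨_, B.dn_mem hD, ?_, rfl⟩ (gen_self N a)
        simp only [mul_add, ← mul_assoc, B.PR, B.PQ, zero_mul, add_zero]
      · exact gen_stable N a ⟨_, B.fg, B.Pf, rfl⟩ (gen_self N a)
    · rintro _ ⟨D, hD, rfl⟩ _ ⟨y, hy, hPy, rfl⟩
      refine ⟨_, B.lie _ hD _ hy, ?_⟩
      rw [map_sub, map_mul, map_mul]
  · have hle : gen N a ≤ (K ∙ a).comap (ρ P) := by
      refine gen_le ?_ ?_
      · rw [Submodule.mem_comap, ha]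
        exact Submodule.mem_span_singleton_self a
      · rintro _ ⟨y, _, hy, rfl⟩ u _
        rw [Submodule.mem_comap, ← Module.End.mul_apply, ← map_mul, hy, map_zero,
          LinearMap.zero_apply]
        exact zero_mem _
    exact fun u hu => hle hu

end Gen

section Graph

variable {K : Type*} [Field K] [CharZero K]
  {V₁ : Type*} [AddCommGroup V₁] [Module K V₁]
  {V₂ : Type*} [AddCommGroup V₂] [Module K V₂]
  {g : Submodule K (Module.End K V₁ × Module.End K V₂)}
  {c f P Q R : Module.End K V₁ × Module.End K V₂}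

/-- If all `P D P` are multiples of `P`, the two representations are isomorphic. -/
theorem graph_iso (B : Tri g c f P Q R) {a₁ : V₁} {a₂ : V₂} (ha₁ : a₁ ≠ 0) (ha₂ : a₂ ≠ 0)
    (hPa1 : P.1 a₁ = a₁) (hPa2 : P.2 a₂ = a₂)
    (hsc : ∀ D ∈ g, ∃ κ : K, P * D * P = κ • P)
    (hirr₁ : ∀ U : Submodule K V₁, (∀ D ∈ g, ∀ w ∈ U, D.1 w ∈ U) → U = ⊥ ∨ U = ⊤)
    (hirr₂ : ∀ U : Submodule K V₂, (∀ D ∈ g, ∀ w ∈ U, D.2 w ∈ U) → U = ⊥ ∨ U = ⊤) :
    ∃ φ : V₁ ≃ₗ[K] V₂, ∀ D ∈ g, ∀ u, φ (D.1 u) = D.2 (φ u) := by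
  have hρ : LinearMap.prodMapAlgHom K V₁ V₂ P (a₁, a₂) = (a₁, a₂) := Prod.ext hPa1 hPa2
  obtain ⟨hinv, hline⟩ := B.gen_inv hsc (LinearMap.prodMapAlgHom K V₁ V₂) hρ
  have hself := gen_self {z | ∃ y ∈ g, P * y = 0 ∧ z = LinearMap.prodMapAlgHom K V₁ V₂ y}
    (a₁, a₂)
  generalize gen {z | ∃ y ∈ g, P * y = 0 ∧ z = LinearMap.prodMapAlgHom K V₁ V₂ y}
    (a₁, a₂) = Γ at hinv hline hself
  have hinvG : ∀ e ∈ g, ∀ u ∈ Γ, (e.1 u.1, e.2 u.2) ∈ Γ := fun e he u hu => hinv e he u hu
  have hlineP : ∀ u ∈ Γ, ∃ t : K, P.1 u.1 = t • a₁ ∧ P.2 u.2 = t • a₂ := by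
    intro u hu
    have h1 := hline u hu
    obtain ⟨t, ht⟩ := Submodule.mem_span_singleton.1 h1
    refine ⟨t, ?_, ?_⟩
    · exact (congrArg Prod.fst ht).symm
    · exact (congrArg Prod.snd ht).symm
  -- the kernels of the projections
  have hk2 : ∀ u : V₁, (u, (0 : V₂)) ∈ Γ → u = 0 := by
    rcases hirr₁ (Γ.comap (LinearMap.inl K V₁ V₂)) (fun e he w hw => by
      have h1 := hinvG e he _ hw
      simpa using h1) with h | h
    · intro u hu
      have : u ∈ Γ.comap (LinearMap.inl K V₁ V₂) := hu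
      rwa [h, Submodule.mem_bot] at this
    · exfalso
      have h1 : a₁ ∈ Γ.comap (LinearMap.inl K V₁ V₂) := h ▸ Submodule.mem_top
      obtain ⟨t, h2, h3⟩ := hlineP _ h1
      simp only [LinearMap.inl_apply, map_zero] at h2 h3
      rw [hPa1] at h2
      have h4 : t = 0 := by
        rcases smul_eq_zero.1 h3.symm with h5 | h5
        · exact h5
        · exact absurd h5 ha₂
      rw [h4, zero_smul] at h2
      exact ha₁ h2
  have hk1 : ∀ u : V₂, ((0 : V₁), u) ∈ Γ → u = 0 := by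
    rcases hirr₂ (Γ.comap (LinearMap.inr K V₁ V₂)) (fun e he w hw => by
      have h1 := hinvG e he _ hw
      simpa using h1) with h | h
    · intro u hu
      have : u ∈ Γ.comap (LinearMap.inr K V₁ V₂) := hu
      rwa [h, Submodule.mem_bot] at this
    · exfalso
      have h1 : a₂ ∈ Γ.comap (LinearMap.inr K V₁ V₂) := h ▸ Submodule.mem_top
      obtain ⟨t, h2, h3⟩ := hlineP _ h1
      simp only [LinearMap.inr_apply, map_zero] at h2 h3
      rw [hPa2] at h3
      have h4 : t = 0 := by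
        rcases smul_eq_zero.1 h2.symm with h5 | h5
        · exact h5
        · exact absurd h5 ha₁
      rw [h4, zero_smul] at h3
      exact ha₂ h3
  have hs1 : ∀ u : V₁, ∃ v : V₂, (u, v) ∈ Γ := by
    rcases hirr₁ (Γ.map (LinearMap.fst K V₁ V₂)) (fun e he w hw => by
      obtain ⟨x, hx, rfl⟩ := hw
      exact ⟨_, hinvG e he _ hx, rfl⟩) with h | h
    · exfalso
      have h1 : a₁ ∈ Γ.map (LinearMap.fst K V₁ V₂) := ⟨(a₁, a₂), hself, rfl⟩
      rw [h, Submodule.mem_bot] at h1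
      exact ha₁ h1
    · intro u
      have h1 : u ∈ Γ.map (LinearMap.fst K V₁ V₂) := h ▸ Submodule.mem_top
      obtain ⟨⟨x, y⟩, hx, rfl⟩ := h1
      exact ⟨y, hx⟩
  have hs2 : ∀ v : V₂, ∃ u : V₁, (u, v) ∈ Γ := by
    rcases hirr₂ (Γ.map (LinearMap.snd K V₁ V₂)) (fun e he w hw => by
      obtain ⟨x, hx, rfl⟩ := hw
      exact ⟨_, hinvG e he _ hx, rfl⟩) with h | h
    · exfalso
      have h1 : a₂ ∈ Γ.map (LinearMap.snd K V₁ V₂) := ⟨(a₁, a₂), hself, rfl⟩
      rw [h, Submodule.mem_bot] at h1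
      exact ha₂ h1
    · intro v
      have h1 : v ∈ Γ.map (LinearMap.snd K V₁ V₂) := h ▸ Submodule.mem_top
      obtain ⟨⟨x, y⟩, hx, rfl⟩ := h1
      exact ⟨x, hx⟩
  let q₁ : Γ →ₗ[K] V₁ := (LinearMap.fst K V₁ V₂).comp Γ.subtype
  let q₂ : Γ →ₗ[K] V₂ := (LinearMap.snd K V₁ V₂).comp Γ.subtype
  have hq₁ : Function.Bijective q₁ := by
    constructor
    · rw [injective_iff_map_eq_zero]
      rintro ⟨⟨x, y⟩, hxy⟩ hx
      have hx' : x = 0 := hx
      subst hx'
      have hy := hk1 y hxy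
      subst hy
      rfl
    · intro u
      obtain ⟨v, hv⟩ := hs1 u
      exact ⟨⟨(u, v), hv⟩, rfl⟩
  have hq₂ : Function.Bijective q₂ := by
    constructor
    · rw [injective_iff_map_eq_zero]
      rintro ⟨⟨x, y⟩, hxy⟩ hy
      have hy' : y = 0 := hy
      subst hy'
      have hx := hk2 x hxy
      subst hx
      rfl
    · intro v
      obtain ⟨u, hu⟩ := hs2 v
      exact ⟨⟨(u, v), hu⟩, rfl⟩
  refine ⟨(LinearEquiv.ofBijective q₁ hq₁).symm.trans (LinearEquiv.ofBijective q₂ hq₂), ?_⟩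
  have hval : ∀ x : Γ, ((LinearEquiv.ofBijective q₁ hq₁).symm.trans
      (LinearEquiv.ofBijective q₂ hq₂)) x.1.1 = x.1.2 := by
    intro x
    have h1 : (LinearEquiv.ofBijective q₁ hq₁).symm x.1.1 = x := by
      rw [LinearEquiv.symm_apply_eq]
      rfl
    rw [LinearEquiv.trans_apply, h1]
    rfl
  intro e he u
  obtain ⟨v, hv⟩ := hs1 u
  have h1 := hval ⟨(u, v), hv⟩
  have h2 := hval ⟨(e.1 u, e.2 v), hinvG e he _ hv⟩
  simp only at h1 h2
  rw [h1, h2]

end Graph

section Twist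

variable {K : Type*} [Field K] [CharZero K]
  {V₁ : Type*} [AddCommGroup V₁] [Module K V₁] [FiniteDimensional K V₁]
  {V₂ : Type*} [AddCommGroup V₂] [Module K V₂] [FiniteDimensional K V₂]
  {g : Submodule K (Module.End K V₁ × Module.End K V₂)}
  {c f P Q R : Module.End K V₁ × Module.End K V₂}

/-- `P` is an idempotent of rank one -/
def Line {V : Type*} [AddCommGroup V] [Module K V] (P : Module.End K V) : Prop :=
  ∃ (a : V) (θ : Module.Dual K V), θ a = 1 ∧ P = θ.smulRight a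

theorem Line.mul_mul {V : Type*} [AddCommGroup V] [Module K V] [FiniteDimensional K V]
    {P : Module.End K V} (h : Line P) (D : Module.End K V) :
    P * D * P = (LinearMap.trace K V (P * D)) • P := by
  obtain ⟨a, θ, ha, rfl⟩ := h
  have h1 : LinearMap.trace K V (θ.smulRight a * D) = θ (D a) := by
    have h2 : (θ.smulRight a * D : Module.End K V) = (θ.comp D).smulRight a := by
      ext w
      simp
    rw [h2, LinearMap.trace_smulRight]
    rfl
  rw [h1]
  ext w
  simp [smul_smul, mul_comm]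

theorem Line.ne_zero {V : Type*} [AddCommGroup V] [Module K V]
    {P : Module.End K V} (h : Line P) : P ≠ 0 := by
  obtain ⟨a, θ, ha, rfl⟩ := h
  intro h0
  have h1 := LinearMap.congr_fun h0 a
  rw [LinearMap.smulRight_apply, ha, one_smul, LinearMap.zero_apply] at h1
  rw [h1, map_zero] at ha
  exact zero_ne_one ha

/-- Twisted version: if the squares of all elements of weight one are multiples of `c`, the two
representations are isomorphic up to a character. -/
theorem twist_iso (B : Tri g c f P Q R) (h1 : Line P.1) (h2 : Line P.2)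
    (hsq : ∀ x, Up g P Q R x → ∃ τ : K, x * x = τ • c)
    (hirr₁ : ∀ U : Submodule K V₁, (∀ D ∈ g, ∀ w ∈ U, D.1 w ∈ U) → U = ⊥ ∨ U = ⊤)
    (hirr₂ : ∀ U : Submodule K V₂, (∀ D ∈ g, ∀ w ∈ U, D.2 w ∈ U) → U = ⊥ ∨ U = ⊤) :
    ∃ (φ : V₁ ≃ₗ[K] V₂) (χ : Module.End K V₁ × Module.End K V₂ → K),
      ∀ D ∈ g, ∀ u, φ (D.1 u) = D.2 (φ u) + χ D • φ u := by
  -- the character
  let χ : Module.End K V₁ × Module.End K V₂ →ₗ[K] K :=
    { toFun := fun D => LinearMap.trace K V₁ (P.1 * D.1) - LinearMap.trace K V₂ (P.2 * D.2)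
      map_add' := fun x y => by
        simp only [Prod.fst_add, Prod.snd_add, mul_add, map_add]
        ring
      map_smul' := fun r x => by
        simp only [Prod.smul_fst, Prod.smul_snd, mul_smul_comm, map_smul, smul_eq_mul,
          RingHom.id_apply]
        ring }
  have hχ : ∀ D, χ D = LinearMap.trace K V₁ (P.1 * D.1) - LinearMap.trace K V₂ (P.2 * D.2) :=
    fun D => rfl
  have hPD1 : ∀ D : Module.End K V₁ × Module.End K V₂,
      (P * D * P).1 = (LinearMap.trace K V₁ (P.1 * D.1)) • P.1 := fun D => h1.mul_mul D.1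
  have hPD2 : ∀ D : Module.End K V₁ × Module.End K V₂,
      (P * D * P).2 = (LinearMap.trace K V₂ (P.2 * D.2)) • P.2 := fun D => h2.mul_mul D.2
  have hdec : ∀ D ∈ g, ∀ D' ∈ g, ∃ κ : K,
      P * (D * D') * P = (P * D * P) * (P * D' * P) + κ • P := by
    intro D hD D' hD'
    obtain ⟨κ₁, e1⟩ := B.corner_of_sq hsq hD hD'
    obtain ⟨κ₂, e2⟩ := B.two hD
    obtain ⟨κ₃, e3⟩ := B.mtwo hD'
    refine ⟨κ₁ + κ₂ * κ₃, ?_⟩
    calc P * (D * D') * P = P * D * (P + Q + R) * D' * P := by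
          rw [← B.one_eq, mul_one]
          simp only [mul_assoc]
      _ = (P * D * P) * (P * D' * P) + (P * D * Q) * (Q * D' * P) + P * D * R * D' * P := by
          simp only [mul_add, add_mul, mul_assoc, B.PPa, B.QQa]
      _ = _ := by
          rw [e1, e2, e3, smul_mul_smul_comm, B.cf]
          module
  have hcomm : ∀ D D' : Module.End K V₁ × Module.End K V₂,
      (P * D * P) * (P * D' * P) = (P * D' * P) * (P * D * P) := by
    intro D D'
    refine Prod.ext ?_ ?_
    · change (P * D * P).1 * (P * D' * P).1 = (P * D' * P).1 * (P * D * P).1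
      rw [hPD1 D, hPD1 D', smul_mul_smul_comm, smul_mul_smul_comm,
        mul_comm (LinearMap.trace K V₁ (P.1 * D.1))]
    · change (P * D * P).2 * (P * D' * P).2 = (P * D' * P).2 * (P * D * P).2
      rw [hPD2 D, hPD2 D', smul_mul_smul_comm, smul_mul_smul_comm,
        mul_comm (LinearMap.trace K V₂ (P.2 * D.2))]
  have hχc : ∀ D ∈ g, ∀ D' ∈ g, χ (D * D' - D' * D) = 0 := by
    intro D hD D' hD'
    obtain ⟨κ, e1⟩ := hdec D hD D' hD'
    obtain ⟨κ', e2⟩ := hdec D' hD' D hD
    have e3 : P * (D * D' - D' * D) * P = (κ - κ') • P := by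
      rw [mul_sub, sub_mul, e1, e2, hcomm D D']
      module
    have e4 : LinearMap.trace K V₁ (P.1 * (D * D' - D' * D).1) = κ - κ' := by
      have e5 := hPD1 (D * D' - D' * D)
      rw [e3, Prod.smul_fst] at e5
      have e6 : (κ - κ' - LinearMap.trace K V₁ (P.1 * (D * D' - D' * D).1)) • P.1 = 0 := by
        rw [sub_smul, e5, sub_self]
      rcases smul_eq_zero.1 e6 with e7 | e7
      · exact (sub_eq_zero.1 e7).symm
      · exact absurd e7 h1.ne_zero
    have e5 : LinearMap.trace K V₂ (P.2 * (D * D' - D' * D).2) = κ - κ' := by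
      have e5 := hPD2 (D * D' - D' * D)
      rw [e3, Prod.smul_snd] at e5
      have e6 : (κ - κ' - LinearMap.trace K V₂ (P.2 * (D * D' - D' * D).2)) • P.2 = 0 := by
        rw [sub_smul, e5, sub_self]
      rcases smul_eq_zero.1 e6 with e7 | e7
      · exact (sub_eq_zero.1 e7).symm
      · exact absurd e7 h2.ne_zero
    rw [hχ, e4, e5, sub_self]
  have hχ0 : χ c = 0 := by
    have e1 := hχc _ B.hmem _ B.cg
    have e2 : (P - Q) * c - c * (P - Q) = (2 : K) • c := by
      rw [sub_mul, mul_sub, B.Pc, B.Qc, B.cP, B.cQ, two_smul]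
      abel
    rw [e2, map_smul, smul_eq_mul] at e1
    rcases mul_eq_zero.1 e1 with e3 | e3
    · exact absurd e3 two_ne_zero
    · exact e3
  have hχf : χ f = 0 := by
    have e1 := hχc _ B.hmem _ B.fg
    have e2 : (P - Q) * f - f * (P - Q) = (-2 : K) • f := by
      rw [sub_mul, mul_sub, B.Pf, B.Qf, B.fP, B.fQ, neg_smul, two_smul]
      abel
    rw [e2, map_smul, smul_eq_mul] at e1
    rcases mul_eq_zero.1 e1 with e3 | e3
    · exact absurd e3 (by norm_num)
    · exact e3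
  -- the twisted Lie algebra
  let T : (Module.End K V₁ × Module.End K V₂) →ₗ[K] (Module.End K V₁ × Module.End K V₂) :=
    { toFun := fun D => (D.1, D.2 + χ D • 1)
      map_add' := fun x y => by
        refine Prod.ext rfl ?_
        simp only [Prod.snd_add, map_add]
        module
      map_smul' := fun r x => by
        refine Prod.ext rfl ?_
        simp only [Prod.smul_snd, map_smul, RingHom.id_apply, smul_eq_mul]
        module }
  have hT : ∀ D, T D = (D.1, D.2 + χ D • 1) := fun D => rfl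
  have hTc : T c = c := by
    rw [hT, hχ0, zero_smul, add_zero]
  have hTf : T f = f := by
    rw [hT, hχf, zero_smul, add_zero]
  have BT : Tri (g.map T) c f P Q R := by
    refine ⟨?_, ⟨c, B.cg, hTc⟩, ⟨f, B.fg, hTf⟩, B.cc, B.ff, B.cfc, B.fcf, B.cf, B.fc, B.hR, ?_⟩
    · rintro _ ⟨D, hD, rfl⟩ _ ⟨D', hD', rfl⟩
      refine ⟨_, B.lie _ hD _ hD', ?_⟩
      rw [hT, hT, hT, hχc _ hD _ hD']
      refine Prod.ext rfl ?_
      change (D * D' - D' * D).2 + (0 : K) • 1 = (D.2 + χ D • 1) * (D'.2 + χ D' • 1) -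
        (D'.2 + χ D' • 1) * (D.2 + χ D • 1)
      simp only [mul_add, add_mul, smul_mul_assoc, mul_smul_comm, one_mul, mul_one, zero_smul,
        Prod.snd_sub, Prod.snd_mul]
      module
    · rintro _ ⟨D, hD, rfl⟩
      obtain ⟨t, ht⟩ := B.ext D hD
      refine ⟨t, ?_⟩
      rw [← ht]
      refine Prod.ext rfl ?_
      change c.2 * (D.2 + χ D • 1) * c.2 = c.2 * D.2 * c.2
      have hcc : c.2 * c.2 = 0 := congrArg Prod.snd B.cc
      rw [mul_add, add_mul, mul_smul_comm, mul_one, smul_mul_assoc, hcc, smul_zero, add_zero]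
  obtain ⟨a₁, θ₁, ha₁, hPa₁⟩ := h1
  obtain ⟨a₂, θ₂, ha₂, hPa₂⟩ := h2
  have ha₁0 : a₁ ≠ 0 := by
    rintro rfl
    rw [map_zero] at ha₁
    exact zero_ne_one ha₁
  have ha₂0 : a₂ ≠ 0 := by
    rintro rfl
    rw [map_zero] at ha₂
    exact zero_ne_one ha₂
  have hPP2 : P.2 * P.2 = P.2 := congrArg Prod.snd B.PP
  obtain ⟨φ, hφ⟩ := graph_iso BT ha₁0 ha₂0
    (by rw [hPa₁, LinearMap.smulRight_apply, ha₁, one_smul])
    (by rw [hPa₂, LinearMap.smulRight_apply, ha₂, one_smul])
    (by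
      rintro _ ⟨D, hD, rfl⟩
      refine ⟨LinearMap.trace K V₁ (P.1 * D.1), Prod.ext (hPD1 D) ?_⟩
      change P.2 * (D.2 + χ D • 1) * P.2 = LinearMap.trace K V₁ (P.1 * D.1) • P.2
      have e1 : P.2 * D.2 * P.2 = _ := hPD2 D
      rw [mul_add, add_mul, e1, mul_smul_comm, mul_one, smul_mul_assoc, hPP2, hχ, ← add_smul]
      congr 1
      ring)
    (by
      intro U hU
      exact hirr₁ U fun D hD w hw => hU (T D) ⟨D, hD, rfl⟩ w hw)
    (by
      intro U hU
      refine hirr₂ U fun D hD w hw => ?_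
      have e1 := hU (T D) ⟨D, hD, rfl⟩ w hw
      have e2 : (T D).2 w = D.2 w + χ D • w := rfl
      rw [e2] at e1
      have e3 := U.sub_mem e1 (U.smul_mem (χ D) hw)
      rwa [add_sub_cancel_right] at e3)
  exact ⟨φ, χ, fun D hD u => hφ (T D) ⟨D, hD, rfl⟩ u⟩

end Twist

end Pool.Agent.TypeIV
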