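import Pool.Agent.TypeIV.Single
import Pool.Agent.OddRank.Minimal

/-!
# Several components
-/

set_option autoImplicit false
set_option linter.unusedSectionVars false

namespace Pool.Agent.TypeIV

open Pool.Agent.OddRank (deg_one_mem deg_neg_mem trace_nondeg exists_min)

variable {K : Type*} [Field K] [CharZero K] [IsAlgClosed K] {ι : Type*} [Finite ι]
  {W : ι → Type*} [∀ i, AddCommGroup (W i)] [∀ i, Module K (W i)]
  [∀ i, FiniteDimensional K (W i)]

/-- a non-degenerate pairing between two components, with multiplier one for the generators -/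
def Pairing (G : Set (∀ i, Module.End K (W i))) (i j : ι) (φ : W i →ₗ[K] W j →ₗ[K] K) : Prop :=
  (∀ x, (∀ y, φ x y = 0) → x = 0) ∧ (∀ y, (∀ x, φ x y = 0) → y = 0) ∧
    ∀ e ∈ G, ∀ u v, φ (e i u) v + φ u (e j v) = φ u v

/-- the structural assumptions for a Lie algebra acting on several spaces -/
structure Data (g : Submodule K (∀ i, Module.End K (W i)))
    (G : Set (∀ i, Module.End K (W i))) : Prop where
  hlie : ∀ a ∈ g, ∀ b ∈ g, a * b - b * a ∈ g
  hG : ∀ e ∈ G, e ∈ g
  hGe : ∀ e ∈ G, e * e = e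
  hns : ∀ e ∈ G, ∀ i, e i ≠ 0 ∧ e i ≠ 1
  hirr : ∀ i, ∀ U : Submodule K (W i), (∀ e ∈ G, ∀ w ∈ U, e i w ∈ U) → U = ⊥ ∨ U = ⊤
  hniso : ∀ i j, i ≠ j → ∀ φ : W i ≃ₗ[K] W j, ∃ e ∈ G, ∃ u, φ (e i u) ≠ e j (φ u)
  hnsd : ∀ i, ∀ φ : W i →ₗ[K] W i →ₗ[K] K, (∀ x, (∀ y, φ x y = 0) → x = 0) →
    ∃ e ∈ G, ∃ u v, φ (e i u) v + φ u (e i v) ≠ φ u v
  hN : ∀ i, ∃ N ∈ g, N * N = 0 ∧ Module.finrank K (LinearMap.range (N i)) = 1
  hgen : ∀ i j φ, Pairing G i j φ → ∀ D ∈ g, ∃ μ : K, ∀ u v,
    φ (D i u) v + φ u (D j v) = μ * φ u v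

variable {g : Submodule K (∀ i, Module.End K (W i))} {G : Set (∀ i, Module.End K (W i))}

/-- the coordinate -/
def ev (K : Type*) [Field K] {ι : Type*} (W : ι → Type*) [∀ i, AddCommGroup (W i)]
    [∀ i, Module K (W i)] (i : ι) : (∀ i, Module.End K (W i)) →ₐ[K] Module.End K (W i) :=
  Pi.evalAlgHom K (fun i => Module.End K (W i)) i

theorem ev_apply (i : ι) (x : ∀ i, Module.End K (W i)) : ev K W i x = x i := rfl

theorem up_add_smul {A : Type*} [Ring A] [Algebra K A] {g : Submodule K A} {P Q R x y : A}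
    (hx : Up g P Q R x) (hy : Up g P Q R y) (t : K) : Up g P Q R (x + t • y) := by
  refine ⟨g.add_mem hx.mem (g.smul_mem t hy.mem), ?_⟩
  have h3 : P * (x + t • y) * R + R * (x + t • y) * Q =
      (P * x * R + R * x * Q) + t • (P * y * R + R * y * Q) := by
    simp only [mul_add, add_mul, mul_smul_comm, smul_mul_assoc]
    module
  rw [h3, ← hx.eq, ← hy.eq]

/-- five values -/
theorem five {a₀ a₁ a₂ b₀ b₁ b₂ : K}
    (h : ∀ s : K, (a₀ + a₁ * s + a₂ * s ^ 2) ^ 2 = (b₀ + b₁ * s + b₂ * s ^ 2) ^ 2)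
    (h0 : a₀ ≠ b₀) : a₂ = -b₂ := by
  have e0 := h 0
  have e1 := h 1
  have e2 := h (-1)
  have e3 := h 2
  have e4 := h (-2)
  have f0 : a₀ ^ 2 - b₀ ^ 2 = 0 := by linear_combination e0
  have f1 : a₀ * a₁ - b₀ * b₁ = 0 := by
    linear_combination (1 / 24 : K) * (8 * (e1 - e2) - (e3 - e4))
  have f2 : 2 * a₀ * a₂ + a₁ ^ 2 - 2 * b₀ * b₂ - b₁ ^ 2 = 0 := by
    linear_combination (1 / 24 : K) * (16 * (e1 + e2) - (e3 + e4)) - (5 / 4 : K) * e0
  have g0 : b₀ = -a₀ := by
    have h1 : (a₀ - b₀) * (a₀ + b₀) = 0 := by linear_combination f0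
    rcases mul_eq_zero.1 h1 with h2 | h2
    · exact absurd (sub_eq_zero.1 h2) h0
    · linear_combination h2
  have ha0 : a₀ ≠ 0 := by
    intro h1
    apply h0
    rw [g0, h1, neg_zero]
  have g1 : b₁ = -a₁ := by
    rw [g0] at f1
    have h1 : a₀ * (a₁ + b₁) = 0 := by linear_combination f1
    rcases mul_eq_zero.1 h1 with h2 | h2
    · exact absurd h2 ha0
    · linear_combination h2
  rw [g0, g1] at f2
  have h1 : a₀ * (2 * (a₂ + b₂)) = 0 := by linear_combination f2
  rcases mul_eq_zero.1 h1 with h2 | h2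
  · exact absurd h2 ha0
  · rcases mul_eq_zero.1 h2 with h3 | h3
    · exact absurd h3 two_ne_zero
    · linear_combination h3

namespace Data

variable (H : Data g G)
include H

theorem proj_lie (i : ι) : ∀ a ∈ g.map (ev K W i).toLinearMap, ∀ b ∈ g.map (ev K W i).toLinearMap,
    a * b - b * a ∈ g.map (ev K W i).toLinearMap := by
  rintro _ ⟨a, ha, rfl⟩ _ ⟨b, hb, rfl⟩
  exact ⟨_, H.hlie a ha b hb, rfl⟩

theorem proj_irr (i : ι) : ∀ U : Submodule K (W i),
    (∀ D ∈ g.map (ev K W i).toLinearMap, ∀ w ∈ U, D w ∈ U) → U = ⊥ ∨ U = ⊤ :=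
  fun U hU => H.hirr i U fun e he => hU _ ⟨e, H.hG e he, rfl⟩

theorem proj_nf (i : ι) : ¬ ∃ (φ : W i →ₗ[K] W i →ₗ[K] K) (μ : Module.End K (W i) → K),
      (∀ x, (∀ y, φ x y = 0) → x = 0) ∧
      ∀ D ∈ g.map (ev K W i).toLinearMap, ∀ u v, φ (D u) v + φ u (D v) = μ D * φ u v := by
  rintro ⟨φ, μ, h1, h2⟩
  obtain ⟨e, he, u, v, huv⟩ := H.hnsd i φ h1
  apply huv
  have hee : e i * e i = e i := congrFun (H.hGe e he) i
  have h4 := h2 (e i) ⟨e, H.hG e he, rfl⟩
  have h3 := mult_one h1 hee hee (H.hns e he i).1 (H.hns e he i).2 h4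
  rw [h4, h3, one_mul]

theorem sl_proj (i : ι) {Z : Module.End K (W i)} (hZ : LinearMap.trace K (W i) Z = 0) :
    ∃ x ∈ g, x i = Z := by
  obtain ⟨N, hN, hNN, hrk⟩ := H.hN i
  obtain ⟨x, hx, hxZ⟩ := sl_mem (g := g.map (ev K W i).toLinearMap)
    (G := (fun e : ∀ i, Module.End K (W i) => e i) '' G) (H.proj_lie i)
    (by
      rintro _ ⟨e, he, rfl⟩
      exact ⟨e, H.hG e he, rfl⟩)
    (by
      rintro _ ⟨e, he, rfl⟩
      exact congrFun (H.hGe e he) i)
    (by
      rintro _ ⟨e, he, rfl⟩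
      exact H.hns e he i)
    (by
      intro U hU
      exact H.hirr i U fun e he => hU _ ⟨e, he, rfl⟩)
    (by
      intro φ hφ
      obtain ⟨e, he, h⟩ := H.hnsd i φ hφ
      exact ⟨_, ⟨e, he, rfl⟩, h⟩)
    (N := N i) ⟨N, hN, rfl⟩ (congrFun hNN i) hrk hZ
  exact ⟨x, hx, hxZ⟩

theorem nontriv (i : ι) : Nontrivial (W i) := by
  obtain ⟨N, _, _, hrk⟩ := H.hN i
  by_contra h
  rw [not_nontrivial_iff_subsingleton] at h
  have : Module.finrank K (LinearMap.range (N i)) = 0 := Module.finrank_zero_of_subsingleton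
  rw [this] at hrk
  exact zero_ne_one hrk

theorem tr_nd (i : ι) : ∀ x ∈ g, (∀ y ∈ g, LinearMap.trace K (W i) (x i * y i) = 0) → x i = 0 := by
  have := H.nontriv i
  have h := trace_nondeg (g.map (ev K W i).toLinearMap) (H.proj_lie i) (H.proj_irr i)
  intro x hx hxy
  refine h (x i) ⟨x, hx, rfl⟩ ?_
  rintro _ ⟨y, hy, rfl⟩
  exact hxy y hy

/-- an extremal element whose components have rank at most one -/
theorem exists_ext (i : ι) : ∃ c ∈ g, c * c = 0 ∧ c i ≠ 0 ∧ (∀ j, RankLE (c j)) ∧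
    ∀ x ∈ g, ∃ t : K, c * x * c = t • c := by
  have := Fintype.ofFinite ι
  obtain ⟨N, hN, hNN, hrk⟩ := H.hN i
  have hNi : N i ≠ 0 := by
    intro h
    rw [h, LinearMap.range_zero, finrank_bot] at hrk
    exact zero_ne_one hrk
  obtain ⟨c, hc, hcc, hci, hfit⟩ := exists_min H.hlie i hN hNN hNi
  have hrank : ∀ j, RankLE (c j) := by
    intro j
    by_cases hcj : c j = 0
    · refine ⟨0, 0, ?_⟩
      rw [hcj, LinearMap.smulRight_zero]
    have hcc' : ∀ w, c j (c j w) = 0 := fun w => LinearMap.congr_fun (congrFun hcc j) w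
    obtain ⟨u₀, hu₀⟩ : ∃ u, c j u ≠ 0 := by
      by_contra h
      push Not at h
      exact hcj (LinearMap.ext h)
    have hnmem : c j u₀ ∉ K ∙ u₀ := by
      intro h
      obtain ⟨t, ht⟩ := Submodule.mem_span_singleton.1 h
      have h1 := hcc' u₀
      rw [← ht, map_smul, ← ht, smul_smul] at h1
      rcases smul_eq_zero.1 h1 with h2 | h2
      · have h3 : t = 0 := mul_self_eq_zero.1 h2
        rw [h3, zero_smul] at ht
        exact hu₀ ht.symm
      · rw [h2, map_zero] at hu₀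
        exact hu₀ rfl
    obtain ⟨v₀, hv₀, hv₁⟩ : ∃ v₀ : Module.Dual K (W j), v₀ u₀ = 0 ∧ v₀ (c j u₀) ≠ 0 := by
      by_contra hcon
      push Not at hcon
      apply hnmem
      rw [← Subspace.dualAnnihilator_dualCoannihilator_eq (W := K ∙ u₀),
        Submodule.mem_dualCoannihilator]
      intro φ hφ
      rw [Submodule.mem_dualAnnihilator] at hφ
      exact hcon φ (hφ u₀ (Submodule.mem_span_singleton_self u₀))
    obtain ⟨x, hx, hxj⟩ := H.sl_proj j (Z := v₀.smulRight u₀) (by
      rw [LinearMap.trace_smulRight, hv₀])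
    obtain ⟨t, k, htk⟩ := hfit x hx
    have hop : ∀ w, (c j * x j - t • (1 : Module.End K (W j))) w =
        v₀ w • c j u₀ - t • w := by
      intro w
      rw [LinearMap.sub_apply, Module.End.mul_apply, hxj, LinearMap.smulRight_apply, map_smul,
        LinearMap.smul_apply, Module.End.one_apply]
    have hpow : ∀ w (s : K), v₀ w • c j u₀ - t • w = s • w → ∀ n : ℕ,
        ((c j * x j - t • (1 : Module.End K (W j))) ^ n) w = s ^ n • w := by
      intro w s hw n
      induction n with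
      | zero => simp
      | succ n ih =>
        rw [pow_succ, Module.End.mul_apply, hop, hw, map_smul, ih, smul_smul, pow_succ, mul_comm]
    have hzero : ∀ z, ((c j * x j - t • (1 : Module.End K (W j))) ^ k) (c j z) = 0 := by
      intro z
      exact LinearMap.congr_fun (congrFun htk j) z
    have ht : t = v₀ (c j u₀) := by
      have h1 := hpow (c j u₀) (v₀ (c j u₀) - t) (sub_smul _ _ _).symm k
      rw [hzero] at h1
      rcases smul_eq_zero.1 h1.symm with h2 | h2
      · by_contra h3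
        exact pow_ne_zero k (sub_ne_zero.2 (Ne.symm h3)) h2
      · exact absurd h2 hu₀
    have ht0 : t ≠ 0 := by
      rw [ht]
      exact hv₁
    have hker : ∀ z, v₀ (c j z) = 0 → c j z = 0 := by
      intro z hz
      have h1 := hpow (c j z) (-t) (by rw [hz, zero_smul, zero_sub, neg_smul]) k
      rw [hzero] at h1
      rcases smul_eq_zero.1 h1.symm with h2 | h2
      · exact absurd h2 (pow_ne_zero k (neg_ne_zero.2 ht0))
      · exact h2
    refine ⟨t⁻¹ • v₀.comp (c j), c j u₀, ?_⟩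
    ext z
    have h1 := hker (z - (t⁻¹ * v₀ (c j z)) • u₀) (by
      rw [map_sub, map_smul, map_sub, map_smul, ← ht, smul_eq_mul]
      field_simp
      ring)
    rw [map_sub, map_smul, sub_eq_zero] at h1
    rw [h1]
    rfl
  refine ⟨c, hc, hcc, hci, hrank, ?_⟩
  intro x hx
  obtain ⟨t, k, htk⟩ := hfit x hx
  refine ⟨t, ?_⟩
  funext j
  change c j * x j * c j = t • c j
  by_cases hcj : c j = 0
  · rw [hcj, mul_zero, smul_zero]
  · obtain ⟨s, hs⟩ := (hrank j).ext (x j)
    have h2 : ∀ n : ℕ, (c j * x j - t • 1) ^ n * c j = (s - t) ^ n • c j := by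
      intro n
      induction n with
      | zero => simp
      | succ n ih =>
        rw [pow_succ, mul_assoc, sub_mul, hs, smul_mul_assoc, one_mul, ← sub_smul,
          mul_smul_comm, ih, smul_smul, pow_succ, mul_comm]
    have h3 : (c j * x j - t • 1) ^ k * c j = 0 := congrFun htk j
    rw [h2] at h3
    rcases smul_eq_zero.1 h3 with h4 | h4
    · have h5 : s = t := by
        by_contra h6
        exact pow_ne_zero k (sub_ne_zero.2 h6) h4
      rw [hs, h5]
    · exact absurd h4 hcj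

/-- an extremal pair whose components have rank at most one -/
theorem exists_pair (i : ι) : ∃ c f P Q R, Tri g c f P Q R ∧ c i ≠ 0 ∧ ∀ j, RankLE (c j) := by
  obtain ⟨c, hc, hcc, hci, hrank, hext⟩ := H.exists_ext i
  obtain ⟨_, ⟨e, he, rfl⟩, hec⟩ := exists_noncomm
    (G := (fun e : ∀ i, Module.End K (W i) => e i) '' G)
    (fun U hU => H.hirr i U fun e he => hU _ ⟨e, he, rfl⟩)
    (congrFun hcc i : c i * c i = 0) hci
  obtain ⟨E, hEE, hEg, hE⟩ : ∃ E : ∀ i, Module.End K (W i), E * E = E ∧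
      (∀ x ∈ g, E * x - x * E ∈ g) ∧ (E * c * (1 - E)) i ≠ 0 := by
    rcases comp_ne hec with h | h
    · exact ⟨e, H.hGe e he, fun x hx => H.hlie _ (H.hG e he) _ hx, h⟩
    · refine ⟨1 - e, ?_, ?_, h⟩
      · rw [mul_sub, sub_mul, sub_mul, mul_one, one_mul, H.hGe e he, mul_one, sub_self, sub_zero]
      · intro x hx
        have := g.neg_mem (H.hlie _ (H.hG e he) _ hx)
        convert this using 1
        rw [sub_mul, mul_sub, one_mul, mul_one]
        abel
  obtain ⟨d, hd⟩ : ∃ d, d = E * c * (1 - E) := ⟨_, rfl⟩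
  have hdg : d ∈ g := by
    rw [hd]
    exact deg_one_mem hEE hEg hc
  have hdr : ∀ j, RankLE (d j) := by
    intro j
    rw [hd]
    exact (hrank j).mul_mul (E j) (1 - E j)
  rw [← hd] at hE
  obtain ⟨f, B⟩ := exists_tri H.hlie hc hext hEE hEg hd (by
    by_contra hcon
    push Not at hcon
    apply hE
    apply H.tr_nd i _ hdg
    intro y hy
    have h1 := (hdr i).trace (y i)
    have h0 : d i * y i * d i = 0 := congrFun (hcon y hy) i
    rw [h0] at h1
    rcases smul_eq_zero.1 h1.symm with h2 | h2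
    · exact h2
    · exact absurd h2 hE)
  exact ⟨d, f, _, _, _, B, hE, hdr⟩

/-- two components of the support of an extremal element are dual -/
theorem pair_dual {c f P Q R : ∀ i, Module.End K (W i)} (B : Tri g c f P Q R)
    (hr : ∀ j, RankLE (c j)) {i j : ι} (hij : i ≠ j) (hi : c i ≠ 0) (hj : c j ≠ 0) :
    ∃ φ, Pairing G i j φ := by
  have Bi := B.map (ev K W i)
  have Bj := B.map (ev K W j)
  have hLi : Line (P i) := line_P Bi (hr i) hi
  have hLj : Line (P j) := line_P Bj (hr j) hj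
  -- products of two elements of weight one
  have hmul : ∀ x y, Up g P Q R x → Up g P Q R y →
      ∃ α β : K, x i * y i = α • c i ∧ x j * y j = β • c j := by
    intro x y hx hy
    have h := B.up_mul hx hy
    obtain ⟨α, hα⟩ := line_two Bi hLi (x i * y i)
    obtain ⟨β, hβ⟩ := line_two Bj hLj (x j * y j)
    exact ⟨α, β, (congrFun h i).trans hα, (congrFun h j).trans hβ⟩
  have huniq : ∀ k, c k ≠ 0 → ∀ α β : K, α • c k = β • c k → α = β := by
    intro k hk α β h
    have h1 : (α - β) • c k = 0 := by rw [sub_smul, h, sub_self]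
    rcases smul_eq_zero.1 h1 with h2 | h2
    · exact sub_eq_zero.1 h2
    · exact absurd h2 hk
  -- the squares
  have hsq : ∀ x, Up g P Q R x → ∀ α β : K, x i * x i = α • c i → x j * x j = β • c j →
      α ^ 2 = β ^ 2 := by
    intro x hx α β h1 h2
    obtain ⟨κ, hκ⟩ := B.up_quartic hx
    have e1 : x i * x i * f i * (x i * x i) = κ • c i := congrFun hκ i
    have e2 : x j * x j * f j * (x j * x j) = κ • c j := congrFun hκ j
    have hc1 : c i * f i * c i = c i := congrFun B.cfc i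
    have hc2 : c j * f j * c j = c j := congrFun B.cfc j
    rw [h1, smul_mul_assoc, smul_mul_smul_comm, hc1] at e1
    rw [h2, smul_mul_assoc, smul_mul_smul_comm, hc2] at e2
    rw [pow_two, pow_two, huniq i hi _ _ e1, huniq j hj _ _ e2]
  let ρ : (∀ i, Module.End K (W i)) →ₐ[K] Module.End K (W i) × Module.End K (W j) :=
    (ev K W i).prod (ev K W j)
  have hρ : ∀ x, ρ x = (x i, x j) := fun _ => rfl
  have Bρ := B.map ρ
  have hirr₁ : ∀ U : Submodule K (W i), (∀ D ∈ g.map ρ.toLinearMap, ∀ w ∈ U, D.1 w ∈ U) →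
      U = ⊥ ∨ U = ⊤ := fun U hU => H.hirr i U fun e he => hU (ρ e) ⟨e, H.hG e he, rfl⟩
  have hirr₂ : ∀ U : Submodule K (W j), (∀ D ∈ g.map ρ.toLinearMap, ∀ w ∈ U, D.2 w ∈ U) →
      U = ⊥ ∨ U = ⊤ := fun U hU => H.hirr j U fun e he => hU (ρ e) ⟨e, H.hG e he, rfl⟩
  have hee : ∀ e ∈ G, ∀ k, e k * e k = e k := fun e he k => congrFun (H.hGe e he) k
  by_cases hA : ∀ x, Up g P Q R x → ∃ τ : K, x i * x i = τ • c i ∧ x j * x j = τ • c j
  · exfalso
    obtain ⟨φ, χ, hφ⟩ := twist_iso Bρ hLi hLj (by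
      intro z hz
      obtain ⟨x, hx, rfl⟩ := B.up_lift ρ hz
      obtain ⟨τ, h1, h2⟩ := hA x hx
      exact ⟨τ, Prod.ext h1 h2⟩) hirr₁ hirr₂
    obtain ⟨e, he, u, hu⟩ := H.hniso i j hij φ
    apply hu
    have h1 : ∀ u, φ (e i u) = e j (φ u) + χ (ρ e) • φ u :=
      fun u => hφ (ρ e) ⟨e, H.hG e he, rfl⟩ u
    rw [h1, char_zero φ (hee e he i) (hee e he j) (H.hns e he j).1 (H.hns e he j).2 h1,
      zero_smul, add_zero]
  · push Not at hA
    obtain ⟨x, hx, hxA⟩ := hA
    obtain ⟨φ, μ, h1, h2, h3⟩ := dual_pairing Bρ (line_Q Bi hLi) hLj (by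
      intro z hz
      obtain ⟨y, hy, rfl⟩ := B.up_lift ρ hz
      obtain ⟨α₀, β₀, hα₀, hβ₀⟩ := hmul x x hx hx
      obtain ⟨α₁, β₁, hα₁, hβ₁⟩ := hmul x y hx hy
      obtain ⟨α₁', β₁', hα₁', hβ₁'⟩ := hmul y x hy hx
      obtain ⟨α₂, β₂, hα₂, hβ₂⟩ := hmul y y hy hy
      have h5 := five (a₀ := α₀) (a₁ := α₁ + α₁') (a₂ := α₂) (b₀ := β₀) (b₁ := β₁ + β₁')
        (b₂ := β₂) (fun s => by
          refine hsq _ (up_add_smul hx hy s) _ _ ?_ ?_
          · change (x i + s • y i) * (x i + s • y i) = _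
            simp only [mul_add, add_mul, mul_smul_comm, smul_mul_assoc, hα₀, hα₁, hα₁', hα₂]
            module
          · change (x j + s • y j) * (x j + s • y j) = _
            simp only [mul_add, add_mul, mul_smul_comm, smul_mul_assoc, hβ₀, hβ₁, hβ₁', hβ₂]
            module)
        (by
          rintro rfl
          exact hxA _ hα₀ hβ₀)
      refine ⟨β₂, ?_, hβ₂⟩
      change y i * y i = -(β₂ • c i)
      rw [hα₂, h5, neg_smul]) hirr₁ hirr₂
    refine ⟨φ, h1, h2, fun e he u v => ?_⟩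
    have h4 : ∀ u v, φ (e i u) v + φ u (e j v) = μ (ρ e) * φ u v :=
      fun u v => h3 (ρ e) ⟨e, H.hG e he, rfl⟩ u v
    rw [h4, mult_one h1 (hee e he i) (hee e he j) (H.hns e he i).1 (H.hns e he i).2 h4, one_mul]

/-- the span of the commutators -/
theorem comm_le : Submodule.span K {z | ∃ a ∈ g, ∃ b ∈ g, z = a * b - b * a} ≤ g := by
  rw [Submodule.span_le]
  rintro _ ⟨a, ha, b, hb, rfl⟩
  exact H.hlie a ha b hb

/-- every operator of trace zero is the component of an element which is zero at all components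
which are not dual -/
theorem single_mem (i : ι) {Z : Module.End K (W i)} (hZ : LinearMap.trace K (W i) Z = 0) :
    ∃ x ∈ Submodule.span K {z | ∃ a ∈ g, ∃ b ∈ g, z = a * b - b * a}, x i = Z ∧
      ∀ j, x j ≠ 0 → j = i ∨ ∃ φ, Pairing G i j φ := by
  obtain ⟨c, f, P, Q, R, B, hi, hr⟩ := H.exists_pair i
  have Bi := B.map (ev K W i)
  have hLi : Line (P i) := line_P Bi (hr i) hi
  let X : Submodule K (∀ i, Module.End K (W i)) :=
    { carrier := {x | x ∈ Submodule.span K {z | ∃ a ∈ g, ∃ b ∈ g, z = a * b - b * a} ∧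
        ∀ j, ¬ (j = i ∨ ∃ φ, Pairing G i j φ) → x j = 0}
      add_mem' := fun {a b} ha hb => ⟨add_mem ha.1 hb.1, fun j hj => by
        rw [Pi.add_apply, ha.2 j hj, hb.2 j hj, add_zero]⟩
      zero_mem' := ⟨zero_mem _, fun j _ => rfl⟩
      smul_mem' := fun t a ha => ⟨Submodule.smul_mem _ _ ha.1, fun j hj => by
        rw [Pi.smul_apply, ha.2 j hj, smul_zero]⟩ }
  have hcX : c ∈ X := by
    refine ⟨?_, fun j hj => ?_⟩
    · have h1 : c = (2⁻¹ : K) • ((P - Q) * c - c * (P - Q)) := by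
        rw [sub_mul, mul_sub, B.Pc, B.Qc, B.cP, B.cQ, eq_inv_smul_iff₀ (two_ne_zero), two_smul]
        abel
      rw [h1]
      exact Submodule.smul_mem _ _ (Submodule.subset_span ⟨_, B.hmem, _, B.cg, rfl⟩)
    · by_contra hcj
      apply hj
      by_cases hji : j = i
      · exact Or.inl hji
      · exact Or.inr (H.pair_dual B hr (Ne.symm hji) hi hcj)
  have hXI : ∀ D ∈ g.map (ev K W i).toLinearMap, ∀ x ∈ X.map (ev K W i).toLinearMap,
      D * x - x * D ∈ X.map (ev K W i).toLinearMap := by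
    rintro _ ⟨D, hD, rfl⟩ _ ⟨x, hx, rfl⟩
    refine ⟨D * x - x * D, ⟨Submodule.subset_span ⟨D, hD, x, H.comm_le hx.1, rfl⟩, ?_⟩, rfl⟩
    intro j hj
    change D j * x j - x j * D j = 0
    rw [hx.2 j hj, mul_zero, zero_mul, sub_zero]
  obtain ⟨x, hx, hxZ⟩ := ideal_full Bi hLi (H.proj_irr i) (H.proj_nf i) hXI ⟨c, hcX, rfl⟩ hZ
  refine ⟨x, hx.1, hxZ, fun j hj => ?_⟩
  by_contra h
  exact hj (hx.2 j h)

/-- commutators have trace zero and are skew for all pairings -/
theorem comm_props (x : ∀ i, Module.End K (W i))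
    (hx : x ∈ Submodule.span K {z | ∃ a ∈ g, ∃ b ∈ g, z = a * b - b * a}) :
    (∀ i, LinearMap.trace K (W i) (x i) = 0) ∧
    ∀ i j φ, Pairing G i j φ → ∀ u v, φ (x i u) v + φ u (x j v) = 0 := by
  induction hx using Submodule.span_induction with
  | mem z hz =>
    obtain ⟨a, ha, b, hb, rfl⟩ := hz
    refine ⟨fun i => ?_, fun i j φ hφ u v => ?_⟩
    · change LinearMap.trace K (W i) (a i * b i - b i * a i) = 0
      rw [map_sub, LinearMap.trace_mul_comm, sub_self]
    · obtain ⟨μ, hμ⟩ := H.hgen i j φ hφ a ha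
      obtain ⟨ν, hν⟩ := H.hgen i j φ hφ b hb
      change φ ((a i * b i - b i * a i) u) v + φ u ((a j * b j - b j * a j) v) = 0
      simp only [LinearMap.sub_apply, Module.End.mul_apply, map_sub]
      linear_combination hμ (b i u) v + hμ u (b j v) - hν (a i u) v - hν u (a j v) -
        ν * hμ u v + μ * hν u v
  | zero =>
    refine ⟨fun i => ?_, fun i j φ hφ u v => ?_⟩
    · rw [Pi.zero_apply, map_zero]
    · rw [Pi.zero_apply, Pi.zero_apply, LinearMap.zero_apply, LinearMap.zero_apply, map_zero,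
        map_zero, LinearMap.zero_apply, add_zero]
  | add x y _ _ hx hy =>
    refine ⟨fun i => ?_, fun i j φ hφ u v => ?_⟩
    · rw [Pi.add_apply, map_add, hx.1, hy.1, add_zero]
    · have h1 := hx.2 i j φ hφ u v
      have h2 := hy.2 i j φ hφ u v
      simp only [Pi.add_apply, LinearMap.add_apply, map_add]
      linear_combination h1 + h2
  | smul t x _ hx =>
    refine ⟨fun i => ?_, fun i j φ hφ u v => ?_⟩
    · rw [Pi.smul_apply, map_smul, hx.1, smul_zero]
    · have h1 := hx.2 i j φ hφ u v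
      simp only [Pi.smul_apply, LinearMap.smul_apply, map_smul, smul_eq_mul]
      linear_combination t * h1

/-- the full derived algebra -/
theorem full (D : ∀ i, Module.End K (W i)) :
    D ∈ Submodule.span K {z | ∃ a ∈ g, ∃ b ∈ g, z = a * b - b * a} ↔
      (∀ i, LinearMap.trace K (W i) (D i) = 0) ∧
        ∀ i j φ, Pairing G i j φ → ∀ u v, φ (D i u) v + φ u (D j v) = 0 := by
  classical
  have := Fintype.ofFinite ι
  refine ⟨H.comm_props D, ?_⟩
  obtain ⟨n, hn⟩ : ∃ n, (Finset.univ.filter fun i => D i ≠ 0).card = n := ⟨_, rfl⟩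
  induction n using Nat.strong_induction_on generalizing D with
  | _ n ih =>
    rintro ⟨h1, h2⟩
    by_cases h0 : ∀ i, D i = 0
    · have : D = 0 := funext h0
      rw [this]
      exact Submodule.zero_mem _
    · push Not at h0
      obtain ⟨i, hi⟩ := h0
      obtain ⟨x, hx, hxi, hxj⟩ := H.single_mem i (h1 i)
      obtain ⟨h3, h4⟩ := H.comm_props x hx
      have h5 : ∀ j, (D - x) j = D j ∨ (D - x) j = 0 := by
        intro j
        by_cases hj : x j = 0
        · left
          rw [Pi.sub_apply, hj, sub_zero]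
        · right
          rcases hxj j hj with h | ⟨φ, hφ⟩
          · rw [h, Pi.sub_apply, hxi, sub_self]
          · ext v
            apply hφ.2.1
            intro u
            have e1 := h2 i j φ hφ u v
            have e2 := h4 i j φ hφ u v
            rw [hxi] at e2
            rw [Pi.sub_apply, LinearMap.sub_apply, map_sub]
            linear_combination e1 - e2
      have h6 : (Finset.univ.filter fun j => (D - x) j ≠ 0).card <
          (Finset.univ.filter fun j => D j ≠ 0).card := by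
        refine Finset.card_lt_card ⟨?_, ?_⟩
        · intro j hj
          rw [Finset.mem_filter] at hj ⊢
          refine ⟨Finset.mem_univ j, ?_⟩
          rcases h5 j with h | h
          · rw [← h]
            exact hj.2
          · exact absurd h hj.2
        · intro h
          have h7 : i ∈ Finset.univ.filter fun j => (D - x) j ≠ 0 :=
            h (Finset.mem_filter.2 ⟨Finset.mem_univ i, hi⟩)
          apply (Finset.mem_filter.1 h7).2
          rw [Pi.sub_apply, hxi, sub_self]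
      rw [hn] at h6
      have h7 := ih _ h6 (D - x) rfl ⟨fun k => by
        rw [Pi.sub_apply, map_sub, h1, h3, sub_self], fun k l φ hφ u v => by
        have e1 := h2 k l φ hφ u v
        have e2 := h4 k l φ hφ u v
        simp only [Pi.sub_apply, LinearMap.sub_apply, map_sub]
        linear_combination e1 - e2⟩
      have h8 := Submodule.add_mem _ h7 hx
      rwa [sub_add_cancel] at h8

end Data

end Pool.Agent.TypeIV
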