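import Mathlib

/-!
# Extremal pairs in Lie algebras of operators

`g` is a subspace of an associative algebra `A` which is closed under commutators, `c` and `f` are
elements of `g` of square zero with `c f c = c`, `f c f = f` and `c x c ∈ K c` for all `x` in `g`.
`P = c f`, `Q = f c` and `R = 1 - P - Q` are orthogonal idempotents. We collect the identities for
the components of weight two, one, minus one, minus two of the elements of `g` with respect to
`P - Q`.
-/

set_option autoImplicit false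
set_option linter.unusedSectionVars false

namespace Pool.Agent.TypeIV

variable {K A : Type*} [Field K] [CharZero K] [Ring A] [Algebra K A]

/-- An extremal pair. -/
structure Tri (g : Submodule K A) (c f P Q R : A) : Prop where
  lie : ∀ a ∈ g, ∀ b ∈ g, a * b - b * a ∈ g
  cg : c ∈ g
  fg : f ∈ g
  cc : c * c = 0
  ff : f * f = 0
  cfc : c * f * c = c
  fcf : f * c * f = f
  cf : c * f = P
  fc : f * c = Q
  hR : R = 1 - P - Q
  ext : ∀ x ∈ g, ∃ t : K, c * x * c = t • c

/-- An element of weight one. -/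
structure Up (g : Submodule K A) (P Q R x : A) : Prop where
  mem : x ∈ g
  eq : x = P * x * R + R * x * Q

/-- An element of weight minus one. -/
structure Dn (g : Submodule K A) (P Q R y : A) : Prop where
  mem : y ∈ g
  eq : y = R * y * P + Q * y * R

variable {g : Submodule K A} {c f P Q R : A}

namespace Tri

variable (B : Tri g c f P Q R)
include B

theorem Pc : P * c = c := by rw [← B.cf, B.cfc]
theorem cQ : c * Q = c := by rw [← B.fc, ← mul_assoc, B.cfc]
theorem Qf : Q * f = f := by rw [← B.fc, B.fcf]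
theorem fP : f * P = f := by rw [← B.cf, ← mul_assoc, B.fcf]
theorem cP : c * P = 0 := by rw [← B.cf, ← mul_assoc, B.cc, zero_mul]
theorem Qc : Q * c = 0 := by rw [← B.fc, mul_assoc, B.cc, mul_zero]
theorem Pf : P * f = 0 := by rw [← B.cf, mul_assoc, B.ff, mul_zero]
theorem fQ : f * Q = 0 := by rw [← B.fc, ← mul_assoc, B.ff, zero_mul]
theorem PP : P * P = P := by
  calc P * P = c * f * (c * f) := by rw [B.cf]
    _ = (c * f * c) * f := by simp only [mul_assoc]
    _ = P := by rw [B.cfc, B.cf]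
theorem QQ : Q * Q = Q := by
  calc Q * Q = f * c * (f * c) := by rw [B.fc]
    _ = (f * c * f) * c := by simp only [mul_assoc]
    _ = Q := by rw [B.fcf, B.fc]
theorem PQ : P * Q = 0 := by
  rw [← B.cf, ← B.fc, mul_assoc, ← mul_assoc f f c, B.ff, zero_mul, mul_zero]
theorem QP : Q * P = 0 := by
  rw [← B.cf, ← B.fc, mul_assoc, ← mul_assoc c c f, B.cc, zero_mul, mul_zero]
theorem PR : P * R = 0 := by rw [B.hR, mul_sub, mul_sub, mul_one, B.PP, B.PQ, sub_self, sub_zero]
theorem RP : R * P = 0 := by rw [B.hR, sub_mul, sub_mul, one_mul, B.PP, B.QP, sub_self, sub_zero]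
theorem QR : Q * R = 0 := by rw [B.hR, mul_sub, mul_sub, mul_one, B.QP, B.QQ, sub_zero, sub_self]
theorem RQ : R * Q = 0 := by rw [B.hR, sub_mul, sub_mul, one_mul, B.PQ, B.QQ, sub_zero, sub_self]
theorem RR : R * R = R := by
  have h : R * R = (1 - P - Q) * R := congrArg (· * R) B.hR
  rw [h, sub_mul, sub_mul, one_mul, B.PR, B.QR, sub_zero, sub_zero]
theorem cR : c * R = 0 := by
  rw [B.hR, mul_sub, mul_sub, mul_one, B.cP, B.cQ, sub_zero, sub_self]
theorem Rc : R * c = 0 := by
  rw [B.hR, sub_mul, sub_mul, one_mul, B.Pc, B.Qc, sub_self, sub_zero]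
theorem fR : f * R = 0 := by
  rw [B.hR, mul_sub, mul_sub, mul_one, B.fP, B.fQ, sub_self, sub_zero]
theorem Rf : R * f = 0 := by
  rw [B.hR, sub_mul, sub_mul, one_mul, B.Pf, B.Qf, sub_zero, sub_self]
theorem one_eq : (1 : A) = P + Q + R := by rw [B.hR]; abel

theorem PPa (x : A) : P * (P * x) = P * x := by rw [← mul_assoc, B.PP]
theorem QQa (x : A) : Q * (Q * x) = Q * x := by rw [← mul_assoc, B.QQ]
theorem RRa (x : A) : R * (R * x) = R * x := by rw [← mul_assoc, B.RR]
theorem PQa (x : A) : P * (Q * x) = 0 := by rw [← mul_assoc, B.PQ, zero_mul]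
theorem QPa (x : A) : Q * (P * x) = 0 := by rw [← mul_assoc, B.QP, zero_mul]
theorem PRa (x : A) : P * (R * x) = 0 := by rw [← mul_assoc, B.PR, zero_mul]
theorem RPa (x : A) : R * (P * x) = 0 := by rw [← mul_assoc, B.RP, zero_mul]
theorem QRa (x : A) : Q * (R * x) = 0 := by rw [← mul_assoc, B.QR, zero_mul]
theorem RQa (x : A) : R * (Q * x) = 0 := by rw [← mul_assoc, B.RQ, zero_mul]

/-- exchange of `c` and `f` -/
theorem quad_mem {y z : A} (hy : y ∈ g) (hyy : y * y = 0) (hz : z ∈ g) : y * z * y ∈ g := by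
  have h1 := B.lie _ hy _ (B.lie _ hy _ hz)
  have h3 : y * (y * z - z * y) - (y * z - z * y) * y = (-2 : K) • (y * z * y) := by
    simp only [mul_sub, sub_mul, ← mul_assoc, hyy, zero_mul]
    rw [mul_assoc z y y, hyy, mul_zero, neg_smul, two_smul]
    abel
  have h4 := g.smul_mem (-2⁻¹ : K) h1
  rw [h3, smul_smul] at h4
  have h5 : (-2⁻¹ : K) * -2 = 1 := by norm_num
  rw [h5, one_smul] at h4
  exact h4

theorem hmem : P - Q ∈ g := by
  rw [← B.cf, ← B.fc]
  exact B.lie _ B.cg _ B.fg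

/-- the component of weight two -/
theorem two {D : A} (hD : D ∈ g) : ∃ κ : K, P * D * Q = κ • c := by
  obtain ⟨t, ht⟩ := B.ext _ (B.quad_mem B.fg B.ff hD)
  refine ⟨t, ?_⟩
  rw [← ht, ← B.cf, ← B.fc]
  simp only [mul_assoc]

/-- the component of weight minus two -/
theorem mtwo {D : A} (hD : D ∈ g) : ∃ κ : K, Q * D * P = κ • f := by
  obtain ⟨t, ht⟩ := B.ext D hD
  refine ⟨t, ?_⟩
  have h2 : Q * D * P = f * (c * D * c) * f := by
    rw [← B.cf, ← B.fc]
    simp only [mul_assoc]
  rw [h2, ht, mul_smul_comm, smul_mul_assoc, B.fcf]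

theorem ext_f {D : A} (hD : D ∈ g) : ∃ t : K, f * D * f = t • f := by
  obtain ⟨κ, h⟩ := B.two hD
  refine ⟨κ, ?_⟩
  calc f * D * f = f * (P * D * Q) * f := by
        have e1 : f * D * f = (f * P) * D * (Q * f) := by rw [B.fP, B.Qf]
        rw [e1]
        simp only [mul_assoc]
    _ = κ • f := by rw [h, mul_smul_comm, smul_mul_assoc, B.fcf]

theorem symm : Tri g f c Q P R :=
  ⟨B.lie, B.fg, B.cg, B.ff, B.cc, B.fcf, B.cfc, B.fc, B.cf, by rw [B.hR]; abel,
    fun _ hx => B.ext_f hx⟩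

theorem two_mem {D : A} (hD : D ∈ g) : P * D * Q ∈ g := by
  obtain ⟨κ, h⟩ := B.two hD
  rw [h]
  exact g.smul_mem _ B.cg

theorem mtwo_mem {D : A} (hD : D ∈ g) : Q * D * P ∈ g := by
  obtain ⟨κ, h⟩ := B.mtwo hD
  rw [h]
  exact g.smul_mem _ B.fg

/-- the component of weight one -/
theorem up_mem {D : A} (hD : D ∈ g) : P * D * R + R * D * Q ∈ g := by
  have h0 : D - P * D * Q - Q * D * P ∈ g :=
    g.sub_mem (g.sub_mem hD (B.two_mem hD)) (B.mtwo_mem hD)
  have h1 := B.lie _ B.hmem _ h0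
  have h2 := B.lie _ B.hmem _ h1
  have h4 := g.smul_mem (2⁻¹ : K) (g.add_mem h2 h1)
  convert h4 using 1
  rw [eq_inv_smul_iff₀ (two_ne_zero), B.hR, two_smul]
  simp only [mul_sub, sub_mul, mul_one, one_mul, mul_assoc, B.PP, B.QQ, B.PQ, B.QP, B.PPa, B.QQa,
    B.PQa, B.QPa, mul_zero]
  abel

theorem up_up {D : A} (hD : D ∈ g) : Up g P Q R (P * D * R + R * D * Q) := by
  refine ⟨B.up_mem hD, ?_⟩
  simp only [mul_add, add_mul, mul_assoc, B.PPa, B.PRa, B.RPa, B.RRa, B.RR, B.QR, B.RQ, B.QQ,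
    mul_zero, add_zero, zero_add]

/-- the component of weight minus one -/
theorem dn_mem {D : A} (hD : D ∈ g) : R * D * P + Q * D * R ∈ g := by
  have h := B.symm.up_mem hD
  rwa [add_comm] at h

theorem dn_dn {D : A} (hD : D ∈ g) : Dn g P Q R (R * D * P + Q * D * R) := by
  have h := B.symm.up_up hD
  refine ⟨B.dn_mem hD, ?_⟩
  have h2 := h.eq
  rw [add_comm (R * D * P) (Q * D * R)]
  conv_lhs => rw [h2]
  abel

section UpDn

variable {x x' y : A}

theorem up_P (hx : Up g P Q R x) : x * P = 0 := by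
  rw [hx.eq, add_mul, mul_assoc, B.RP, mul_assoc (R * x), B.QP, mul_zero, mul_zero, add_zero]

theorem Q_up (hx : Up g P Q R x) : Q * x = 0 := by
  rw [hx.eq, mul_add]
  simp only [← mul_assoc, B.QP, B.QR, zero_mul, add_zero]

theorem P_up_Q (hx : Up g P Q R x) : P * x * Q = 0 := by
  conv_lhs => rw [hx.eq]
  simp only [mul_add, add_mul, mul_assoc, B.PPa, B.PRa, B.RQ, mul_zero, add_zero]

theorem P_up (hx : Up g P Q R x) : P * x = P * x * R := by
  conv_lhs => rw [hx.eq]
  simp only [mul_add, mul_assoc, B.PPa, B.PRa, add_zero]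

theorem up_Q (hx : Up g P Q R x) : x * Q = R * x * Q := by
  conv_lhs => rw [hx.eq]
  simp only [add_mul, mul_assoc, B.RQ, B.QQ, mul_zero, zero_add]

theorem up_eq (hx : Up g P Q R x) : x = P * x + x * Q := by
  rw [B.P_up hx, B.up_Q hx]
  exact hx.eq

theorem up_mul (hx : Up g P Q R x) (hx' : Up g P Q R x') : x * x' = P * (x * x') * Q := by
  have h1 : x * x' = (P * x) * (x' * Q) := by
    have e1 := B.up_eq hx
    have e2 := B.up_eq hx'
    have a1 : x * Q * x' = 0 := by rw [mul_assoc, B.Q_up hx', mul_zero]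
    have a2 : P * x * (P * x') = 0 := by
      rw [← mul_assoc, mul_assoc P x P, B.up_P hx, mul_zero, zero_mul]
    calc x * x' = (P * x + x * Q) * x' := by rw [← e1]
      _ = P * x * x' := by rw [add_mul, a1, add_zero]
      _ = P * x * (P * x' + x' * Q) := by rw [← e2]
      _ = _ := by rw [mul_add, a2, zero_add]
  calc x * x' = (P * x) * (x' * Q) := h1
    _ = P * (x * x') * Q := by simp only [mul_assoc]

theorem P_mul (hx : Up g P Q R x) (hx' : Up g P Q R x') : P * (x * x') = x * x' := by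
  rw [B.up_mul hx hx']
  simp only [mul_assoc, B.PPa]

theorem mul_Q (hx : Up g P Q R x) (hx' : Up g P Q R x') : x * x' * Q = x * x' := by
  rw [B.up_mul hx hx', mul_assoc, B.QQ]

theorem up_cube (hx : Up g P Q R x) : x * x * x = 0 := by
  rw [← B.mul_Q hx hx, mul_assoc, B.Q_up hx, mul_zero]

/-- the commutator of two elements of weight one -/
theorem up_comm (hx : Up g P Q R x) (hx' : Up g P Q R x') :
    ∃ κ : K, x * x' - x' * x = κ • c := by
  obtain ⟨κ, h⟩ := B.two (B.lie _ hx.mem _ hx'.mem)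
  refine ⟨κ, ?_⟩
  rw [← h, mul_sub, sub_mul, ← B.up_mul hx hx', ← B.up_mul hx' hx]

/-- the quartic form -/
theorem up_quartic (hx : Up g P Q R x) : ∃ κ : K, x * x * f * (x * x) = κ • c := by
  have hc := B.up_cube hx
  have h1 := B.lie _ hx.mem _ (B.lie _ hx.mem _ (B.lie _ hx.mem _ (B.lie _ hx.mem _ B.fg)))
  have h2 : x * (x * (x * (x * f - f * x) - (x * f - f * x) * x) -
      (x * (x * f - f * x) - (x * f - f * x) * x) * x) -
      (x * (x * (x * f - f * x) - (x * f - f * x) * x) -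
      (x * (x * f - f * x) - (x * f - f * x) * x) * x) * x = (6 : K) • (x * x * f * (x * x)) := by
    have h6 : (6 : K) • (x * x * f * (x * x)) = 6 * (x * x * f * (x * x)) := by
      have h7 : algebraMap K A 6 = 6 := map_ofNat _ 6
      rw [Algebra.smul_def, h7]
    have e : x * (x * (x * (x * f - f * x) - (x * f - f * x) * x) -
      (x * (x * f - f * x) - (x * f - f * x) * x) * x) -
      (x * (x * (x * f - f * x) - (x * f - f * x) * x) -
      (x * (x * f - f * x) - (x * f - f * x) * x) * x) * x =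
      (x * x * x) * (x * f) - 4 * ((x * x * x) * (f * x)) + 6 * (x * x * f * (x * x)) -
        4 * (x * f * (x * x * x)) + f * x * (x * x * x) := by
      noncomm_ring
    rw [e, h6, hc]
    simp
  rw [h2] at h1
  have h3 := g.smul_mem (6⁻¹ : K) h1
  rw [smul_smul, inv_mul_cancel₀ (by norm_num), one_smul] at h3
  obtain ⟨κ, h⟩ := B.two h3
  refine ⟨κ, ?_⟩
  rw [← h]
  have e1 : P * (x * x * f * (x * x)) * Q = (P * (x * x)) * f * (x * x * Q) := by
    simp only [mul_assoc]
  rw [e1, B.P_mul hx hx, B.mul_Q hx hx]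

/-- the cubic map -/
theorem up_cubic (hx : Up g P Q R x) {τ : K} (hτ : x * x = τ • c) :
    τ • (P * x - x * Q) ∈ g := by
  have hc := B.up_cube hx
  have h1 := B.lie _ hx.mem _ (B.lie _ hx.mem _ (B.lie _ hx.mem _ B.fg))
  have h2 : x * (x * (x * f - f * x) - (x * f - f * x) * x) -
      (x * (x * f - f * x) - (x * f - f * x) * x) * x = (-3 : K) • (τ • (P * x - x * Q)) := by
    have e1 : x * x * f * x = τ • (P * x) := by
      rw [hτ, smul_mul_assoc, B.cf, smul_mul_assoc]
    have e2 : x * f * (x * x) = τ • (x * Q) := by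
      rw [hτ, mul_smul_comm, mul_assoc, B.fc]
    have h3 : x * (x * (x * f - f * x) - (x * f - f * x) * x) -
        (x * (x * f - f * x) - (x * f - f * x) * x) * x =
        (x * x * x) * f - (x * x * f * x + x * x * f * x + x * x * f * x) +
        (x * f * (x * x) + x * f * (x * x) + x * f * (x * x)) - f * (x * x * x) := by
      noncomm_ring
    rw [h3, e1, e2, hc, zero_mul, mul_zero]
    module
  rw [h2] at h1
  have h3 := g.smul_mem (-3⁻¹ : K) h1
  rw [smul_smul] at h3
  have h4 : (-3⁻¹ : K) * -3 = 1 := by norm_num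
  rw [h4, one_smul] at h3
  exact h3

/-- elements of weight minus one are commutators of `f` with elements of weight one -/
theorem dn_up (hy : Dn g P Q R y) : Up g P Q R (c * y - y * c) ∧
    f * (c * y - y * c) - (c * y - y * c) * f = y := by
  have a1 : f * y = 0 := by
    rw [hy.eq, mul_add]
    simp only [← mul_assoc, B.fR, B.fQ, zero_mul, add_zero]
  have a2 : y * f = 0 := by
    rw [hy.eq, add_mul]
    simp only [mul_assoc, B.Pf, B.Rf, mul_zero, add_zero]
  have a3 : Q * y = Q * y * R := by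
    conv_lhs => rw [hy.eq]
    simp only [mul_add, mul_assoc, B.QRa, B.QQa, zero_add]
  have a4 : y * P = R * y * P := by
    conv_lhs => rw [hy.eq]
    simp only [add_mul, mul_assoc, B.RP, B.PP, mul_zero, add_zero]
  have b1 : c * y = P * (c * y) * R := by
    calc c * y = c * (Q * y) := by rw [← mul_assoc, B.cQ]
      _ = c * (Q * y * R) := congrArg (c * ·) a3
      _ = (c * Q) * y * R := by simp only [mul_assoc]
      _ = P * (c * y) * R := by rw [B.cQ, ← mul_assoc P c, B.Pc]
  have b2 : y * c = R * (y * c) * Q := by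
    calc y * c = (y * P) * c := by rw [mul_assoc, B.Pc]
      _ = (R * y * P) * c := congrArg (· * c) a4
      _ = R * y * (P * c) := by simp only [mul_assoc]
      _ = R * (y * c) * Q := by rw [B.Pc, mul_assoc R (y * c) Q, mul_assoc y c Q, B.cQ, mul_assoc]
  have b3 : R * (c * y) = 0 := by rw [← mul_assoc, B.Rc, zero_mul]
  have b4 : P * (y * c) = 0 := by
    rw [b2]
    simp only [← mul_assoc, B.PR, zero_mul]
  refine ⟨⟨B.lie _ B.cg _ hy.mem, ?_⟩, ?_⟩
  · rw [mul_sub, mul_sub, sub_mul, sub_mul, b3, b4, zero_mul, zero_mul, ← b1, sub_zero, zero_sub,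
      ← b2]
    abel
  · have e1 : f * (y * c) = 0 := by rw [← mul_assoc, a1, zero_mul]
    have e2 : c * y * f = 0 := by rw [mul_assoc, a2, mul_zero]
    rw [mul_sub, sub_mul, e1, e2, ← mul_assoc, B.fc, mul_assoc y, B.cf, sub_zero, zero_sub,
      sub_neg_eq_add, a3, a4]
    conv_rhs => rw [hy.eq]
    abel

/-- products of elements of weight one are multiples of `c` if all their squares are -/
theorem up_mul_of_sq (hsq : ∀ x, Up g P Q R x → ∃ τ : K, x * x = τ • c) (hx : Up g P Q R x)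
    (hx' : Up g P Q R x') : ∃ κ : K, x * x' = κ • c := by
  have hadd : Up g P Q R (x + x') := by
    refine ⟨g.add_mem hx.mem hx'.mem, ?_⟩
    conv_lhs => rw [hx.eq, hx'.eq]
    noncomm_ring
  obtain ⟨κ, h⟩ := B.up_comm hx hx'
  obtain ⟨τ₁, h1⟩ := hsq x hx
  obtain ⟨τ₂, h2⟩ := hsq x' hx'
  obtain ⟨τ₃, h3⟩ := hsq _ hadd
  refine ⟨2⁻¹ * (κ + τ₃ - τ₁ - τ₂), ?_⟩
  have h4 : (2 : K) • (x * x') = (κ + τ₃ - τ₁ - τ₂) • c := by
    have e1 : (2 : K) • (x * x') = (x * x' - x' * x) + (x + x') * (x + x') - x * x - x' * x' := by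
      rw [two_smul]
      noncomm_ring
    rw [e1, h, h1, h2, h3]
    module
  rw [← smul_smul, ← h4, smul_smul, inv_mul_cancel₀ (two_ne_zero), one_smul]

/-- the corner is scalar if all squares of elements of weight one are multiples of `c` -/
theorem corner_of_sq (hsq : ∀ x, Up g P Q R x → ∃ τ : K, x * x = τ • c) {D D' : A} (hD : D ∈ g)
    (hD' : D' ∈ g) : ∃ κ : K, P * D * R * D' * P = κ • P := by
  have hx := B.up_up hD
  have hy := B.dn_dn hD'
  obtain ⟨x, hxd⟩ : ∃ x, x = P * D * R + R * D * Q := ⟨_, rfl⟩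
  obtain ⟨y, hyd⟩ : ∃ y, y = R * D' * P + Q * D' * R := ⟨_, rfl⟩
  rw [← hxd] at hx
  rw [← hyd] at hy
  obtain ⟨hx', hyx⟩ := B.dn_up hy
  obtain ⟨κ, hκ⟩ := B.up_mul_of_sq hsq hx hx'
  refine ⟨-κ, ?_⟩
  have e1 : P * D * R * D' * P = P * x * y * P := by
    rw [hxd, hyd]
    simp only [mul_add, add_mul, mul_assoc, B.PPa, B.PRa, B.RP, B.PP, B.RRa, mul_zero,
      add_zero]
  obtain ⟨z, hz⟩ : ∃ z, z = c * y - y * c := ⟨_, rfl⟩
  rw [← hz] at hκ hyx
  have e2 : P * x * f = 0 := by rw [B.P_up hx, mul_assoc, B.Rf, mul_zero]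
  calc P * D * R * D' * P = P * x * y * P := e1
    _ = P * x * (f * z - z * f) * P := by rw [hyx]
    _ = (P * x * f) * z * P - P * (x * z) * f * P := by
        simp only [mul_sub, sub_mul, mul_assoc]
    _ = (-κ) • P := by
        rw [e2, zero_mul, zero_mul, zero_sub, hκ, mul_smul_comm, B.Pc, smul_mul_assoc, B.cf,
          smul_mul_assoc, B.PP, neg_smul]

end UpDn

end Tri

end Pool.Agent.TypeIV
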